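import Pool.Agent.T2H54.SB.Stm
import Pool.Agent.T2H57.VT.F
import Pool.Agent.TH570.GS.SM

/-! Package V3 (helper57): the mean square of zeta over intervals of length `T^(1/3)`. -/

set_option autoImplicit false

namespace Pool.Agent.T2H54.SB.PkgV3

open Finset MeasureTheory Complex
open Pool.Agent.Y766
open Pool.Agent.H448R2.GC (cu)

theorem z_hl (u : ℝ) : Pool.Agent.TH612.GS.z u = riemannZeta (hl u) := by
  unfold Pool.Agent.TH612.GS.z hl
  congr 1
  push_cast
  ring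

theorem gs_cont2 (N k : ℕ) (c : ℝ) (hc : 0 < c) : Continuous fun p : ℝ × ℝ => gs N (k + 1) c (hl p.1) p.2 := by
  have hcu := Pool.Agent.H448R2.GC.cu_cont k c hc
  have e : (fun p : ℝ × ℝ => gs N (k + 1) c (hl p.1) p.2) = fun p : ℝ × ℝ =>
      SS (fun m => cu (k + 1) c (Real.log m - p.2) * (Real.sqrt m)⁻¹) (Icc 1 N) p.1 := by
    funext p
    rw [gs_eq]
  rw [e]
  unfold SS
  refine continuous_finsetSum _ fun m _ => ?_
  refine Continuous.mul ?_ (by fun_prop)
  refine Complex.continuous_ofReal.comp ?_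
  exact (hcu.comp (by fun_prop)).mul continuous_const

theorem three_int (T L B C : ℝ) (f g1 g2 g3 : ℝ → ℝ) (hf : Continuous f) (hg1 : Continuous g1)
    (hg2 : Continuous g2) (hg3 : Continuous g3)
    (h : ∀ u, T ≤ u → u ≤ T + L → f u ≤ C * (1 + g1 u + g2 u + g3 u))
    (b1 : ∫ u in T..(T + L), g1 u ≤ B) (b2 : ∫ u in T..(T + L), g2 u ≤ B)
    (b3 : ∫ u in T..(T + L), g3 u ≤ 12 * B) (hL : 0 ≤ L) (hC : 0 ≤ C) :
    ∫ u in T..(T + L), f u ≤ C * (L + 14 * B) := by
  have h1 : ∫ u in T..(T + L), f u ≤ ∫ u in T..(T + L), C * (1 + g1 u + g2 u + g3 u) :=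
    intervalIntegral.integral_mono_on (by linarith) (hf.intervalIntegrable _ _)
      ((continuous_const.mul (((continuous_const.add hg1).add hg2).add hg3)).intervalIntegrable _ _)
      (fun u hu => h u hu.1 hu.2)
  have h2 : ∫ u in T..(T + L), (1 + g1 u + g2 u + g3 u) = L + (∫ u in T..(T + L), g1 u) +
      (∫ u in T..(T + L), g2 u) + ∫ u in T..(T + L), g3 u := by
    rw [intervalIntegral.integral_add, intervalIntegral.integral_add, intervalIntegral.integral_add,
      intervalIntegral.integral_const]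
    · simp
    · exact intervalIntegrable_const
    · exact hg1.intervalIntegrable _ _
    · exact (continuous_const.add hg1).intervalIntegrable _ _
    · exact hg2.intervalIntegrable _ _
    · exact ((continuous_const.add hg1).add hg2).intervalIntegrable _ _
    · exact hg3.intervalIntegrable _ _
  rw [intervalIntegral.integral_const_mul, h2] at h1
  refine h1.trans (mul_le_mul_of_nonneg_left ?_ hC)
  linarith

theorem swap_bd (P : ℝ → ℝ → ℝ) (hPc : Continuous (Function.uncurry P)) (T L B : ℝ)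
    (hPv : ∀ v, ∫ u in T..(T + L), P u v ≤ 2 * B) :
    ∫ u in T..(T + L), ∫ v in (-3:ℝ)..3, P u v ≤ 12 * B ∧ Continuous fun u => ∫ v in (-3:ℝ)..3, P u v := by
  constructor
  · have hsw : ∫ u in T..(T + L), ∫ v in (-3:ℝ)..3, P u v = ∫ v in (-3:ℝ)..3, ∫ u in T..(T + L), P u v := by
      apply intervalIntegral_intervalIntegral_swap
      apply (hPc.continuousOn.integrableOn_compact (isCompact_uIcc.prod isCompact_uIcc)).mono_set
      exact Set.prod_mono Set.uIoc_subset_uIcc Set.uIoc_subset_uIcc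
    rw [hsw]
    have h0 : Continuous (Function.uncurry fun v u => P u v) :=
      hPc.comp (continuous_snd.prodMk continuous_fst)
    have h1 : Continuous fun v => ∫ u in T..(T + L), P u v :=
      intervalIntegral.continuous_parametric_intervalIntegral_of_continuous' h0 T (T + L)
    have h2 := intervalIntegral.integral_mono_on (μ := volume) (show (-3:ℝ) ≤ 3 by norm_num)
      (h1.intervalIntegrable (-3) 3) (intervalIntegrable_const (c := 2 * B)) (fun v _ => hPv v)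
    rw [intervalIntegral.integral_const] at h2
    refine h2.trans (le_of_eq ?_)
    rw [smul_eq_mul]
    ring
  · exact intervalIntegral.continuous_parametric_intervalIntegral_of_continuous' hPc (-3) 3

theorem local_bd : ∃ C T₁ : ℝ, 1 ≤ C ∧ 1 ≤ T₁ ∧ ∀ T L : ℝ, T₁ ≤ T → T ^ (1 / 3 : ℝ) ≤ L → L ≤ T →
    ∫ u in T..(T + L), ‖Pool.Agent.TH612.GS.z u‖ ^ 2 ≤ C * L * (5 + Real.log T) ^ 4 := by
  obtain ⟨k, C, T₀, hC, hT₀, h⟩ := afe_sq (η := 1 / 100) (by norm_num) le_rfl
  refine ⟨C * 2100001, max T₀ ((27000 : ℝ) ^ 10), by linarith, le_max_of_le_left hT₀, ?_⟩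
  intro T L hT hTL hLT
  have hT0 : T₀ ≤ T := (le_max_left _ _).trans hT
  have hTb : (27000 : ℝ) ^ 10 ≤ T := (le_max_right _ _).trans hT
  have hT1 : 1 ≤ T := hT₀.trans hT0
  have hTpos : 0 < T := by linarith
  have hlogT : 0 ≤ Real.log T := Real.log_nonneg hT1
  have hr1 : 1 ≤ T ^ (1 / 3 : ℝ) := Real.one_le_rpow hT1 (by norm_num)
  have hL1 : 1 ≤ L := hr1.trans hTL
  have hL : 0 < L := by linarith
  obtain ⟨c, D1, D2, N, hc, hN, hz⟩ := h T hT0
  -- the conditions
  have c1 : T ≤ L ^ 3 := by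
    have h1 : (T ^ (1 / 3 : ℝ)) ^ 3 ≤ L ^ 3 := pow_le_pow_left₀ (by positivity) hTL 3
    have h2 : (T ^ (1 / 3 : ℝ)) ^ 3 = T := by
      rw [← Real.rpow_natCast, ← Real.rpow_mul hTpos.le]
      norm_num
    linarith
  have hN' : (N : ℝ) ≤ 30 * T ^ (52 / 100 : ℝ) := by
    refine hN.trans (le_of_eq ?_)
    norm_num
  have c2 : (N : ℝ) ^ 3 ≤ T * L ^ 2 := by
    have h1 : (N : ℝ) ^ 3 ≤ (30 * T ^ (52 / 100 : ℝ)) ^ 3 := pow_le_pow_left₀ (Nat.cast_nonneg _) hN' 3
    have h2 : (30 * T ^ (52 / 100 : ℝ)) ^ 3 = 27000 * T ^ (156 / 100 : ℝ) := by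
      rw [mul_pow, ← Real.rpow_natCast (T ^ (52 / 100 : ℝ)), ← Real.rpow_mul hTpos.le]
      norm_num
    have h3 : (27000 : ℝ) ≤ T ^ (1 / 10 : ℝ) := by
      have h4 : ((27000 : ℝ) ^ 10) ^ (1 / 10 : ℝ) ≤ T ^ (1 / 10 : ℝ) :=
        Real.rpow_le_rpow (by positivity) hTb (by norm_num)
      have h5 : ((27000 : ℝ) ^ 10) ^ (1 / 10 : ℝ) = 27000 := by
        rw [← Real.rpow_natCast, ← Real.rpow_mul (by norm_num)]
        norm_num
      linarith
    have h4 : (27000 : ℝ) * T ^ (156 / 100 : ℝ) ≤ T ^ (1 / 10 : ℝ) * T ^ (156 / 100 : ℝ) :=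
      mul_le_mul_of_nonneg_right h3 (by positivity)
    have h5 : T ^ (1 / 10 : ℝ) * T ^ (156 / 100 : ℝ) ≤ T ^ (5 / 3 : ℝ) := by
      rw [← Real.rpow_add hTpos]
      exact Real.rpow_le_rpow_of_exponent_le hT1 (by norm_num)
    have h6 : T ^ (5 / 3 : ℝ) = T * (T ^ (1 / 3 : ℝ)) ^ 2 := by
      rw [← Real.rpow_natCast (T ^ (1 / 3 : ℝ)), ← Real.rpow_mul hTpos.le]
      nth_rewrite 2 [← Real.rpow_one T]
      rw [← Real.rpow_add hTpos]
      norm_num
    have h7 : T * (T ^ (1 / 3 : ℝ)) ^ 2 ≤ T * L ^ 2 := by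
      apply mul_le_mul_of_nonneg_left _ hTpos.le
      exact pow_le_pow_left₀ (by positivity) hTL 2
    linarith
  have hlogN : 1 + Real.log N ≤ 5 + Real.log T := by
    rcases Nat.eq_zero_or_pos N with h0 | h0
    · subst h0
      simp
      linarith
    · have h1 : Real.log N ≤ Real.log (30 * T ^ (52 / 100 : ℝ)) :=
        Real.log_le_log (by exact_mod_cast h0) hN'
      rw [Real.log_mul (by norm_num) (by positivity), Real.log_rpow hTpos] at h1
      have h2 : Real.log 30 ≤ 4 := by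
        rw [Real.log_le_iff_le_exp (by norm_num)]
        have h3 : Real.exp 4 = Real.exp 1 ^ 4 := by
          rw [← Real.exp_nat_mul]; norm_num
        rw [h3]
        have h4 := Real.exp_one_gt_d9
        have h5 : (2.7 : ℝ) ≤ Real.exp 1 := by linarith
        calc (30 : ℝ) ≤ 2.7 ^ 4 := by norm_num
          _ ≤ _ := pow_le_pow_left₀ (by norm_num) h5 4
      linarith
  have hlogN0 : 0 ≤ Real.log N := by
    rcases Nat.eq_zero_or_pos N with h0 | h0
    · subst h0; simp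
    · exact Real.log_nonneg (by exact_mod_cast h0)
  set B : ℝ := 150000 * L * (5 + Real.log T) ^ 4 with hB
  have hBB : 150000 * L * (1 + Real.log N) ^ 4 ≤ B := by
    rw [hB]
    gcongr
  have hB0 : 0 ≤ B := by rw [hB]; positivity
  have hgs : ∀ (j : ℕ) (D : ℝ), ∫ u in T..(T + L), ‖gs N j c (hl u) D‖ ^ 2 ≤ B := fun j D =>
    (gs_int hTpos hL c1 c2 j c D hc).trans hBB
  have hcg : ∀ (j : ℕ) (D : ℝ), Continuous fun u => ‖gs N (j + 1) c (hl u) D‖ ^ 2 := by
    intro j D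
    exact ((gs_cont2 N j c hc).comp (by fun_prop : Continuous fun u : ℝ => (u, D))).norm.pow 2
  -- the double integral
  set P : ℝ → ℝ → ℝ := fun u v => ‖gs N (k + 1) c (hl u) (D2 + v + c)‖ ^ 2 +
    ‖gs N (k + 1) c (hl u) (D2 + v)‖ ^ 2 with hP
  have hPc : Continuous (Function.uncurry P) := by
    have h1 : Continuous fun p : ℝ × ℝ => (p.1, D2 + p.2 + c) := by fun_prop
    have h2 : Continuous fun p : ℝ × ℝ => (p.1, D2 + p.2) := by fun_prop
    exact (((gs_cont2 N k c hc).comp h1).norm.pow 2).add (((gs_cont2 N k c hc).comp h2).norm.pow 2)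
  have hPv : ∀ v, ∫ u in T..(T + L), P u v ≤ 2 * B := by
    intro v
    rw [hP]
    simp only
    rw [intervalIntegral.integral_add ((hcg k _).intervalIntegrable _ _) ((hcg k _).intervalIntegrable _ _)]
    have h1 := hgs (k + 1) (D2 + v + c)
    have h2 := hgs (k + 1) (D2 + v)
    linarith
  obtain ⟨hPi, hPuc⟩ := swap_bd P hPc T L B hPv
  -- the estimate
  have hgc1 : Continuous fun u => ‖gs N (k + 2) c (hl u) D1‖ ^ 2 := hcg (k + 1) D1
  have hgc2 : Continuous fun u => ‖gs N (k + 2) c (hl u) D2‖ ^ 2 := hcg (k + 1) D2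
  have hfin := three_int T L B C (fun u => ‖Pool.Agent.TH612.GS.z u‖ ^ 2)
    (fun u => ‖gs N (k + 2) c (hl u) D1‖ ^ 2) (fun u => ‖gs N (k + 2) c (hl u) D2‖ ^ 2)
    (fun u => ∫ v in (-3:ℝ)..3, P u v) (Pool.Agent.TH570.GS.z_cont.norm.pow 2) hgc1 hgc2 hPuc (by
      intro u hu1 hu2
      rw [z_hl]
      exact hz u hu1 (by linarith)) (hgs (k + 2) D1) (hgs (k + 2) D2) hPi hL.le (by linarith)
  refine hfin.trans ?_
  have h3 : L ≤ L * (5 + Real.log T) ^ 4 := by
    have h4 : (1 : ℝ) ≤ (5 + Real.log T) ^ 4 := one_le_pow₀ (by linarith)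
    nlinarith
  have h5 : L + 14 * B ≤ 2100001 * (L * (5 + Real.log T) ^ 4) := by
    have h6 : B = 150000 * (L * (5 + Real.log T) ^ 4) := by rw [hB]; ring
    linarith
  calc C * (L + 14 * B) ≤ C * (2100001 * (L * (5 + Real.log T) ^ 4)) :=
        mul_le_mul_of_nonneg_left h5 (by linarith)
    _ = _ := by ring

end PkgV3

open MeasureTheory Pool.Agent.TH612.GS in
theorem pV3 : S_V3 := by
  intro ε hε
  obtain ⟨C1, T1, hC1, hT1, h1⟩ := PkgV3.local_bd
  obtain ⟨C2, T2, hC2, hT2, h2⟩ := Pool.Agent.TH570.GS.t_SM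
  obtain ⟨K, hK⟩ : ∃ K : ℝ, K = max T1 T2 := ⟨_, rfl⟩
  have hK1 : T1 ≤ K := by rw [hK]; exact le_max_left _ _
  have hK2 : T2 ≤ K := by rw [hK]; exact le_max_right _ _
  have hK0 : 2 ≤ K := hT2.trans hK2
  refine ⟨(C1 + C2) * (5 + 4 / ε) ^ 4, K ^ 3, by positivity, ?_, ?_⟩
  · nlinarith [sq_nonneg (K - 2)]
  intro T H t hT hH hHT ht0 htT
  have hT2' : 2 ≤ T := by nlinarith [sq_nonneg (K - 2)]
  have hT1' : 1 ≤ T := by linarith
  have hTpos : 0 < T := by linarith
  have hlogT : 0 ≤ Real.log T := Real.log_nonneg hT1'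
  have hKr : K ≤ T ^ (1 / 3 : ℝ) := by
    have h3 : (K ^ 3) ^ (1 / 3 : ℝ) ≤ T ^ (1 / 3 : ℝ) := Real.rpow_le_rpow (by positivity) hT (by norm_num)
    have h4 : (K ^ 3) ^ (1 / 3 : ℝ) = K := by
      rw [← Real.rpow_natCast, ← Real.rpow_mul (by linarith)]
      norm_num
    linarith
  have hrT : T ^ (1 / 3 : ℝ) ≤ T := by
    have := Real.rpow_le_rpow_of_exponent_le hT1' (show (1 / 3 : ℝ) ≤ 1 by norm_num)
    rwa [Real.rpow_one] at this
  obtain ⟨H', hH'⟩ : ∃ H' : ℝ, H' = max H (T ^ (1 / 3 : ℝ)) := ⟨_, rfl⟩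
  have hHH : H ≤ H' := by rw [hH']; exact le_max_left _ _
  have hrH : T ^ (1 / 3 : ℝ) ≤ H' := by rw [hH']; exact le_max_right _ _
  have hH'T : H' ≤ T := by rw [hH']; exact max_le hHT hrT
  have hH'2 : H' ≤ H + T ^ (1 / 3 : ℝ) := by
    rw [hH']
    exact max_le (by linarith [Real.rpow_nonneg hTpos.le (1 / 3 : ℝ)]) (by linarith)
  have hH'0 : 0 < H' := by linarith
  have hcz : Continuous fun u => ‖z u‖ ^ 2 := Pool.Agent.TH570.GS.z_cont.norm.pow 2
  have hnn : ∀ u, 0 ≤ ‖z u‖ ^ 2 := fun u => by positivity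
  rw [intervalIntegral.integral_comp_add_left (fun u => ‖z u‖ ^ 2) t, add_zero]
  have hmain : ∫ u in t..(t + H), ‖z u‖ ^ 2 ≤ (C1 + C2) * H' * (5 + Real.log T) ^ 4 := by
    rcases lt_or_ge t H' with htH | htH
    · have h3 : ∫ u in t..(t + H), ‖z u‖ ^ 2 ≤ ∫ u in (0:ℝ)..(2 * H'), ‖z u‖ ^ 2 :=
        intervalIntegral.integral_mono_interval ht0 (by linarith) (by linarith)
          (Filter.Eventually.of_forall hnn) (hcz.intervalIntegrable _ _)
      have h4 := h2 H' (by linarith)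
      have h5 : Real.log H' ≤ Real.log T := Real.log_le_log hH'0 hH'T
      have h6 : Real.log T ≤ (5 + Real.log T) ^ 4 := by
        have h7 : 5 + Real.log T ≤ (5 + Real.log T) ^ 4 := le_self_pow₀ (by linarith) (by norm_num)
        linarith
      have h7 : C2 * H' * Real.log H' ≤ C2 * H' * (5 + Real.log T) ^ 4 :=
        mul_le_mul_of_nonneg_left (h5.trans h6) (by positivity)
      have h8 : 0 ≤ C1 * H' * (5 + Real.log T) ^ 4 := by positivity
      linarith
    · have htpos : 0 < t := by linarith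
      have h3 : ∫ u in t..(t + H), ‖z u‖ ^ 2 ≤ ∫ u in t..(t + H'), ‖z u‖ ^ 2 :=
        intervalIntegral.integral_mono_interval le_rfl (by linarith) (by linarith)
          (Filter.Eventually.of_forall hnn) (hcz.intervalIntegrable _ _)
      have h4 := h1 t H' (by linarith) ((Real.rpow_le_rpow ht0 htT (by norm_num)).trans hrH) htH
      have h5 : Real.log t ≤ Real.log T := Real.log_le_log htpos htT
      have h6 : 0 ≤ Real.log t := Real.log_nonneg (by linarith)
      have h7 : C1 * H' * (5 + Real.log t) ^ 4 ≤ C1 * H' * (5 + Real.log T) ^ 4 := by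
        gcongr
      have h8 : 0 ≤ C2 * H' * (5 + Real.log T) ^ 4 := by positivity
      linarith
  have hlog : (5 + Real.log T) ^ 4 ≤ (5 + 4 / ε) ^ 4 * T ^ ε := by
    have h3 := Real.log_le_rpow_div hTpos.le (show 0 < ε / 4 by positivity)
    have h4 : 1 ≤ T ^ (ε / 4) := Real.one_le_rpow hT1' (by positivity)
    have h5 : 5 + Real.log T ≤ (5 + 4 / ε) * T ^ (ε / 4) := by
      have h6 : T ^ (ε / 4) / (ε / 4) = 4 / ε * T ^ (ε / 4) := by field_simp
      rw [h6] at h3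
      nlinarith
    calc (5 + Real.log T) ^ 4 ≤ ((5 + 4 / ε) * T ^ (ε / 4)) ^ 4 :=
          pow_le_pow_left₀ (by linarith) h5 4
      _ = _ := by
          rw [mul_pow, ← Real.rpow_natCast (T ^ (ε / 4)), ← Real.rpow_mul hTpos.le]
          congr 2
          push_cast
          ring
  calc ∫ u in t..(t + H), ‖z u‖ ^ 2 ≤ (C1 + C2) * H' * (5 + Real.log T) ^ 4 := hmain
    _ ≤ (C1 + C2) * (H + T ^ (1 / 3 : ℝ)) * ((5 + 4 / ε) ^ 4 * T ^ ε) := by
        gcongr
    _ = _ := by ring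

end Pool.Agent.T2H54.SB
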