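import Pool.Agent.T2H54.SB.Stm2
import Pool.Agent.TH448.GS.FL2

set_option autoImplicit false

/-! `S_FL2` on a translated box. -/

namespace Pool.Agent.T2H54.SB.PkgFL2U

open Complex Filter Topology MeasureTheory Set
open Pool.Agent.TH612.GS

noncomputable section

variable {k : ℕ}

lemma ch_add {N : ℕ} {ν : Fin k ⊕ Fin k → ℕ} (hν : ν ∈ tup k N) (U γ : Fin k ⊕ Fin k → ℝ) :
    ch ν (U + γ) = ch ν U * ch ν γ := by
  have h1 : ∀ i, (ν i : ℂ) ≠ 0 := by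
    intro i
    have h := (Finset.mem_Icc.1 ((Fintype.mem_piFinset.1 hν) i)).1
    exact_mod_cast (by omega : ν i ≠ 0)
  have e1 : ∏ j, (ν (Sum.inl j) : ℂ) ^ (-(I * ((U + γ) (Sum.inl j) : ℝ))) =
      (∏ j, (ν (Sum.inl j) : ℂ) ^ (-(I * U (Sum.inl j)))) *
        ∏ j, (ν (Sum.inl j) : ℂ) ^ (-(I * γ (Sum.inl j))) := by
    rw [← Finset.prod_mul_distrib]
    refine Finset.prod_congr rfl fun j _ => ?_
    rw [← cpow_add _ _ (h1 _)]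
    congr 1
    rw [Pi.add_apply]
    push_cast
    ring
  have e2 : ∏ j, (ν (Sum.inr j) : ℂ) ^ (I * ((U + γ) (Sum.inr j) : ℝ)) =
      (∏ j, (ν (Sum.inr j) : ℂ) ^ (I * U (Sum.inr j))) *
        ∏ j, (ν (Sum.inr j) : ℂ) ^ (I * γ (Sum.inr j)) := by
    rw [← Finset.prod_mul_distrib]
    refine Finset.prod_congr rfl fun j _ => ?_
    rw [← cpow_add _ _ (h1 _)]
    congr 1
    rw [Pi.add_apply]
    push_cast
    ring
  unfold ch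
  rw [e1, e2]
  ring

lemma ch_norm {N : ℕ} {ν : Fin k ⊕ Fin k → ℕ} (hν : ν ∈ tup k N) (U : Fin k ⊕ Fin k → ℝ) :
    ‖ch ν U‖ = 1 := by
  have h1 : ∀ i, 0 < ν i := fun i => (Finset.mem_Icc.1 ((Fintype.mem_piFinset.1 hν) i)).1
  unfold ch
  rw [norm_mul, norm_prod, norm_prod, Finset.prod_eq_one, Finset.prod_eq_one, one_mul]
  · intro j _
    rw [norm_natCast_cpow_of_pos (h1 _)]
    simp
  · intro j _
    rw [norm_natCast_cpow_of_pos (h1 _)]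
    simp

/-- `S_FL2` on a translated box -/
theorem fl2U (k N : ℕ) (T : ℝ) (c : (Fin k ⊕ Fin k → ℕ) → ℂ) (U : Fin k ⊕ Fin k → ℝ)
    (hN : 1 ≤ N) (hT : 0 < T) :
    ∫⁻ γ, ENNReal.ofReal (‖∑ ν ∈ tup k N, c ν * ch ν (U + γ)‖ ^ 2) ∂(mP (Fin k ⊕ Fin k) T) ≤
    ENNReal.ofReal (T ^ (2 * k) * ∑ ν ∈ tup k N, ‖c ν‖ ^ 2 +
      2 * N * T ^ (2 * k - 1) * (∑ ν ∈ tup k N, ‖c ν‖) ^ 2) := by
  have h := Pool.Agent.TH448.GS.t_FL2 k N T (fun ν => c ν * ch ν U) hN hT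
  have e1 : ∀ ν ∈ tup k N, ‖c ν * ch ν U‖ = ‖c ν‖ := by
    intro ν hν
    rw [norm_mul, ch_norm hν, mul_one]
  have e2 : ∑ ν ∈ tup k N, ‖c ν * ch ν U‖ ^ 2 = ∑ ν ∈ tup k N, ‖c ν‖ ^ 2 :=
    Finset.sum_congr rfl fun ν hν => by rw [e1 ν hν]
  have e3 : ∑ ν ∈ tup k N, ‖c ν * ch ν U‖ = ∑ ν ∈ tup k N, ‖c ν‖ :=
    Finset.sum_congr rfl fun ν hν => e1 ν hν
  have e4 : ∀ γ : Fin k ⊕ Fin k → ℝ, ∑ ν ∈ tup k N, c ν * ch ν (U + γ) =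
      ∑ ν ∈ tup k N, c ν * ch ν U * ch ν γ := by
    intro γ
    refine Finset.sum_congr rfl fun ν hν => ?_
    rw [ch_add hν, mul_assoc]
  simp only [e2, e3] at h
  simp only [e4]
  exact h

end

end Pool.Agent.T2H54.SB.PkgFL2U
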