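import Pool.Agent.T2H54.SB.Stm2
import Pool.Agent.TH751.GF.MVB

set_option autoImplicit false

/-! Project SB: the mean value theorem on a window. -/

namespace Pool.Agent.T2H54.SB

open Complex Filter Topology MeasureTheory Set
open Pool.Agent.TH612.GS

noncomputable section

/-- dyadic blocks -/
def Fb (X j : ℕ) : Finset ℕ := (Finset.Icc 1 X).filter fun n => Nat.log 2 n = j

lemma Fb_mem {X j n : ℕ} (h : n ∈ Fb X j) : 1 ≤ n ∧ n ≤ X ∧ 2 ^ j ≤ n ∧ n ≤ 2 * 2 ^ j := by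
  unfold Fb at h
  rw [Finset.mem_filter, Finset.mem_Icc] at h
  obtain ⟨⟨h1, h2⟩, h3⟩ := h
  refine ⟨h1, h2, ?_, ?_⟩
  · rw [← h3]
    exact Nat.pow_log_le_self 2 (by omega)
  · have := Nat.lt_pow_succ_log_self (b := 2) (by norm_num) n
    rw [h3, pow_succ] at this
    omega

lemma Fb_sum {M : Type*} [AddCommMonoid M] (X : ℕ) (f : ℕ → M) :
    ∑ j ∈ Finset.range (Nat.log 2 X + 1), ∑ n ∈ Fb X j, f n = ∑ n ∈ Finset.Icc 1 X, f n := by
  unfold Fb
  refine Finset.sum_fiberwise_of_maps_to (fun n hn => ?_) f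
  rw [Finset.mem_range]
  have := (Finset.mem_Icc.1 hn).2
  have h2 := Nat.log_mono_right (b := 2) this
  omega

lemma block_eq (X j : ℕ) (a : ℕ → ℂ) (u : ℝ) : ∑ n ∈ Fb X j, a n * (n : ℂ) ^ (-(I * (u : ℂ))) =
    (starRingEnd ℂ) (∑ m ∈ Finset.Icc (2 ^ j) (2 * 2 ^ j),
      (if m ∈ Fb X j then (starRingEnd ℂ) (a m) else 0) * Complex.exp (I * Real.log m * (u : ℂ))) := by
  rw [map_sum]
  have hsub : Fb X j ⊆ Finset.Icc (2 ^ j) (2 * 2 ^ j) := by
    intro n hn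
    have := Fb_mem hn
    rw [Finset.mem_Icc]
    exact ⟨this.2.2.1, this.2.2.2⟩
  rw [← Finset.sum_subset hsub]
  · refine Finset.sum_congr rfl fun n hn => ?_
    rw [if_pos hn, map_mul, Complex.conj_conj, ← Complex.exp_conj]
    have hn0 : (n : ℂ) ≠ 0 := by
      have := (Fb_mem hn).1
      exact_mod_cast (by omega : n ≠ 0)
    rw [Complex.cpow_def_of_ne_zero hn0, ← Complex.natCast_log]
    congr 2
    simp only [map_mul, Complex.conj_I, Complex.conj_ofReal]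
    ring
  · intro n _ hn
    rw [if_neg hn, zero_mul, map_zero]

theorem pMVW : S_MVW := by
  refine ⟨32, by norm_num, ?_⟩
  intro w H X a hH hX
  set L : ℕ := Nat.log 2 X with hL
  have hX0 : (0 : ℝ) < X := by exact_mod_cast hX
  have hX1 : (1 : ℝ) ≤ X := by exact_mod_cast hX
  have hlogX : 0 ≤ Real.log X := Real.log_nonneg hX1
  set Λ : ℝ := 1 + Real.log X with hΛ
  have hΛ1 : 1 ≤ Λ := by rw [hΛ]; linarith
  have hl2 : 0 < Real.log 2 := Real.log_pos (by norm_num)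
  have hl2' := Real.log_two_gt_d9
  have hl2'' := Real.log_two_lt_d9
  have hpow : (2:ℝ) ^ L ≤ X := by
    have h := Nat.pow_log_le_self 2 (x := X) (by omega)
    exact_mod_cast h
  have hLlog : (L : ℝ) * Real.log 2 ≤ Real.log X := by
    have := Real.log_le_log (by positivity) hpow
    rwa [Real.log_pow] at this
  have hL1 : ((L:ℝ) + 1) * Real.log 2 ≤ Λ := by rw [hΛ]; nlinarith
  have hL2 : (L:ℝ) + 1 ≤ 2 * Λ := by nlinarith
  -- block integrals
  have hblk : ∀ j ∈ Finset.range (L + 1),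
      ∫ u in w..(w + H), ‖∑ n ∈ Fb X j, a n * (n : ℂ) ^ (-(I * (u : ℂ)))‖ ^ 2 ≤
        16 * Λ * ∑ n ∈ Fb X j, (H + n) * ‖a n‖ ^ 2 := by
    intro j hj
    have hjL : j ≤ L := Nat.lt_succ_iff.1 (Finset.mem_range.1 hj)
    have h1 := Pool.Agent.TH751.GF.msq w (w + H) (2 ^ j) (by linarith) (Nat.one_le_two_pow)
      (fun m => if m ∈ Fb X j then (starRingEnd ℂ) (a m) else 0)
    have e1 : ∀ u : ℝ, ‖∑ n ∈ Fb X j, a n * (n : ℂ) ^ (-(I * (u : ℂ)))‖ ^ 2 =
        ‖∑ m ∈ Finset.Icc (2 ^ j) (2 * 2 ^ j), (if m ∈ Fb X j then (starRingEnd ℂ) (a m) else 0) *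
          Complex.exp (I * Real.log m * (u : ℂ))‖ ^ 2 := by
      intro u
      rw [block_eq, Complex.norm_conj]
    simp only [e1]
    refine h1.trans ?_
    have hsub : Fb X j ⊆ Finset.Icc (2 ^ j) (2 * 2 ^ j) := by
      intro n hn
      have := Fb_mem hn
      rw [Finset.mem_Icc]
      exact ⟨this.2.2.1, this.2.2.2⟩
    rw [← Finset.sum_subset hsub (f := fun m => ‖(if m ∈ Fb X j then (starRingEnd ℂ) (a m) else 0)‖ ^ 2)
      (fun n _ hn => by rw [if_neg hn]; simp)]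
    rw [Finset.mul_sum, Finset.mul_sum]
    refine Finset.sum_le_sum fun n hn => ?_
    rw [if_pos hn, Complex.norm_conj]
    have hn2 : ((2:ℝ) ^ j) ≤ n := by exact_mod_cast (Fb_mem hn).2.2.1
    have hlg : Real.log (2 * ((2 ^ j : ℕ) : ℝ)) ≤ Λ := by
      push_cast
      rw [← pow_succ', Real.log_pow]
      push_cast
      have : (j : ℝ) ≤ L := by exact_mod_cast hjL
      nlinarith
    have hn0 : (0:ℝ) ≤ n := Nat.cast_nonneg n
    have hpj : (0:ℝ) < 2 ^ j := by positivity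
    have h3 : ((2 ^ j : ℕ) : ℝ) * Real.log (2 * ((2 ^ j : ℕ) : ℝ)) ≤ n * Λ := by
      have h4 : ((2 ^ j : ℕ) : ℝ) = 2 ^ j := by push_cast; rfl
      rw [h4] at hlg ⊢
      have h5 : 0 ≤ Real.log (2 * 2 ^ j) := Real.log_nonneg (by nlinarith [one_le_pow₀ (n := j) (one_le_two (α := ℝ))])
      exact mul_le_mul hn2 hlg h5 hn0
    have h6 : 0 ≤ ‖a n‖ ^ 2 := by positivity
    calc (w + H - w + 16 * (((2 ^ j : ℕ) : ℝ) * Real.log (2 * ((2 ^ j : ℕ) : ℝ)))) * ‖a n‖ ^ 2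
        ≤ (16 * Λ * (H + n)) * ‖a n‖ ^ 2 := by
          refine mul_le_mul_of_nonneg_right ?_ h6
          nlinarith
      _ = 16 * Λ * ((H + n) * ‖a n‖ ^ 2) := by ring
  have hcb : ∀ j, Continuous fun u : ℝ => ‖∑ n ∈ Fb X j, a n * (n : ℂ) ^ (-(I * (u : ℂ)))‖ ^ 2 := by
    intro j
    refine Continuous.pow (Continuous.norm ?_) 2
    refine continuous_finsetSum _ fun n hn => ?_
    have hn0 : (n : ℂ) ≠ 0 := by
      have := (Fb_mem hn).1
      exact_mod_cast (by omega : n ≠ 0)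
    exact continuous_const.mul (Continuous.const_cpow (by fun_prop) (Or.inl hn0))
  have hcs : ∀ u : ℝ, ‖∑ n ∈ Finset.Icc 1 X, a n * (n : ℂ) ^ (-(I * (u : ℂ)))‖ ^ 2 ≤
      (2 * Λ) * ∑ j ∈ Finset.range (L + 1), ‖∑ n ∈ Fb X j, a n * (n : ℂ) ^ (-(I * (u : ℂ)))‖ ^ 2 := by
    intro u
    rw [← Fb_sum X (fun n => a n * (n : ℂ) ^ (-(I * (u : ℂ))))]
    have h1 := norm_sum_le (Finset.range (L + 1))
      (fun j => ∑ n ∈ Fb X j, a n * (n : ℂ) ^ (-(I * (u : ℂ))))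
    have h2 := pow_le_pow_left₀ (norm_nonneg _) h1 2
    have h3 := sq_sum_le_card_mul_sum_sq (s := Finset.range (L + 1))
      (f := fun j => ‖∑ n ∈ Fb X j, a n * (n : ℂ) ^ (-(I * (u : ℂ)))‖)
    rw [Finset.card_range] at h3
    push_cast at h3
    refine (h2.trans h3).trans ?_
    refine mul_le_mul_of_nonneg_right hL2 ?_
    exact Finset.sum_nonneg fun j _ => by positivity
  have hcX : Continuous fun u : ℝ => ‖∑ n ∈ Finset.Icc 1 X, a n * (n : ℂ) ^ (-(I * (u : ℂ)))‖ ^ 2 := by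
    refine Continuous.pow (Continuous.norm ?_) 2
    refine continuous_finsetSum _ fun n hn => ?_
    have hn0 : (n : ℂ) ≠ 0 := by
      have := (Finset.mem_Icc.1 hn).1
      exact_mod_cast (by omega : n ≠ 0)
    exact continuous_const.mul (Continuous.const_cpow (by fun_prop) (Or.inl hn0))
  have hcR : Continuous fun u : ℝ => (2 * Λ) * ∑ j ∈ Finset.range (L + 1),
      ‖∑ n ∈ Fb X j, a n * (n : ℂ) ^ (-(I * (u : ℂ)))‖ ^ 2 :=
    continuous_const.mul (continuous_finsetSum _ fun j _ => hcb j)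
  calc ∫ u in w..(w + H), ‖∑ n ∈ Finset.Icc 1 X, a n * (n : ℂ) ^ (-(I * (u : ℂ)))‖ ^ 2
      ≤ ∫ u in w..(w + H), (2 * Λ) * ∑ j ∈ Finset.range (L + 1),
          ‖∑ n ∈ Fb X j, a n * (n : ℂ) ^ (-(I * (u : ℂ)))‖ ^ 2 :=
        intervalIntegral.integral_mono_on (by linarith) (hcX.intervalIntegrable _ _)
          (hcR.intervalIntegrable _ _) fun u _ => hcs u
    _ = (2 * Λ) * ∑ j ∈ Finset.range (L + 1), ∫ u in w..(w + H),
          ‖∑ n ∈ Fb X j, a n * (n : ℂ) ^ (-(I * (u : ℂ)))‖ ^ 2 := by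
        rw [intervalIntegral.integral_const_mul, intervalIntegral.integral_finsetSum]
        exact fun j _ => (hcb j).intervalIntegrable _ _
    _ ≤ (2 * Λ) * ∑ j ∈ Finset.range (L + 1), 16 * Λ * ∑ n ∈ Fb X j, (H + n) * ‖a n‖ ^ 2 := by
        refine mul_le_mul_of_nonneg_left (Finset.sum_le_sum hblk) (by linarith)
    _ = 32 * Λ ^ 2 * ∑ n ∈ Finset.Icc 1 X, (H + n) * ‖a n‖ ^ 2 := by
        rw [← Finset.mul_sum, Fb_sum X (fun n => (H + n) * ‖a n‖ ^ 2)]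
        ring

end

end Pool.Agent.T2H54.SB
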