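import Pool.Agent.T2H54.SB.Stm2
import Pool.Agent.TH228.GS.ZM
import Pool.Agent.TH811.GS.One

set_option autoImplicit false

/-!
SB-ZMU (helper92): from `GM M (U + γ) 0` to `zr (U + γ)` on a translated box.
-/

namespace Pool.Agent.T2H54.SB.ZMU

open Complex Filter Topology MeasureTheory Set
open Pool.Agent.TH612.CF Pool.Agent.TH612.GS
open Pool.Agent.TH811.GS (approx co zN_sub sum_co cont_P norm_zN_le)
open Pool.Agent.TH228.GS (prod_sub_le zN_le hh hh_nonneg)
open scoped ENNReal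

noncomputable section

/-- the long Dirichlet polynomial minus the short one -/
def P (M X : ℕ) (v : ℝ) : ℂ := ∑ n ∈ Finset.Icc 1 X, co M n * (n : ℂ) ^ (-(I * (v : ℂ)))

/-- the continuous majorant of the integrand -/
def g (M X : ℕ) (H v : ℝ) : ℝ := 32 / H + 2 * ‖P M X v‖ ^ 2

lemma P_cont (M X : ℕ) : Continuous (P M X) := cont_P M X

lemma g_cont (M X : ℕ) (H : ℝ) : Continuous (g M X H) := by
  unfold g
  exact continuous_const.add (continuous_const.mul ((P_cont M X).norm.pow 2))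

lemma g_nonneg (M X : ℕ) {H : ℝ} (hH : 0 ≤ H) (v : ℝ) : 0 ≤ g M X H v := by
  unfold g; positivity

lemma hh_le {T H : ℝ} {M X : ℕ} (hT : 3 ≤ T) (hX1 : T ^ 2 / 2 ≤ (X : ℝ) - 1) (hMX : M ≤ X)
    (hH : 1 ≤ H) (hHT : H ≤ T) {v : ℝ} (hv1 : H ^ (1 / 2 : ℝ) ≤ |v|) (hv2 : |v| ≤ T) :
    hh M v ≤ g M X H v := by
  set r : ℝ := H ^ (1 / 2 : ℝ) with hr
  have hH0 : 0 < H := by linarith
  have hT0 : 0 < T := by linarith
  have hrr : r * r = H := by
    rw [hr, ← Real.rpow_add hH0]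
    norm_num
  have hr0 : 0 < r := Real.rpow_pos_of_pos hH0 _
  have hr1 : 1 ≤ r := Real.one_le_rpow hH (by norm_num)
  have hrT : r ≤ T := by nlinarith
  have h1 := approx hT hX1 (v := v) (hr1.trans hv1) hv2
  have h2 : 1 / |v| ≤ 1 / r := one_div_le_one_div_of_le hr0 hv1
  have h3 : 3 / T ≤ 3 / r := by gcongr
  have h4 : ‖riemannZeta (1 + I * v) - zN X (1 + I * v)‖ ≤ 4 / r := by
    have : 4 / r = 1 / r + 3 / r := by ring
    linarith
  have h5 : ‖riemannZeta (1 + I * v) - zN M (1 + I * v)‖ ≤ 4 / r + ‖P M X v‖ := by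
    have e : riemannZeta (1 + I * v) - zN M (1 + I * v) =
        (riemannZeta (1 + I * v) - zN X (1 + I * v)) + P M X v := by
      unfold P
      rw [← zN_sub hMX]
      ring
    rw [e]
    exact (norm_add_le _ _).trans (add_le_add h4 le_rfl)
  have h6 : (4 / r) ^ 2 = 16 / H := by
    rw [div_pow, ← hrr]
    ring
  unfold hh g
  calc ‖riemannZeta (1 + I * v) - zN M (1 + I * v)‖ ^ 2 ≤ (4 / r + ‖P M X v‖) ^ 2 := by gcongr
    _ ≤ 2 * (4 / r) ^ 2 + 2 * ‖P M X v‖ ^ 2 := by nlinarith [sq_nonneg (4 / r - ‖P M X v‖)]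
    _ = 32 / H + 2 * ‖P M X v‖ ^ 2 := by rw [h6]; ring

/-- the majorant integrated over a window -/
lemma g_int {C : ℝ} (hC : 0 < C) (hMV : ∀ (w H : ℝ) (X : ℕ) (a : ℕ → ℂ), 0 ≤ H → 1 ≤ X →
    ∫ u in w..(w + H), ‖∑ n ∈ Finset.Icc 1 X, a n * (n : ℂ) ^ (-(I * (u : ℂ)))‖ ^ 2 ≤
      C * (1 + Real.log X) ^ 2 * ∑ n ∈ Finset.Icc 1 X, (H + n) * ‖a n‖ ^ 2)
    {T H : ℝ} {M X : ℕ} (hL : 1 ≤ Real.log T) (hX : 1 ≤ X) (hlogX : Real.log X ≤ 2 * Real.log T)
    (hM : 1 ≤ M) (hMX : M ≤ X) (hH : 1 ≤ H) (hMH : (M : ℝ) ≤ H) (w : ℝ) :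
    ∫⁻ a in Icc (0 : ℝ) H, ENNReal.ofReal (g M X H (w + a)) ≤
      ENNReal.ofReal ((32 + 72 * C) * Real.log T ^ 3 * (H / M)) := by
  have hH0 : 0 < H := by linarith
  have hM0 : (0 : ℝ) < M := by exact_mod_cast hM
  have hgc : Continuous fun a => g M X H (w + a) := (g_cont M X H).comp (by fun_prop)
  have e1 : ∫⁻ a in Icc (0 : ℝ) H, ENNReal.ofReal (g M X H (w + a)) =
      ENNReal.ofReal (∫ u in w..(w + H), g M X H u) := by
    rw [← ofReal_integral_eq_lintegral_ofReal (hgc.continuousOn.integrableOn_Icc)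
      (Eventually.of_forall fun v => g_nonneg M X hH0.le _), integral_Icc_eq_integral_Ioc,
      ← intervalIntegral.integral_of_le hH0.le,
      intervalIntegral.integral_comp_add_left (fun u => g M X H u) w, add_zero]
  rw [e1]
  refine ENNReal.ofReal_le_ofReal ?_
  have hPi : IntervalIntegrable (fun v => ‖P M X v‖ ^ 2) volume w (w + H) :=
    ((P_cont M X).norm.pow 2).intervalIntegrable _ _
  have e2 : ∫ u in w..(w + H), g M X H u = 32 + 2 * ∫ u in w..(w + H), ‖P M X u‖ ^ 2 := by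
    unfold g
    rw [intervalIntegral.integral_add intervalIntegrable_const (hPi.const_mul 2),
      intervalIntegral.integral_const, intervalIntegral.integral_const_mul, smul_eq_mul]
    field_simp
    ring
  rw [e2]
  have h1 := hMV w H X (co M) hH0.le hX
  have h2 := sum_co hM hMX hH0.le
  have hq : 1 ≤ H / M := by rw [one_le_div hM0]; exact hMH
  set L := Real.log T with hLd
  have hlX0 : 0 ≤ Real.log X := Real.log_natCast_nonneg X
  have h3 : H / M + (1 + Real.log X) ≤ 4 * L * (H / M) := by nlinarith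
  have h4 : (1 + Real.log X) ^ 2 ≤ 9 * L ^ 2 := by nlinarith
  have h5 : 0 ≤ ∑ n ∈ Finset.Icc 1 X, (H + n) * ‖co M n‖ ^ 2 :=
    Finset.sum_nonneg fun n _ => by positivity
  have h6 : ∫ u in w..(w + H), ‖P M X u‖ ^ 2 ≤ C * (9 * L ^ 2) * (4 * L * (H / M)) := by
    refine (h1 : ∫ u in w..(w + H), ‖P M X u‖ ^ 2 ≤ _).trans ?_
    have h7 : ∑ n ∈ Finset.Icc 1 X, (H + n) * ‖co M n‖ ^ 2 ≤ 4 * L * (H / M) := h2.trans h3
    gcongr
  have h8 : 1 ≤ L ^ 3 := one_le_pow₀ hL
  have h9 : 1 ≤ L ^ 3 * (H / M) := one_le_mul_of_one_le_of_one_le h8 hq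
  have h10 : (32 + 72 * C) * L ^ 3 * (H / M) = 32 * (L ^ 3 * (H / M)) +
      2 * (C * (9 * L ^ 2) * (4 * L * (H / M))) := by ring
  rw [h10]
  linarith

/-- integration over one coordinate, window version -/
lemma fubU {ι : Type} [Fintype ι] {H : ℝ} (hH : 0 ≤ H) (U : ι → ℝ) {p q : ι} (hpq : p ≠ q)
    {G : ℝ → ℝ≥0∞} (hG : Measurable G) {W : ℝ≥0∞}
    (hW : ∀ w : ℝ, ∫⁻ a in Icc (0 : ℝ) H, G (w + a) ≤ W) :
    ∫⁻ γ, G ((U p + γ p) - (U q + γ q)) ∂(mP ι H) ≤
      W * ENNReal.ofReal H ^ (Fintype.card ι - 1) := by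
  classical
  unfold mP
  have hm : Measurable fun γ : ι → ℝ => G ((U p + γ p) - (U q + γ q)) :=
    hG.comp (((measurable_pi_apply p).const_add _).sub ((measurable_pi_apply q).const_add _))
  rw [lintegral_eq_lmarginal_univ (0 : ι → ℝ), lmarginal_erase' _ hm (Finset.mem_univ p)]
  refine (lmarginal_mono (g := fun _ => W) ?_ (0 : ι → ℝ)).trans ?_
  · intro x
    have e1 : ∀ a : ℝ, G ((U p + Function.update x p a p) - (U q + Function.update x p a q)) =
        G ((U p - (U q + x q)) + a) := by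
      intro a
      rw [Function.update_self, Function.update_of_ne hpq.symm]
      congr 1
      ring
    simp only [e1]
    exact hW _
  · unfold lmarginal
    rw [lintegral_const, Measure.pi_univ]
    simp only [Measure.restrict_apply MeasurableSet.univ, univ_inter, Real.volume_Icc, sub_zero,
      Finset.prod_const, Finset.card_univ, Fintype.card_coe]
    rw [Finset.card_erase_of_mem (Finset.mem_univ p), Finset.card_univ]

theorem pZMU (h : S_MVW) : S_ZMU := by
  obtain ⟨C, hC, hMV⟩ := h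
  intro k
  have hBF : 0 ≤ BF k (1 / 8) := by unfold BF; positivity
  set D : ℝ := BF k (1 / 8) ^ 2 * (5 : ℝ) ^ (2 * (k * k)) * (k * k) *
    ((k * k) * (32 + 72 * C)) with hD
  have hD0 : 0 ≤ D := by rw [hD]; positivity
  refine ⟨D + 1, 3, 2 * (k * k) + 3, by linarith, le_rfl, ?_⟩
  intro T H M U hT hH hU hM hMH
  have hT0 : 0 < T := by linarith
  have hH1 : 1 ≤ H := by linarith
  have hH0 : 0 < H := by linarith
  have hL : 1 ≤ Real.log T := by
    rw [Real.le_log_iff_exp_le hT0]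
    have := Real.exp_one_lt_d9
    linarith
  have hM1 : (1 : ℝ) ≤ M := by exact_mod_cast hM
  have hM0 : (0 : ℝ) < M := by linarith
  set r : ℝ := H ^ (1 / 2 : ℝ) with hr
  have hrr : r * r = H := by
    rw [hr, ← Real.rpow_add hH0]
    norm_num
  have hr1 : 1 ≤ r := Real.one_le_rpow hH1 (by norm_num)
  have hrH : r ≤ H := by nlinarith
  set X : ℕ := ⌊T ^ 2⌋₊ with hX
  have hXle : (X : ℝ) ≤ T ^ 2 := Nat.floor_le (by positivity)
  have hXlt : T ^ 2 < (X : ℝ) + 1 := Nat.lt_floor_add_one _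
  have hX1 : T ^ 2 / 2 ≤ (X : ℝ) - 1 := by nlinarith
  have hX0 : (0 : ℝ) < X := by nlinarith
  have hXn : 1 ≤ X := by
    have : 0 < X := by exact_mod_cast hX0
    omega
  have hlogX : Real.log X ≤ 2 * Real.log T := by
    have h := Real.log_le_log hX0 hXle
    rw [Real.log_pow] at h
    push_cast at h
    exact h
  rcases Nat.eq_zero_or_pos k with hk | hk
  · subst hk
    refine le_trans (le_of_eq ?_) zero_le
    refine (lintegral_congr fun γ => ?_).trans lintegral_zero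
    have : GM M (U + γ) 0 = zr (U + γ) := by
      unfold GM zr zab
      simp
    rw [this]
    simp
  have hHT : H ≤ T := by
    have := hU (Sum.inl ⟨0, hk⟩)
    linarith [this.1, this.2]
  have hMT : (M : ℝ) ≤ T := by linarith
  have hMX : M ≤ X := by
    have : (M : ℝ) ≤ X := by nlinarith
    exact_mod_cast this
  set K : ℝ := 5 * Real.log T with hK
  have hK1 : 1 ≤ K := by rw [hK]; linarith
  have hlogM : Real.log M ≤ Real.log T := Real.log_le_log hM0 hMT
  have hzN : ∀ v : ℝ, ‖zN M (1 + I * v)‖ ≤ K := fun v => (zN_le M v).trans (by rw [hK]; linarith)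
  have hz : ∀ v : ℝ, 1 ≤ |v| → |v| ≤ T → ‖riemannZeta (1 + I * v)‖ ≤ K := by
    intro v hv1 hv2
    have h1 := approx hT hX1 hv1 hv2
    have h2 := norm_zN_le X v
    have h3 : 1 / |v| ≤ 1 := by rw [div_le_one (by linarith)]; exact hv1
    have h4 : 3 / T ≤ 1 := by rw [div_le_one hT0]; exact hT
    have h5 : ‖riemannZeta (1 + I * v)‖ ≤
        ‖riemannZeta (1 + I * v) - zN X (1 + I * v)‖ + ‖zN X (1 + I * v)‖ := by
      have := norm_add_le (riemannZeta (1 + I * v) - zN X (1 + I * v)) (zN X (1 + I * v))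
      rwa [sub_add_cancel] at this
    rw [hK]
    linarith
  set A : ℝ := BF k (1 / 8) ^ 2 * K ^ (2 * (k * k)) * (k * k) with hA
  have hA0 : 0 ≤ A := by rw [hA]; positivity
  set G : ℝ → ℝ≥0∞ := fun v => ENNReal.ofReal (g M X H v) with hG
  have hGm : Measurable G := (g_cont M X H).measurable.ennreal_ofReal
  -- the pointwise bound
  have hpt : ∀ γ ∈ SepU k H U, ENNReal.ofReal (‖GM M (U + γ) 0 - zr (U + γ)‖ ^ 2) ≤
      ENNReal.ofReal A * ∑ p : Fin k × Fin k,
        G ((U (Sum.inl p.1) + γ (Sum.inl p.1)) - (U (Sum.inr p.2) + γ (Sum.inr p.2))) := by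
    intro γ hγ
    obtain ⟨hγ1, hγ2⟩ := hγ
    set δ : Fin k ⊕ Fin k → ℝ := U + γ with hδ
    have hδi : ∀ i, δ i = U i + γ i := fun i => rfl
    set v : Fin k × Fin k → ℝ := fun p => δ (Sum.inl p.1) - δ (Sum.inr p.2) with hv
    have hvi : ∀ p : Fin k × Fin k, (U (Sum.inl p.1) + γ (Sum.inl p.1)) -
        (U (Sum.inr p.2) + γ (Sum.inr p.2)) = v p := fun p => rfl
    have hv1 : ∀ p, H ^ (1 / 2 : ℝ) ≤ |v p| := fun p => hγ2 _ _ (by simp)
    have hv2 : ∀ p, |v p| ≤ T := by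
      intro p
      rw [abs_le]
      have a1 := hγ1 (Sum.inl p.1)
      have a2 := hγ1 (Sum.inr p.2)
      have b1 := hU (Sum.inl p.1)
      have b2 := hU (Sum.inr p.2)
      have c1 := hδi (Sum.inl p.1)
      have c2 := hδi (Sum.inr p.2)
      constructor <;> simp only [hv] <;> rw [c1, c2] <;>
        linarith [a1.1, a1.2, a2.1, a2.2, b1.1, b1.2, b2.1, b2.2]
    have e1 : GM M δ 0 = FH (fun j => (δ (Sum.inl j) : ℂ)) (fun j => (δ (Sum.inr j) : ℂ)) *
        ∏ p : Fin k × Fin k, zN M (1 + I * (v p : ℂ)) := by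
      unfold GM
      rw [Fintype.prod_prod_type]
      simp [hv]
    have e2 : zr δ = FH (fun j => (δ (Sum.inl j) : ℂ)) (fun j => (δ (Sum.inr j) : ℂ)) *
        ∏ p : Fin k × Fin k, riemannZeta (1 + I * (v p : ℂ)) := by
      unfold zr zab
      rw [Fintype.prod_prod_type]
      congr 1
      refine Finset.prod_congr rfl fun j _ => Finset.prod_congr rfl fun l _ => ?_
      congr 1
      simp only [hv]
      push_cast
      ring
    have hFH : ‖FH (fun j => (δ (Sum.inl j) : ℂ)) (fun j => (δ (Sum.inr j) : ℂ))‖ ≤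
        BF k (1 / 8) := by
      refine FH_le (by norm_num) fun j => ?_
      simp
    have hz' : ∀ p, ‖riemannZeta (1 + I * (v p : ℂ))‖ ≤ K := fun p =>
      hz (v p) (hr1.trans (hv1 p)) (hv2 p)
    have h2 := prod_sub_le Finset.univ (fun p : Fin k × Fin k => zN M (1 + I * (v p : ℂ)))
      (fun p => riemannZeta (1 + I * (v p : ℂ))) hK1 (fun p _ => hzN (v p)) (fun p _ => hz' p)
    have hcard : (Finset.univ : Finset (Fin k × Fin k)).card = k * k := by simp
    rw [hcard] at h2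
    have h3 : ‖GM M δ 0 - zr δ‖ ≤ BF k (1 / 8) * (K ^ (k * k) *
        ∑ p : Fin k × Fin k, ‖zN M (1 + I * (v p : ℂ)) - riemannZeta (1 + I * (v p : ℂ))‖) := by
      rw [e1, e2, ← mul_sub, norm_mul]
      exact mul_le_mul hFH h2 (norm_nonneg _) hBF
    have h4 : (∑ p : Fin k × Fin k,
        ‖zN M (1 + I * (v p : ℂ)) - riemannZeta (1 + I * (v p : ℂ))‖) ^ 2 ≤
        (k * k) * ∑ p : Fin k × Fin k, hh M (v p) := by
      have := sq_sum_le_card_mul_sum_sq (s := (Finset.univ : Finset (Fin k × Fin k)))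
        (f := fun p => ‖zN M (1 + I * (v p : ℂ)) - riemannZeta (1 + I * (v p : ℂ))‖)
      rw [hcard] at this
      push_cast at this
      refine this.trans (le_of_eq ?_)
      congr 1
      refine Finset.sum_congr rfl fun p _ => ?_
      unfold hh
      rw [norm_sub_rev]
    have h5 : ‖GM M δ 0 - zr δ‖ ^ 2 ≤ A * ∑ p : Fin k × Fin k, hh M (v p) := by
      calc ‖GM M δ 0 - zr δ‖ ^ 2 ≤ (BF k (1 / 8) * (K ^ (k * k) *
            ∑ p : Fin k × Fin k,
              ‖zN M (1 + I * (v p : ℂ)) - riemannZeta (1 + I * (v p : ℂ))‖)) ^ 2 :=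
            pow_le_pow_left₀ (norm_nonneg _) h3 2
        _ = BF k (1 / 8) ^ 2 * K ^ (2 * (k * k)) * (∑ p : Fin k × Fin k,
              ‖zN M (1 + I * (v p : ℂ)) - riemannZeta (1 + I * (v p : ℂ))‖) ^ 2 := by
            rw [mul_comm 2 (k * k), pow_mul]; ring
        _ ≤ BF k (1 / 8) ^ 2 * K ^ (2 * (k * k)) * ((k * k) *
              ∑ p : Fin k × Fin k, hh M (v p)) :=
            mul_le_mul_of_nonneg_left h4 (by positivity)
        _ = _ := by rw [hA]; ring
    calc ENNReal.ofReal (‖GM M δ 0 - zr δ‖ ^ 2)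
        ≤ ENNReal.ofReal (A * ∑ p : Fin k × Fin k, hh M (v p)) := ENNReal.ofReal_le_ofReal h5
      _ = ENNReal.ofReal A * ∑ p : Fin k × Fin k, ENNReal.ofReal (hh M (v p)) := by
          rw [ENNReal.ofReal_mul hA0, ENNReal.ofReal_sum_of_nonneg fun p _ => hh_nonneg M _]
      _ ≤ _ := by
          gcongr with p
          rw [hvi p]
          exact ENNReal.ofReal_le_ofReal (hh_le hT hX1 hMX hH1 hHT (hv1 p) (hv2 p))
  have hmeas : ∀ p : Fin k × Fin k, Measurable fun γ : Fin k ⊕ Fin k → ℝ =>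
      G ((U (Sum.inl p.1) + γ (Sum.inl p.1)) - (U (Sum.inr p.2) + γ (Sum.inr p.2))) := fun p =>
    hGm.comp (((measurable_pi_apply _).const_add _).sub ((measurable_pi_apply _).const_add _))
  have hmeasS : Measurable fun γ : Fin k ⊕ Fin k → ℝ => ENNReal.ofReal A *
      ∑ p : Fin k × Fin k,
        G ((U (Sum.inl p.1) + γ (Sum.inl p.1)) - (U (Sum.inr p.2) + γ (Sum.inr p.2))) :=
    (Finset.measurable_fun_sum _ fun p _ => hmeas p).const_mul _
  have hMH' : (M : ℝ) ≤ H := hMH.trans hrH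
  have hW := g_int hC hMV hL hXn hlogX hM hMX hH1 hMH'
  calc ∫⁻ γ in SepU k H U, ENNReal.ofReal (‖GM M (U + γ) 0 - zr (U + γ)‖ ^ 2)
        ∂(mP (Fin k ⊕ Fin k) H)
      ≤ ∫⁻ γ in SepU k H U, ENNReal.ofReal A *
          ∑ p : Fin k × Fin k,
            G ((U (Sum.inl p.1) + γ (Sum.inl p.1)) - (U (Sum.inr p.2) + γ (Sum.inr p.2)))
            ∂(mP (Fin k ⊕ Fin k) H) := setLIntegral_mono hmeasS hpt
    _ ≤ ∫⁻ γ, ENNReal.ofReal A *
          ∑ p : Fin k × Fin k,
            G ((U (Sum.inl p.1) + γ (Sum.inl p.1)) - (U (Sum.inr p.2) + γ (Sum.inr p.2)))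
            ∂(mP (Fin k ⊕ Fin k) H) := setLIntegral_le_lintegral _ _
    _ = ENNReal.ofReal A * ∑ p : Fin k × Fin k,
          ∫⁻ γ, G ((U (Sum.inl p.1) + γ (Sum.inl p.1)) - (U (Sum.inr p.2) + γ (Sum.inr p.2)))
            ∂(mP (Fin k ⊕ Fin k) H) := by
        rw [lintegral_const_mul _ (Finset.measurable_fun_sum _ fun p _ => hmeas p),
          lintegral_finsetSum _ fun p _ => hmeas p]
    _ ≤ ENNReal.ofReal A * ∑ p : Fin k × Fin k,
          ENNReal.ofReal ((32 + 72 * C) * Real.log T ^ 3 * (H / M) * H ^ (2 * k - 1)) := by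
        gcongr with p
        refine (fubU hH0.le U (by simp) hGm hW).trans ?_
        have e1 : Fintype.card (Fin k ⊕ Fin k) - 1 = 2 * k - 1 := by simp; omega
        rw [e1, ENNReal.ofReal_mul (q := H ^ (2 * k - 1)) (by positivity),
          ENNReal.ofReal_pow hH0.le]
    _ ≤ ENNReal.ofReal ((D + 1) * Real.log T ^ (2 * (k * k) + 3) * H ^ (2 * k) / M) := by
        rw [Finset.sum_const, Finset.card_univ, Fintype.card_prod, Fintype.card_fin,
          nsmul_eq_mul, ← ENNReal.ofReal_natCast, ← ENNReal.ofReal_mul (by positivity),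
          ← ENNReal.ofReal_mul hA0]
        refine ENNReal.ofReal_le_ofReal ?_
        have e2 : H * H ^ (2 * k - 1) = H ^ (2 * k) := by
          rw [← pow_succ']
          congr 1
          omega
        have e3 : A * (((k * k : ℕ) : ℝ) *
            ((32 + 72 * C) * Real.log T ^ 3 * (H / M) * H ^ (2 * k - 1))) =
            D * Real.log T ^ (2 * (k * k) + 3) * H ^ (2 * k) / M := by
          rw [← e2, hA, hD, hK, mul_pow, pow_add]
          push_cast
          ring
        rw [e3]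
        gcongr
        linarith

end

end Pool.Agent.T2H54.SB.ZMU
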