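import Pool.Agent.T2H54.SB.FL2U
import Pool.Agent.TH753.GS.GL2
import Pool.Agent.TH347.GS.A4

set_option autoImplicit false

/-! Part A4U of project SB: the mean square form of CONT, translated box
(adapted from the starting files `Pool.Agent.TH753.GS.GL2` and `Pool.Agent.TH347.GS.A4`). -/

namespace Pool.Agent.T2H54.SB.A4U

open Complex MeasureTheory Set
open Pool.Agent.TH612.GS
open Pool.Agent.T2H54.SB.PkgFL2U
open scoped ENNReal

noncomputable section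

variable {k : ℕ}

section GL2U

open Pool.Agent.TH753.GS

open Classical in
theorem fl2_eeU {m : ℕ} (M : ℕ) (hM : 1 ≤ M) (v T : ℝ) (hT : 0 < T) (j l : Fin k)
    (U : Fin k ⊕ Fin k → ℝ) :
    ∫⁻ γ, ENNReal.ofReal (‖zN M (1 + (-(1 / 4) + I * v) +
        I * ((U + γ) (Sum.inl j) - (U + γ) (Sum.inr l) : ℂ)) ^ m‖ ^ 2) ∂(mP (Fin k ⊕ Fin k) T) ≤
      ENNReal.ofReal (T ^ (2 * k) * ∑ P ∈ Finset.Icc 1 (M ^ m), ‖cc m M v P‖ ^ 2 +
        2 * (M ^ m : ℕ) * T ^ (2 * k - 1) * (∑ P ∈ Finset.Icc 1 (M ^ m), ‖cc m M v P‖) ^ 2) := by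
  have h := fl2U k (M ^ m) T (fun ν => if ν = ee j l (ν (Sum.inl j)) then
    cc m M v (ν (Sum.inl j)) else 0) U (Nat.one_le_pow _ _ hM) hT
  have e1 : ∀ γ : Fin k ⊕ Fin k → ℝ, ∑ ν ∈ tup k (M ^ m), (if ν = ee j l (ν (Sum.inl j)) then
      cc m M v (ν (Sum.inl j)) else 0) * ch ν γ =
      zN M (1 + (-(1 / 4) + I * v) + I * (γ (Sum.inl j) - γ (Sum.inr l))) ^ m := by
    intro γ
    rw [zN_pow_ch, ← sum_ee j l (M ^ m) (fun P ν => cc m M v P * ch ν γ)]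
    refine Finset.sum_congr rfl fun ν _ => ?_
    rw [ite_mul, zero_mul]
  have e2 : ∑ ν ∈ tup k (M ^ m), ‖(if ν = ee j l (ν (Sum.inl j)) then
      cc m M v (ν (Sum.inl j)) else 0)‖ ^ 2 = ∑ P ∈ Finset.Icc 1 (M ^ m), ‖cc m M v P‖ ^ 2 := by
    rw [← sum_ee j l (M ^ m) (fun P _ => ‖cc m M v P‖ ^ 2)]
    refine Finset.sum_congr rfl fun ν _ => ?_
    split_ifs <;> simp
  have e3 : ∑ ν ∈ tup k (M ^ m), ‖(if ν = ee j l (ν (Sum.inl j)) then
      cc m M v (ν (Sum.inl j)) else 0)‖ = ∑ P ∈ Finset.Icc 1 (M ^ m), ‖cc m M v P‖ := by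
    rw [← sum_ee j l (M ^ m) (fun P _ => ‖cc m M v P‖)]
    refine Finset.sum_congr rfl fun ν _ => ?_
    split_ifs <;> simp
  simp only [e1, e2, e3] at h
  exact h

theorem meas_zNU (m M : ℕ) (v : ℝ) (j l : Fin k) (U : Fin k ⊕ Fin k → ℝ) :
    Measurable fun γ : Fin k ⊕ Fin k → ℝ => ENNReal.ofReal (‖zN M (1 + (-(1 / 4) + I * v) +
        I * ((U + γ) (Sum.inl j) - (U + γ) (Sum.inr l) : ℂ)) ^ m‖ ^ 2) := by
  have h := (meas_zN (k := k) m M v j l).comp (measurable_const_add U)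
  exact h

/-- `S_GL2` on a translated box -/
def S_GL2U : Prop := ∀ k : ℕ, ∃ C : ℝ, 0 < C ∧ ∀ (T : ℝ) (M : ℕ) (v : ℝ) (U : Fin k ⊕ Fin k → ℝ),
  1 ≤ M → 2 * (M : ℝ) ^ (3 * k ^ 2) ≤ T → 1 ≤ T →
  ∫⁻ γ, ENNReal.ofReal (‖GM M (U + γ) (-(1 / 4) + I * v)‖ ^ 2) ∂(mP (Fin k ⊕ Fin k) T) ≤
    ENNReal.ofReal (C * T ^ (2 * k))

theorem pGL2U : S_GL2U := by
  intro k
  rcases Nat.eq_zero_or_pos k with hk | hk
  · -- `k = 0`
    subst hk
    refine ⟨Pool.Agent.TH612.CF.BF 0 (1 / 8) ^ 2 + 1, by positivity, ?_⟩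
    intro T M v U _ _ hT
    have hT0 : 0 < T := by linarith
    have h1 : ∀ γ : Fin 0 ⊕ Fin 0 → ℝ, ENNReal.ofReal (‖GM M (U + γ) (-(1 / 4) + I * v)‖ ^ 2) ≤
        ENNReal.ofReal (Pool.Agent.TH612.CF.BF 0 (1 / 8) ^ 2 + 1) := by
      intro γ
      apply ENNReal.ofReal_le_ofReal
      have h2 : ‖GM M (U + γ) (-(1 / 4) + I * v)‖ ≤ Pool.Agent.TH612.CF.BF 0 (1 / 8) := by
        unfold GM
        simp only [Finset.univ_eq_empty, Finset.prod_empty, mul_one]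
        exact Pool.Agent.TH612.CF.FH_le (by norm_num) (fun j => j.elim0)
      have h3 := pow_le_pow_left₀ (norm_nonneg _) h2 2
      linarith
    refine (lintegral_mono h1).trans ?_
    rw [lintegral_const]
    have h4 : (mP (Fin 0 ⊕ Fin 0) T) univ = 1 := by
      unfold mP
      rw [Measure.pi_univ]
      simp
    rw [h4]
    simp
  -- `k ≥ 1`
  have hne : Nonempty (Fin k × Fin k) := ⟨⟨0, hk⟩, ⟨0, hk⟩⟩
  obtain ⟨m, hm⟩ : ∃ m : ℕ, m = k ^ 2 := ⟨_, rfl⟩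
  have hcard : Fintype.card (Fin k × Fin k) = m := by
    rw [Fintype.card_prod, Fintype.card_fin, hm, sq]
  have hm1 : 1 ≤ m := by rw [hm]; exact Nat.one_le_pow _ _ hk
  obtain ⟨C0, hC0, hC⟩ := cc_sq hm1
  refine ⟨Pool.Agent.TH612.CF.BF k (1 / 8) ^ 2 * (m * (C0 + 1)) + 1, by positivity, ?_⟩
  intro T M v U hM hMT hT
  have hT0 : 0 < T := by linarith
  have hpt : ∀ γ : Fin k ⊕ Fin k → ℝ, ENNReal.ofReal (‖GM M (U + γ) (-(1 / 4) + I * v)‖ ^ 2) ≤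
      ENNReal.ofReal (Pool.Agent.TH612.CF.BF k (1 / 8) ^ 2) * ∑ p : Fin k × Fin k,
        ENNReal.ofReal (‖zN M (1 + (-(1 / 4) + I * v) +
        I * ((U + γ) (Sum.inl p.1) - (U + γ) (Sum.inr p.2) : ℂ)) ^ m‖ ^ 2) := by
    intro γ
    rw [← ENNReal.ofReal_sum_of_nonneg (fun p _ => by positivity),
      ← ENNReal.ofReal_mul (by positivity)]
    apply ENNReal.ofReal_le_ofReal
    unfold GM
    rw [norm_mul, mul_pow]
    have h1 : ‖Pool.Agent.TH612.CF.FH (fun j => ((U + γ) (Sum.inl j) : ℂ) - I * (-(1 / 4) + I * v) / 2)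
        (fun j => ((U + γ) (Sum.inr j) : ℂ) + I * (-(1 / 4) + I * v) / 2)‖ ≤
        Pool.Agent.TH612.CF.BF k (1 / 8) := by
      refine Pool.Agent.TH612.CF.FH_le (by norm_num) (fun j => ?_)
      constructor
      · have : ((((U + γ) (Sum.inl j) : ℝ) : ℂ) - I * (-(1 / 4) + I * v) / 2).im = 1 / 8 := by
          simp
          norm_num
        rw [this]
        norm_num
      · have : ((((U + γ) (Sum.inr j) : ℝ) : ℂ) + I * (-(1 / 4) + I * v) / 2).im = -(1 / 8) := by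
          simp
          norm_num
        rw [this]
        norm_num
    have h2 : ‖∏ j : Fin k, ∏ l : Fin k, zN M (1 + (-(1 / 4) + I * v) +
        I * ((U + γ) (Sum.inl j) - (U + γ) (Sum.inr l) : ℂ))‖ ^ 2 ≤ ∑ p : Fin k × Fin k,
        ‖zN M (1 + (-(1 / 4) + I * v) + I * ((U + γ) (Sum.inl p.1) - (U + γ) (Sum.inr p.2) : ℂ)) ^ m‖ ^ 2 := by
      have h3 := prod_le_sum_pow (fun p : Fin k × Fin k =>
        ‖zN M (1 + (-(1 / 4) + I * v) + I * ((U + γ) (Sum.inl p.1) - (U + γ) (Sum.inr p.2) : ℂ))‖ ^ 2)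
        (fun p => by positivity)
      rw [hcard] at h3
      have e1 : ‖∏ j : Fin k, ∏ l : Fin k, zN M (1 + (-(1 / 4) + I * v) +
        I * ((U + γ) (Sum.inl j) - (U + γ) (Sum.inr l) : ℂ))‖ ^ 2 = ∏ p : Fin k × Fin k,
        ‖zN M (1 + (-(1 / 4) + I * v) + I * ((U + γ) (Sum.inl p.1) - (U + γ) (Sum.inr p.2) : ℂ))‖ ^ 2 := by
        rw [Finset.prod_pow, ← norm_prod, Fintype.prod_prod_type]
      rw [e1]
      refine h3.trans (le_of_eq (Finset.sum_congr rfl fun p _ => ?_))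
      rw [norm_pow, ← pow_mul, ← pow_mul, Nat.mul_comm]
    exact mul_le_mul (pow_le_pow_left₀ (norm_nonneg _) h1 2) h2 (by positivity) (by positivity)
  refine (lintegral_mono hpt).trans ?_
  rw [lintegral_const_mul _ (Finset.measurable_sum _ fun p _ => meas_zNU m M v p.1 p.2 U),
    lintegral_finsetSum _ fun p _ => meas_zNU m M v p.1 p.2 U]
  have hb : ∀ p : Fin k × Fin k, ∫⁻ γ, ENNReal.ofReal (‖zN M (1 + (-(1 / 4) + I * v) +
        I * ((U + γ) (Sum.inl p.1) - (U + γ) (Sum.inr p.2) : ℂ)) ^ m‖ ^ 2) ∂(mP (Fin k ⊕ Fin k) T) ≤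
      ENNReal.ofReal ((C0 + 1) * T ^ (2 * k)) := by
    intro p
    refine (fl2_eeU M hM v T hT0 p.1 p.2 U).trans (ENNReal.ofReal_le_ofReal ?_)
    have h1 := hC M (M ^ m) v
    have h2 := cc_sum m M v
    have h3 : (∑ P ∈ Finset.Icc 1 (M ^ m), ‖cc m M v P‖) ^ 2 ≤ ((M : ℝ) ^ m) ^ 2 :=
      pow_le_pow_left₀ (Finset.sum_nonneg fun _ _ => norm_nonneg _) h2 2
    have h4 : T ^ (2 * k) * ∑ P ∈ Finset.Icc 1 (M ^ m), ‖cc m M v P‖ ^ 2 ≤ T ^ (2 * k) * C0 :=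
      mul_le_mul_of_nonneg_left h1 (by positivity)
    have h5 : 2 * (M ^ m : ℕ) * T ^ (2 * k - 1) * (∑ P ∈ Finset.Icc 1 (M ^ m),
        ‖cc m M v P‖) ^ 2 ≤ T ^ (2 * k) := by
      have h6 : 2 * ((M ^ m : ℕ) : ℝ) * T ^ (2 * k - 1) * (∑ P ∈ Finset.Icc 1 (M ^ m),
          ‖cc m M v P‖) ^ 2 ≤ 2 * ((M ^ m : ℕ) : ℝ) * T ^ (2 * k - 1) * ((M : ℝ) ^ m) ^ 2 :=
        mul_le_mul_of_nonneg_left h3 (by positivity)
      refine h6.trans ?_
      have h7 : 2 * ((M ^ m : ℕ) : ℝ) * T ^ (2 * k - 1) * ((M : ℝ) ^ m) ^ 2 =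
          (2 * (M : ℝ) ^ (3 * k ^ 2)) * T ^ (2 * k - 1) := by
        rw [← hm]
        push_cast
        ring
      rw [h7]
      have h8 : T ^ (2 * k) = T * T ^ (2 * k - 1) := by
        rw [← pow_succ']
        congr 1
        omega
      rw [h8]
      exact mul_le_mul_of_nonneg_right hMT (by positivity)
    linarith
  refine (mul_le_mul_right (Finset.sum_le_sum fun p _ => hb p) _).trans ?_
  rw [Finset.sum_const, Finset.card_univ, hcard, nsmul_eq_mul, ← ENNReal.ofReal_natCast,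
    ← ENNReal.ofReal_mul (by positivity), ← ENNReal.ofReal_mul (by positivity)]
  apply ENNReal.ofReal_le_ofReal
  have : 0 ≤ T ^ (2 * k) := by positivity
  nlinarith


end GL2U

open Pool.Agent.TH612.CF Pool.Agent.TH347.GS

theorem pA4U (hC : S_CONT) : S_A4U := by
  have hG := pGL2U
  intro k ψ hψ
  obtain ⟨C, M₀, hC0, hM₀, hC⟩ := hC k ψ hψ
  obtain ⟨C', hC'0, hG⟩ := hG k
  obtain ⟨W, hW⟩ : ∃ W : ℝ≥0∞, W = ∫⁻ y : ℝ, ENNReal.ofReal (wy y) := ⟨_, rfl⟩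
  have hWt : W ≠ ⊤ := by
    rw [hW]
    exact wy_int
  refine ⟨2 * C ^ 2 * (1 + W.toReal ^ 2 * C'), M₀, by positivity, hM₀, ?_⟩
  intro T M U hM hT hMT
  have hM1 : 1 ≤ M := by omega
  have hMp : (0 : ℝ) < M := by exact_mod_cast hM1
  have hT0 : (0 : ℝ) ≤ T := by linarith
  have key : ∀ γ : Fin k ⊕ Fin k → ℝ, ENNReal.ofReal (‖SP ψ M (U + γ) - GM M (U + γ) 0‖ ^ 2) ≤
      ENNReal.ofReal (2 * C ^ 2 * (M : ℝ) ^ (-(1 / 8) : ℝ)) *
        (1 + W * ∫⁻ y : ℝ, ENNReal.ofReal (wy y) * ENNReal.ofReal (‖Gy M (U + γ) y‖ ^ 2)) := by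
    intro γ
    have h1 := hC M (U + γ) hM
    have h1' : ‖SP ψ M (U + γ) - GM M (U + γ) 0‖ ≤ C * (M : ℝ) ^ (-(1 / 16) : ℝ) *
        (1 + ∫ y : ℝ, wy y * ‖Gy M (U + γ) y‖) := h1
    obtain ⟨J, hJ⟩ : ∃ J : ℝ, J = ∫ y : ℝ, wy y * ‖Gy M (U + γ) y‖ := ⟨_, rfl⟩
    rw [← hJ] at h1'
    have hJ0 : 0 ≤ J := by
      rw [hJ]
      exact integral_nonneg fun y => mul_nonneg (wy_nonneg y) (norm_nonneg _)
    have h2 : ‖SP ψ M (U + γ) - GM M (U + γ) 0‖ ^ 2 ≤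
        2 * C ^ 2 * (M : ℝ) ^ (-(1 / 8) : ℝ) * (1 + J ^ 2) := by
      have h3 := pow_le_pow_left₀ (norm_nonneg _) h1' 2
      have h4 : ((M : ℝ) ^ (-(1 / 16) : ℝ)) ^ 2 = (M : ℝ) ^ (-(1 / 8) : ℝ) := by
        rw [← Real.rpow_natCast, ← Real.rpow_mul hMp.le]
        norm_num
      have h6 : 0 ≤ C ^ 2 * (M : ℝ) ^ (-(1 / 8) : ℝ) := by positivity
      calc ‖SP ψ M (U + γ) - GM M (U + γ) 0‖ ^ 2 ≤ (C * (M : ℝ) ^ (-(1 / 16) : ℝ) * (1 + J)) ^ 2 := h3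
        _ = C ^ 2 * ((M : ℝ) ^ (-(1 / 16) : ℝ)) ^ 2 * (1 + J) ^ 2 := by ring
        _ = C ^ 2 * (M : ℝ) ^ (-(1 / 8) : ℝ) * (1 + J) ^ 2 := by rw [h4]
        _ ≤ C ^ 2 * (M : ℝ) ^ (-(1 / 8) : ℝ) * (2 * (1 + J ^ 2)) := by
            apply mul_le_mul_of_nonneg_left _ h6
            nlinarith [sq_nonneg (1 - J)]
        _ = _ := by ring
    have hmeas : Measurable fun y : ℝ => ‖Gy M (U + γ) y‖ :=
      ((Gy_cont M).comp (Continuous.prodMk_right (U + γ))).norm.measurable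
    have h5 := cs (fun y => ‖Gy M (U + γ) y‖) hmeas (fun y => norm_nonneg _)
    rw [← hJ, ← hW] at h5
    calc ENNReal.ofReal (‖SP ψ M (U + γ) - GM M (U + γ) 0‖ ^ 2) ≤
        ENNReal.ofReal (2 * C ^ 2 * (M : ℝ) ^ (-(1 / 8) : ℝ) * (1 + J ^ 2)) :=
          ENNReal.ofReal_le_ofReal h2
      _ = ENNReal.ofReal (2 * C ^ 2 * (M : ℝ) ^ (-(1 / 8) : ℝ)) * ENNReal.ofReal (1 + J ^ 2) :=
          ENNReal.ofReal_mul (by positivity)
      _ ≤ _ := by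
          refine mul_le_mul' le_rfl ?_
          rw [ENNReal.ofReal_add zero_le_one (sq_nonneg J), ENNReal.ofReal_one]
          exact add_le_add le_rfl h5
  have hF : ∫⁻ γ, (∫⁻ y : ℝ, ENNReal.ofReal (wy y) * ENNReal.ofReal (‖Gy M (U + γ) y‖ ^ 2))
      ∂(mP (Fin k ⊕ Fin k) T) ≤ W * ENNReal.ofReal (C' * T ^ (2 * k)) := by
    rw [lintegral_lintegral_swap]
    · calc ∫⁻ y : ℝ, ∫⁻ γ, ENNReal.ofReal (wy y) * ENNReal.ofReal (‖Gy M (U + γ) y‖ ^ 2)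
            ∂(mP (Fin k ⊕ Fin k) T)
          ≤ ∫⁻ y, ENNReal.ofReal (wy y) * ENNReal.ofReal (C' * T ^ (2 * k)) := by
            refine lintegral_mono fun y => ?_
            rw [lintegral_const_mul' _ _ ENNReal.ofReal_ne_top]
            refine mul_le_mul' le_rfl ?_
            have h7 := hG T M (y / (Real.log M / 2)) U hM1 hMT hT
            refine le_trans (le_of_eq ?_) h7
            refine lintegral_congr fun γ => ?_
            unfold Gy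
            push_cast
            rfl
        _ = W * ENNReal.ofReal (C' * T ^ (2 * k)) := by
            rw [lintegral_mul_const' _ _ ENNReal.ofReal_ne_top, ← hW]
    · refine Measurable.aemeasurable ?_
      exact ((wy_cont.comp continuous_snd).measurable.ennreal_ofReal).mul
        ((((Gy_cont M).comp ((continuous_const.add continuous_fst).prodMk continuous_snd)).norm.pow
          2).measurable.ennreal_ofReal)
  calc ∫⁻ γ, ENNReal.ofReal (‖SP ψ M (U + γ) - GM M (U + γ) 0‖ ^ 2) ∂(mP (Fin k ⊕ Fin k) T) ≤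
      ∫⁻ γ, ENNReal.ofReal (2 * C ^ 2 * (M : ℝ) ^ (-(1 / 8) : ℝ)) *
        (1 + W * ∫⁻ y : ℝ, ENNReal.ofReal (wy y) * ENNReal.ofReal (‖Gy M (U + γ) y‖ ^ 2))
          ∂(mP (Fin k ⊕ Fin k) T) := lintegral_mono key
    _ = ENNReal.ofReal (2 * C ^ 2 * (M : ℝ) ^ (-(1 / 8) : ℝ)) *
        (mP (Fin k ⊕ Fin k) T univ + W * ∫⁻ γ, (∫⁻ y : ℝ, ENNReal.ofReal (wy y) *
          ENNReal.ofReal (‖Gy M (U + γ) y‖ ^ 2)) ∂(mP (Fin k ⊕ Fin k) T)) := by
        rw [lintegral_const_mul' _ _ ENNReal.ofReal_ne_top, lintegral_add_left measurable_const,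
          lintegral_const_mul' _ _ hWt, lintegral_const, one_mul]
    _ ≤ ENNReal.ofReal (2 * C ^ 2 * (M : ℝ) ^ (-(1 / 8) : ℝ)) *
        (ENNReal.ofReal (T ^ (2 * k)) + W * (W * ENNReal.ofReal (C' * T ^ (2 * k)))) := by
        rw [mP_univ k hT0]
        exact mul_le_mul' le_rfl (add_le_add le_rfl (mul_le_mul' le_rfl hF))
    _ = ENNReal.ofReal (2 * C ^ 2 * (1 + W.toReal ^ 2 * C') * T ^ (2 * k) *
        (M : ℝ) ^ (-(1 / 8) : ℝ)) := by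
        have hw0 : (0 : ℝ) ≤ W.toReal := ENNReal.toReal_nonneg
        rw [← ENNReal.ofReal_toReal hWt, ← ENNReal.ofReal_mul hw0, ← ENNReal.ofReal_mul hw0,
          ← ENNReal.ofReal_add (by positivity) (by positivity),
          ← ENNReal.ofReal_mul (by positivity), ENNReal.toReal_ofReal hw0]
        congr 1
        ring


end

end Pool.Agent.T2H54.SB.A4U
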