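import Pool.Agent.T2H54.SB.FL2U
import Pool.Agent.TH367.GS.SS

set_option autoImplicit false

/-! Part SSU of project SB: from the sharp to the smooth diagonal sum, translated box
(adapted from the starting file `Pool.Agent.TH367.GS.SS`). -/

namespace Pool.Agent.T2H54.SB.SSU

open Complex Filter Topology MeasureTheory Set
open Pool.Agent.TH612.CF
open Pool.Agent.TH612.GS
open Pool.Agent.TH367.GS
open Pool.Agent.T2H54.SB.PkgFL2U

noncomputable section

variable {k : ℕ}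

theorem pSSU : S_SSU := by
  intro k ψ hψ
  obtain ⟨K, hK0, hK⟩ := diag_bound k
  refine ⟨K + 1, by positivity, fun T N U hN hT => ?_⟩
  have hN0 : (0:ℝ) < N := by positivity
  have hN1 : (1:ℝ) ≤ N := by exact_mod_cast (by omega : 1 ≤ N)
  have hT0 : 0 < T := lt_of_lt_of_le (by positivity) hT
  have h1 := fl2U k N T (cc ψ N) U (by omega) hT0
  simp_rw [diff_eq hψ hN]
  refine h1.trans (ENNReal.ofReal_le_ofReal ?_)
  have hS2 : ∑ ν ∈ tup k N, ‖cc ψ N ν‖ ^ 2 ≤ (N : ℝ) ^ (-(1 / 8) : ℝ) * K := by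
    refine le_trans ?_ (mul_le_mul_of_nonneg_left (hK N) (by positivity))
    rw [Finset.mul_sum]
    unfold dgn
    rw [Finset.sum_filter]
    refine Finset.sum_le_sum fun ν hν => ?_
    split_ifs with h
    · exact cc_sq hψ hN hν h
    · unfold cc
      rw [if_neg h]
      simp
  have hS1 : 2 * (N : ℝ) * T ^ (2 * k - 1) * (∑ ν ∈ tup k N, ‖cc ψ N ν‖) ^ 2 ≤
      T ^ (2 * k) * (N : ℝ) ^ (-(1 / 8) : ℝ) := by
    rcases Nat.eq_zero_or_pos k with hk | hk
    · subst hk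
      have h0 : ∑ ν ∈ tup 0 N, ‖cc ψ N ν‖ = 0 := by
        refine Finset.sum_eq_zero fun ν _ => ?_
        have hp : pl ν = 1 := by unfold pl; simp
        have hr : pr ν = 1 := by unfold pr; simp
        have hq : qq ψ N 1 = 1 := by
          unfold qq
          apply hψ.2.2.1
          simp
        unfold cc
        rw [hp, hr, if_pos rfl, hq]
        simp
      rw [h0]
      simp only [ne_eq, OfNat.ofNat_ne_zero, not_false_eq_true, zero_pow, mul_zero]
      positivity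
    · have h2 : ∑ ν ∈ tup k N, ‖cc ψ N ν‖ ≤ (N : ℝ) ^ (2 * k) := by
        refine (Finset.sum_le_sum fun ν hν => cc_le_one hψ hν).trans ?_
        rw [Finset.sum_const, tup_card]
        simp
      have h3 : (∑ ν ∈ tup k N, ‖cc ψ N ν‖) ^ 2 ≤ (N : ℝ) ^ (4 * k) := by
        refine (pow_le_pow_left₀ (Finset.sum_nonneg fun _ _ => norm_nonneg _) h2 2).trans ?_
        rw [← pow_mul]
        apply le_of_eq
        congr 1
        ring
      have h4 : (N : ℝ) ^ (-(1 : ℝ)) ≤ (N : ℝ) ^ (-(1 / 8) : ℝ) :=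
        Real.rpow_le_rpow_of_exponent_le hN1 (by norm_num)
      have h5 : T ^ (2 * k) = T ^ (2 * k - 1) * T := by
        rw [← pow_succ]
        congr 1
        omega
      calc 2 * (N : ℝ) * T ^ (2 * k - 1) * (∑ ν ∈ tup k N, ‖cc ψ N ν‖) ^ 2
          ≤ 2 * (N : ℝ) * T ^ (2 * k - 1) * (N : ℝ) ^ (4 * k) := by gcongr
        _ = T ^ (2 * k - 1) * (2 * (N : ℝ) ^ (4 * k + 2)) * (N : ℝ) ^ (-(1 : ℝ)) := by
            rw [Real.rpow_neg_one, pow_add, pow_two]
            field_simp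
        _ ≤ T ^ (2 * k - 1) * T * (N : ℝ) ^ (-(1 / 8) : ℝ) := by gcongr
        _ = _ := by rw [← h5]
  calc T ^ (2 * k) * ∑ ν ∈ tup k N, ‖cc ψ N ν‖ ^ 2 +
      2 * N * T ^ (2 * k - 1) * (∑ ν ∈ tup k N, ‖cc ψ N ν‖) ^ 2
      ≤ T ^ (2 * k) * ((N : ℝ) ^ (-(1 / 8) : ℝ) * K) + T ^ (2 * k) * (N : ℝ) ^ (-(1 / 8) : ℝ) := by
        gcongr
    _ = _ := by ring

end

end Pool.Agent.T2H54.SB.SSU
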