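import Pool.Agent.T2H54.SB.AsmA

set_option autoImplicit false

/-! Project SB: translation of `t` and of all the shifts. -/

namespace Pool.Agent.T2H54.SB

open Complex Filter Topology MeasureTheory Set
open Pool.Agent.TH612.CF Pool.Agent.TH612.GS
open Pool.Agent.W182.KO hiding ee SS_summable DD

noncomputable section

variable {k : ℕ}

lemma lt_trans' (a b : Fin k → ℂ) (A : ℝ) {p : ℕ} (hp : p ≠ 0) (m : ℕ) :
    lt (fun j => (A : ℂ) + a j) (fun j => (A : ℂ) + b j) p m = lt a b p m := by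
  unfold lt
  have e1 : (fun j => I * ((A : ℂ) + b j)) = fun j => I * b j + I * A := by
    funext j; ring
  have e2 : (fun j => -(I * ((A : ℂ) + a j))) = fun j => -(I * a j) + -(I * A) := by
    funext j; ring
  rw [e1, e2, tau_shift, tau_shift]
  have hn0 : ((p ^ m : ℕ) : ℂ) ≠ 0 := by exact_mod_cast pow_ne_zero m hp
  have e3 : ((p ^ m : ℕ) : ℂ) ^ (I * (A:ℂ)) * ((p ^ m : ℕ) : ℂ) ^ (-(I * (A:ℂ))) = 1 := by
    rw [← Complex.cpow_add _ _ hn0, add_neg_cancel, Complex.cpow_zero]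
  linear_combination (tau (fun j => I * b j) (p ^ m) * tau (fun j => -(I * a j)) (p ^ m) *
    ((p : ℂ) ^ m)⁻¹) * e3

lemma zab_trans (a b : Fin k → ℂ) (A : ℝ) :
    zab (fun j => (A : ℂ) + a j) (fun j => (A : ℂ) + b j) = zab a b := by
  unfold zab FH
  congr 1
  · refine tprod_congr fun p => ?_
    unfold lh
    congr 1
    · refine Finset.prod_congr rfl fun j _ => Finset.prod_congr rfl fun l _ => ?_
      congr 2
      ring
    · exact tsum_congr fun m => lt_trans' a b A p.2.ne_zero m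
  · refine Finset.prod_congr rfl fun j _ => Finset.prod_congr rfl fun l _ => ?_
    congr 1
    ring

/-- the constant vector -/
def cA (k : ℕ) (A : ℝ) : Fin k ⊕ Fin k → ℝ := fun _ => A

lemma GG_trans (A t : ℝ) (γ : Fin k ⊕ Fin k → ℝ) (π : Equiv.Perm (Fin k ⊕ Fin k)) :
    GG (A + t) (fun i => (γ i : ℂ)) π = GG t (fun i => (((cA k A + γ) i : ℝ) : ℂ)) π := by
  unfold GG
  congr 1
  · refine Finset.prod_congr rfl fun j _ => ?_
    split_ifs
    · congr 1
      simp only [cA, Pi.add_apply]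
      push_cast
      ring
    · rfl
  · refine Finset.prod_congr rfl fun j _ => ?_
    split_ifs
    · congr 1
      simp only [cA, Pi.add_apply]
      push_cast
      ring
    · rfl

lemma Qs_trans (A t : ℝ) (γ : Fin k ⊕ Fin k → ℝ) :
    Qs (A + t) (fun i => (γ i : ℂ)) = Qs t (fun i => (((cA k A + γ) i : ℝ) : ℂ)) := by
  rw [Qs_zp, Qs_zp]
  refine Finset.sum_congr rfl fun π _ => ?_
  rw [GG_trans]
  congr 1
  unfold zp
  rw [← zab_trans (fun j => (γ (π (Sum.inl j)) : ℂ)) (fun j => (γ (π (Sum.inr j)) : ℂ)) A]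
  congr 1
  · funext j
    simp only [cA, Pi.add_apply]
    push_cast
    rfl
  · funext j
    simp only [cA, Pi.add_apply]
    push_cast
    rfl

lemma Zg_trans (A t : ℝ) (γ : Fin k ⊕ Fin k → ℝ) : Zg γ (A + t) = Zg (cA k A + γ) t := by
  rw [Zg_fz, Zg_fz]
  refine Finset.prod_congr rfl fun j _ => ?_
  simp only [cA, Pi.add_apply]
  have e : ∀ x : ℝ, A + t + x = t + (A + x) := fun x => by ring
  rw [e, e]

/-- translation of the integral -/
lemma DD_trans (A S : ℝ) (γ : Fin k ⊕ Fin k → ℝ) :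
    ∫ t in A..(A + S), (Zg γ t - ((Nat.factorial k : ℂ) ^ 2)⁻¹ * Qs t (fun i => (γ i : ℂ))) =
      DD S (cA k A + γ) := by
  have h := intervalIntegral.integral_comp_add_left (a := 0) (b := S)
    (fun t : ℝ => Zg γ t - ((Nat.factorial k : ℂ) ^ 2)⁻¹ * Qs t (fun i => (γ i : ℂ))) A
  rw [add_zero] at h
  rw [← h]
  unfold DD
  refine intervalIntegral.integral_congr fun t _ => ?_
  beta_reduce
  rw [Zg_trans]
  congr 2
  have := Qs_trans A t γ
  push_cast at this ⊢
  exact this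

/-- the exceptional set, `t` in a short interval starting at `A`, box with corner `U` -/
lemma vol_box {H L lam A : ℝ} (U : Fin k ⊕ Fin k → ℝ) :
    volume {γ : Fin k ⊕ Fin k → ℝ | (∀ i, U i ≤ γ i ∧ γ i ≤ U i + H) ∧
      ∃ S : ℝ, 0 ≤ S ∧ S ≤ L ∧ lam < ‖∫ t in A..(A + S), (Zg γ t -
        ((Nat.factorial k : ℂ) ^ 2)⁻¹ * Qs t (fun i => (γ i : ℂ)))‖} =
    mP (Fin k ⊕ Fin k) H (BadU k H L lam (cA k A + U)) := by
  rw [← vol_cube (T := H) (E := BadU k H L lam (cA k A + U)) fun γ hγ => hγ.1]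
  rw [← measure_preimage_add volume (-U) (BadU k H L lam (cA k A + U))]
  congr 1
  ext γ
  simp only [BadU, mem_ofPred_eq, mem_preimage, DD_trans]
  have e : cA k A + U + (-U + γ) = cA k A + γ := by
    funext i
    simp only [Pi.add_apply, Pi.neg_apply]
    ring
  rw [e]
  have e2 : (∀ i, U i ≤ γ i ∧ γ i ≤ U i + H) ↔ ∀ i, 0 ≤ (-U + γ) i ∧ (-U + γ) i ≤ H := by
    refine forall_congr' fun i => ?_
    simp only [Pi.add_apply, Pi.neg_apply]
    constructor
    · rintro ⟨h1, h2⟩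
      exact ⟨by linarith, by linarith⟩
    · rintro ⟨h1, h2⟩
      exact ⟨by linarith, by linarith⟩
  rw [e2]

end

end Pool.Agent.T2H54.SB
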