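import Pool.Agent.T2H54.SB.AsmC
import Pool.Agent.T2H54.SB.Tr
import Pool.Agent.T2H54.SB.SSU
import Pool.Agent.T2H54.SB.A4U
import Pool.Agent.T2H54.SB.ZMU
import Pool.Agent.T2H54.SB.NSU
import Pool.Agent.TH612.GS.All

set_option autoImplicit false

/-! Project SB: all parts together, for any exponent `κ` of the mean square over short intervals. -/

namespace Pool.Agent.T2H54.SB

open MeasureTheory Pool.Agent.TH612.GS

theorem allL {κ : ℝ} (hκ : 1 / 3 ≤ κ) (hκ1 : κ ≤ 1) (hSH : S_SH κ) (k : ℕ) (hk : 1 ≤ k)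
    {c : ℝ} (hc : 0 < c) :
    ∃ η δ : ℝ, 0 < η ∧ 0 < δ ∧ ∃ T₀ : ℝ, ∀ (T H L : ℝ) (U : Fin k ⊕ Fin k → ℝ), T₀ ≤ T →
      T ^ (κ - η) ≤ H → H ≤ T → L ≤ T → T ^ (1 + c) ≤ L * H → (∀ i, 0 ≤ U i ∧ U i + H ≤ T) →
      mP (Fin k ⊕ Fin k) H (BadU k H L (L * T ^ (-δ)) U) ≤
        ENNReal.ofReal (H ^ (2 * k) * T ^ (-δ)) := by
  have hMV := Pool.Agent.TH928.GS.t_MV
  have hD := Pool.Agent.TH509.GS.t_DIAG
  have hC := Pool.Agent.TH757.GS.t_CONT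
  have hONE := Pool.Agent.TH811.GS.t_ONE hMV
  exact mainL hκ hκ1 hSH SSU.pSSU (A4U.pA4U hC) (ZMU.pZMU pMVW) NSU.pNSU hONE hD t_INV k hk hc

end Pool.Agent.T2H54.SB
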