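import Pool.Agent.T2H54.SB.ZL
import Pool.Agent.TH612.GS.Asm6

set_option autoImplicit false

/-! Assembly of project SB, first part: the decomposition. -/

namespace Pool.Agent.T2H54.SB

open Complex Filter Topology MeasureTheory Set
open Pool.Agent.TH612.CF Pool.Agent.TH612.GS
open Pool.Agent.W182.KO hiding ee SS_summable DD
open scoped ContDiff

noncomputable section

variable {k : ℕ}

/-- the differences are between `1` and `T` -/
def SD (T : ℝ) (γ : Fin k ⊕ Fin k → ℝ) : Prop :=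
  ∀ p q, p ≠ q → 1 ≤ |γ p - γ q| ∧ |γ p - γ q| ≤ T

lemma zp_bd' {C T : ℝ} (hT : 3 ≤ T) (_hC : 0 < C)
    (h1 : ∀ v : ℝ, 1 ≤ |v| → |v| ≤ T → ‖riemannZeta (1 + I * v)‖ ≤ C * Real.log T)
    {γ : Fin k ⊕ Fin k → ℝ} (hγ : SD T γ) (π : Equiv.Perm (Fin k ⊕ Fin k)) :
    ‖zp γ π‖ ≤ ZB k C T := by
  have hlog : 0 ≤ Real.log T := Real.log_nonneg (by linarith)
  unfold zp zab ZB
  rw [norm_mul, norm_prod]
  refine mul_le_mul ?_ ?_ (by positivity) ((norm_nonneg _).trans (FH_le (a := fun _ => (0:ℂ))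
    (b := fun _ => (0:ℂ)) (by norm_num) (fun j => by simp)))
  · refine FH_le (by norm_num) fun j => ?_
    rw [Complex.ofReal_im, Complex.ofReal_im, abs_zero]
    norm_num
  · have h2 : ∀ j l : Fin k, ‖riemannZeta (1 + I * (γ (π (Sum.inl j)) : ℂ) -
        I * (γ (π (Sum.inr l)) : ℂ))‖ ≤ C * Real.log T := by
      intro j l
      have hne : π (Sum.inl j) ≠ π (Sum.inr l) := fun h => by
        have := π.injective h
        simp at this
      have hs := hγ _ _ hne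
      have e : (1 + I * (γ (π (Sum.inl j)) : ℂ) - I * (γ (π (Sum.inr l)) : ℂ) : ℂ) =
          1 + I * ((γ (π (Sum.inl j)) - γ (π (Sum.inr l)) : ℝ) : ℂ) := by push_cast; ring
      rw [e]
      exact h1 _ hs.1 hs.2
    calc ∏ j, ‖∏ l, riemannZeta (1 + I * (γ (π (Sum.inl j)) : ℂ) - I * (γ (π (Sum.inr l)) : ℂ))‖
        ≤ ∏ _j : Fin k, (C * Real.log T) ^ k := by
          refine Finset.prod_le_prod (fun _ _ => norm_nonneg _) fun j _ => ?_
          rw [norm_prod]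
          refine (Finset.prod_le_prod (fun _ _ => norm_nonneg _) fun l _ => h2 j l).trans ?_
          simp
      _ = (C * Real.log T) ^ (k ^ 2) := by
          rw [Finset.prod_const, Finset.card_univ, Fintype.card_fin, ← pow_mul]
          congr 1; ring

lemma DD_le' (hINV : S_INV) (hD : S_DIAG) (ψ : ℝ → ℝ) {N : ℕ} (hN : 1 ≤ N) {S L T C : ℝ} (hS : 0 ≤ S)
    (hSL : S ≤ L) (hT : 3 ≤ T) (hC : 0 < C)
    (h1 : ∀ v : ℝ, 1 ≤ |v| → |v| ≤ T → ‖riemannZeta (1 + I * v)‖ ≤ C * Real.log T)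
    {γ : Fin k ⊕ Fin k → ℝ} (hγ : SD T γ) :
    ‖DD S γ‖ ≤ ‖A1 N S γ‖ + 2 * (N : ℝ) ^ (3 * k) + L * ‖SN N γ - SP ψ N γ‖ +
      L * ‖SP ψ N γ - GM N γ 0‖ + L * ‖GM N γ 0 - zr γ‖ +
      ZB k C T * ∑ π ∈ (Pk k)ᶜ, ‖IG S γ π‖ := by
  rw [DD_eq hINV]
  set I2 : ℂ := ∫ t in (0:ℝ)..S, ∏ j : Fin k, PN N (t + γ (Sum.inl j)) *
      (starRingEnd ℂ) (PN N (t + γ (Sum.inr j))) with hI2
  have e1 : (∫ t in (0:ℝ)..S, Zg γ t) = A1 N S γ + I2 := by
    unfold A1
    simp only [Zg_fz]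
    ring
  have e2 : (∫ t in (0:ℝ)..S, Zg γ t) - S * zr γ -
      ((Nat.factorial k : ℂ) ^ 2)⁻¹ * ∑ π ∈ (Pk k)ᶜ, IG S γ π * zp γ π =
      A1 N S γ + (I2 - S * SN N γ) + S * (SN N γ - SP ψ N γ) + S * (SP ψ N γ - GM N γ 0) +
      S * (GM N γ 0 - zr γ) - ((Nat.factorial k : ℂ) ^ 2)⁻¹ * ∑ π ∈ (Pk k)ᶜ, IG S γ π * zp γ π := by
    rw [e1]; ring
  rw [e2]
  have n1 : ∀ w : ℂ, ‖(S:ℂ) * w‖ ≤ L * ‖w‖ := by
    intro w
    rw [norm_mul, Complex.norm_real, Real.norm_of_nonneg hS]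
    gcongr
  have n2 : ‖((Nat.factorial k : ℂ) ^ 2)⁻¹ * ∑ π ∈ (Pk k)ᶜ, IG S γ π * zp γ π‖ ≤
      ZB k C T * ∑ π ∈ (Pk k)ᶜ, ‖IG S γ π‖ := by
    rw [norm_mul]
    calc _ ≤ 1 * ‖∑ π ∈ (Pk k)ᶜ, IG S γ π * zp γ π‖ := by
          gcongr
          exact inv_le_one
      _ ≤ 1 * ∑ π ∈ (Pk k)ᶜ, ‖IG S γ π * zp γ π‖ := by
          gcongr
          exact norm_sum_le _ _
      _ ≤ 1 * ∑ π ∈ (Pk k)ᶜ, ‖IG S γ π‖ * ZB k C T := by
          gcongr with π hπ
          rw [norm_mul]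
          gcongr
          exact zp_bd' hT hC h1 hγ π
      _ = _ := by rw [one_mul, ← Finset.sum_mul, mul_comm]
  have n3 := hD k N S γ hN hS
  have n4 := n1 (SN N γ - SP ψ N γ)
  have n5 := n1 (SP ψ N γ - GM N γ 0)
  have n6 := n1 (GM N γ 0 - zr γ)
  refine (norm_sub_le _ _).trans (add_le_add ?_ n2)
  refine (norm_add_le _ _).trans (add_le_add ?_ n6)
  refine (norm_add_le _ _).trans (add_le_add ?_ n5)
  refine (norm_add_le _ _).trans (add_le_add ?_ n4)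
  exact (norm_add_le _ _).trans (add_le_add le_rfl n3)

lemma DD_diff' {A B T C : ℝ} (hAB : A ≤ B) (hT : 3 ≤ T) (hC : 0 < C)
    (h1 : ∀ v : ℝ, 1 ≤ |v| → |v| ≤ T → ‖riemannZeta (1 + I * v)‖ ≤ C * Real.log T)
    {γ : Fin k ⊕ Fin k → ℝ} (hγ : SD T γ) :
    ‖DD B γ - DD A γ‖ ≤ (∫ t in A..B, ‖∏ j : Fin k, z (t + γ (Sum.inl j)) *
      (starRingEnd ℂ) (z (t + γ (Sum.inr j)))‖) +
      (B - A) * (Fintype.card (Equiv.Perm (Fin k ⊕ Fin k)) * ZB k C T) := by
  have hc : Continuous fun t : ℝ => Zg γ t - ((Nat.factorial k : ℂ) ^ 2)⁻¹ *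
      Qs t (fun i => (γ i : ℂ)) := (Zg_cont γ).sub (continuous_const.mul (Qs_cont γ))
  have e1 : DD B γ - DD A γ = ∫ t in A..B, (Zg γ t - ((Nat.factorial k : ℂ) ^ 2)⁻¹ *
      Qs t (fun i => (γ i : ℂ))) := by
    unfold DD
    exact intervalIntegral.integral_interval_sub_left (hc.intervalIntegrable _ _)
      (hc.intervalIntegrable _ _)
  rw [e1]
  have hQ : ∀ t : ℝ, ‖((Nat.factorial k : ℂ) ^ 2)⁻¹ * Qs t (fun i => (γ i : ℂ))‖ ≤
      Fintype.card (Equiv.Perm (Fin k ⊕ Fin k)) * ZB k C T := by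
    intro t
    rw [norm_mul, Qs_zp]
    calc _ ≤ 1 * ∑ π : Equiv.Perm (Fin k ⊕ Fin k), ‖GG t (fun i => (γ i : ℂ)) π * zp γ π‖ := by
          gcongr
          · exact inv_le_one
          · exact norm_sum_le _ _
      _ ≤ 1 * ∑ _π : Equiv.Perm (Fin k ⊕ Fin k), ZB k C T := by
          gcongr with π hπ
          rw [norm_mul, norm_GG, one_mul]
          exact zp_bd' hT hC h1 hγ π
      _ = _ := by rw [one_mul, Finset.sum_const, Finset.card_univ, nsmul_eq_mul]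
  refine (intervalIntegral.norm_integral_le_integral_norm hAB).trans ?_
  calc ∫ t in A..B, ‖Zg γ t - ((Nat.factorial k : ℂ) ^ 2)⁻¹ * Qs t (fun i => (γ i : ℂ))‖
      ≤ ∫ t in A..B, (‖Zg γ t‖ + Fintype.card (Equiv.Perm (Fin k ⊕ Fin k)) * ZB k C T) := by
        refine intervalIntegral.integral_mono_on hAB (hc.norm.intervalIntegrable _ _)
          (((Zg_cont γ).norm.add continuous_const).intervalIntegrable _ _) fun t _ => ?_
        exact (norm_sub_le _ _).trans (add_le_add le_rfl (hQ t))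
    _ = _ := by
        rw [intervalIntegral.integral_add ((Zg_cont γ).norm.intervalIntegrable _ _)
          (continuous_const.intervalIntegrable _ _), intervalIntegral.integral_const, smul_eq_mul]
        simp only [Zg_fz]

lemma SepU_meas (k : ℕ) (H : ℝ) (U : Fin k ⊕ Fin k → ℝ) : MeasurableSet (SepU k H U) := by
  have : SepU k H U = (⋂ i, {γ : Fin k ⊕ Fin k → ℝ | 0 ≤ γ i ∧ γ i ≤ H}) ∩
      ⋂ p, ⋂ q, {γ | p ≠ q → H ^ (1 / 2 : ℝ) ≤ |(U p + γ p) - (U q + γ q)|} := by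
    ext γ
    simp [SepU]
  rw [this]
  refine IsClosed.measurableSet ?_
  refine IsClosed.inter (isClosed_iInter fun i => ?_) (isClosed_iInter fun p => isClosed_iInter fun q => ?_)
  · exact (isClosed_le continuous_const (continuous_apply i)).inter
      (isClosed_le (continuous_apply i) continuous_const)
  · by_cases h : p = q
    · simp [h]
    · simp only [ne_eq, h, not_false_eq_true, true_imp_iff]
      exact isClosed_le continuous_const (by fun_prop)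

lemma SepU_SD {T H : ℝ} {U : Fin k ⊕ Fin k → ℝ} (hH : 1 ≤ H) (hU : ∀ i, 0 ≤ U i ∧ U i + H ≤ T)
    {γ : Fin k ⊕ Fin k → ℝ} (hγ : γ ∈ SepU k H U) : SD T (U + γ) := by
  intro p q hpq
  have h1 := hγ.2 p q hpq
  rw [Pi.add_apply, Pi.add_apply]
  refine ⟨(Real.one_le_rpow hH (by norm_num)).trans h1, ?_⟩
  have a1 := hγ.1 p
  have a2 := hγ.1 q
  have b1 := hU p
  have b2 := hU q
  rw [abs_le]
  constructor <;> linarith [a1.1, a1.2, a2.1, a2.2, b1.1, b1.2, b2.1, b2.2]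

lemma zrU_cont {H : ℝ} {U : Fin k ⊕ Fin k → ℝ} (hH : 1 ≤ H) :
    ContinuousOn (fun γ : Fin k ⊕ Fin k → ℝ => zr (U + γ)) (SepU k H U) := by
  set W : Set (Fin k ⊕ Fin k → ℝ) := {γ | ∀ j l : Fin k, γ (Sum.inl j) ≠ γ (Sum.inr l)} with hW
  have hWo : IsOpen W := by
    have : W = ⋂ j : Fin k, ⋂ l : Fin k, {γ | γ (Sum.inl j) ≠ γ (Sum.inr l)} := by
      ext γ; simp [hW]
    rw [this]
    exact isOpen_iInter_of_finite fun j => isOpen_iInter_of_finite fun l =>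
      isOpen_ne_fun (continuous_apply _) (continuous_apply _)
  have hzr : ContinuousOn (fun γ : Fin k ⊕ Fin k → ℝ => zr γ) W := by
    unfold zr zab
    refine ContinuousOn.mul ?_ ?_
    · refine FH_cont hWo (c := 1 / 8) (by norm_num) (fun j => by fun_prop) (fun j => by fun_prop)
        fun γ _ j => ?_
      rw [Complex.ofReal_im, Complex.ofReal_im, abs_zero]
      norm_num
    · refine continuousOn_finsetProd _ fun j _ => continuousOn_finsetProd _ fun l _ => ?_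
      refine zeta_cont (by fun_prop) fun γ hγ => one_ne fun h => hγ j l ?_
      exact Complex.ofReal_injective h
  refine hzr.comp (f := fun γ : Fin k ⊕ Fin k → ℝ => U + γ)
    (by fun_prop : Continuous fun γ : Fin k ⊕ Fin k → ℝ => U + γ).continuousOn ?_
  intro γ hγ j l h
  have h1 := hγ.2 (Sum.inl j) (Sum.inr l) (by simp)
  have h3 : U (Sum.inl j) + γ (Sum.inl j) = U (Sum.inr l) + γ (Sum.inr l) := h
  rw [h3, sub_self, abs_zero] at h1
  have h2 : 0 < H ^ (1 / 2 : ℝ) := by positivity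
  linarith

/-- the exceptional set in the coordinates of the box -/
def BadU (k : ℕ) (H L lam : ℝ) (U : Fin k ⊕ Fin k → ℝ) : Set (Fin k ⊕ Fin k → ℝ) :=
  {γ | (∀ i, 0 ≤ γ i ∧ γ i ≤ H) ∧ ∃ S : ℝ, 0 ≤ S ∧ S ≤ L ∧ lam < ‖DD S (U + γ)‖}

open Classical in
/-- the pieces of the exceptional set -/
lemma BadU_sub (hINV : S_INV) (hD : S_DIAG) (ψ : ℝ → ℝ) {T H L y : ℝ} {N J : ℕ}
    {U : Fin k ⊕ Fin k → ℝ} {C7 : ℝ} (hT : 3 ≤ T) (hH : 1 ≤ H) (hL : 0 < L)
    (hU : ∀ i, 0 ≤ U i ∧ U i + H ≤ T) (hy16 : 16 ≤ y) (hJ1 : 1 ≤ J) (hJl : y ^ 16 ≤ J)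
    (hN1 : 1 ≤ N) (hN4 : 2 * (N : ℝ) ^ (3 * k) ≤ L / y ^ 4) (hC7 : 0 < C7)
    (h1 : ∀ v : ℝ, 1 ≤ |v| → |v| ≤ T → ‖riemannZeta (1 + I * v)‖ ≤ C7 * Real.log T)
    (hZ : (Fintype.card (Equiv.Perm (Fin k ⊕ Fin k)) : ℝ) * ZB k C7 T ≤ y) (hZ0 : 0 ≤ ZB k C7 T) :
    BadU k H L (L / y ^ 2) U ⊆ (SepU k H U)ᶜ ∪ {γ | 1 / y ^ 4 < ‖SN N (U + γ) - SP ψ N (U + γ)‖} ∪
      {γ | 1 / y ^ 4 < ‖SP ψ N (U + γ) - GM N (U + γ) 0‖} ∪
      (SepU k H U ∩ {γ | 1 / y ^ 4 < ‖GM N (U + γ) 0 - zr (U + γ)‖}) ∪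
      (⋃ i ∈ Finset.range (J + 1), {γ | L / y ^ 4 < ‖A1 N (i * (L / J)) (U + γ)‖}) ∪
      (⋃ i ∈ Finset.range (J + 1), ⋃ π ∈ (Pk k)ᶜ, {γ | L / y ^ 8 < ‖IG (i * (L / J)) (U + γ) π‖}) ∪
      ⋃ i ∈ Finset.range J, {γ | L / y ^ 4 < ∫ t in (i * (L / J))..((i + 1 : ℕ) * (L / J)),
        ‖∏ j : Fin k, z (t + (U + γ) (Sum.inl j)) *
          (starRingEnd ℂ) (z (t + (U + γ) (Sum.inr j)))‖} := by
  intro γ hγ
  by_contra hcon
  simp only [mem_union, not_or, mem_iUnion, mem_ofPred_eq, not_exists, not_lt, mem_compl_iff,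
    not_not, mem_inter_iff, not_and] at hcon
  obtain ⟨⟨⟨⟨⟨⟨g1, g2⟩, g3⟩, g4⟩, g5⟩, g6⟩, g7⟩ := hcon
  obtain ⟨hcube, S, hS0, hST, hS⟩ := hγ
  have g1' := SepU_SD hH hU g1
  have hy0 : 0 < y := by linarith
  have hJ : (0:ℝ) < J := by exact_mod_cast (by omega : 0 < J)
  have hTJ : 0 < L / J := by positivity
  -- bound at the grid points
  have key1 : ∀ i ∈ Finset.range (J + 1), ‖DD (i * (L / J)) (U + γ)‖ ≤ 6 * (L / y ^ 4) := by
    intro i hi
    have hi' : (i:ℝ) ≤ J := by exact_mod_cast Nat.lt_succ_iff.1 (Finset.mem_range.1 hi)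
    have hSi0 : 0 ≤ (i:ℝ) * (L / J) := by positivity
    have hSiT : (i:ℝ) * (L / J) ≤ L := by
      calc (i:ℝ) * (L / J) ≤ J * (L / J) := by gcongr
        _ = L := by field_simp
    refine (DD_le' hINV hD ψ hN1 hSi0 hSiT hT hC7 h1 g1').trans ?_
    have b1 := g5 i hi
    have b3 : L * ‖SN N (U + γ) - SP ψ N (U + γ)‖ ≤ L / y ^ 4 := by
      calc _ ≤ L * (1 / y ^ 4) := by gcongr
        _ = _ := by ring
    have b4 : L * ‖SP ψ N (U + γ) - GM N (U + γ) 0‖ ≤ L / y ^ 4 := by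
      calc _ ≤ L * (1 / y ^ 4) := by gcongr
        _ = _ := by ring
    have b5 : L * ‖GM N (U + γ) 0 - zr (U + γ)‖ ≤ L / y ^ 4 := by
      have := g4 g1
      calc _ ≤ L * (1 / y ^ 4) := by gcongr
        _ = _ := by ring
    have b6 : ZB k C7 T * ∑ π ∈ (Pk k)ᶜ, ‖IG (i * (L / J)) (U + γ) π‖ ≤ L / y ^ 4 := by
      have c1 : ∑ π ∈ (Pk k)ᶜ, ‖IG (i * (L / J)) (U + γ) π‖ ≤
          (Fintype.card (Equiv.Perm (Fin k ⊕ Fin k)) : ℝ) * (L / y ^ 8) := by
        calc _ ≤ ∑ _π ∈ (Pk k)ᶜ, L / y ^ 8 := Finset.sum_le_sum fun π hπ => g6 i hi π hπ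
          _ = ((Pk k)ᶜ.card : ℝ) * (L / y ^ 8) := by rw [Finset.sum_const, nsmul_eq_mul]
          _ ≤ _ := by
              gcongr
              exact_mod_cast Finset.card_le_univ _
      calc _ ≤ ZB k C7 T * ((Fintype.card (Equiv.Perm (Fin k ⊕ Fin k)) : ℝ) * (L / y ^ 8)) := by gcongr
        _ = ((Fintype.card (Equiv.Perm (Fin k ⊕ Fin k)) : ℝ) * ZB k C7 T) * (L / y ^ 8) := by ring
        _ ≤ y * (L / y ^ 8) := by gcongr
        _ = L / y ^ 4 * (1 / y ^ 3) := by field_simp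
        _ ≤ L / y ^ 4 * 1 := by
            gcongr
            rw [div_le_one (by positivity)]
            exact one_le_pow₀ (by linarith)
        _ = _ := mul_one _
    linarith
  -- the nearest grid point
  set i : ℕ := ⌊S / (L / J)⌋₊ with hi
  have hiS : (i:ℝ) * (L / J) ≤ S := by
    have := Nat.floor_le (a := S / (L / J)) (by positivity)
    rwa [← hi, le_div_iff₀ hTJ] at this
  have hiS2 : S < ((i:ℝ) + 1) * (L / J) := by
    have := Nat.lt_floor_add_one (S / (L / J))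
    rwa [← hi, div_lt_iff₀ hTJ] at this
  have hiJ : i ≤ J := by
    have h2 : (i:ℝ) * (L / J) ≤ J * (L / J) := by
      refine (hiS.trans hST).trans (le_of_eq ?_)
      field_simp
    have h3 := le_of_mul_le_mul_right h2 hTJ
    exact_mod_cast h3
  have hfin : ‖DD S (U + γ)‖ ≤ L / y ^ 2 := by
    have k1 := key1 i (Finset.mem_range.2 (by omega))
    have hd := DD_diff' (k := k) hiS hT hC7 h1 g1'
    have k2 : (S - i * (L / J)) * (Fintype.card (Equiv.Perm (Fin k ⊕ Fin k)) * ZB k C7 T) ≤ L / y ^ 4 := by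
      have d1 : S - i * (L / J) ≤ L / J := by linarith
      have d2 : L / (J:ℝ) ≤ L / y ^ 16 := by
        gcongr
      calc _ ≤ L / y ^ 16 * y := by
            refine mul_le_mul (d1.trans d2) hZ (by positivity) (by positivity)
        _ = L / y ^ 4 * (1 / y ^ 11) := by field_simp
        _ ≤ L / y ^ 4 * 1 := by
            gcongr
            rw [div_le_one (by positivity)]
            exact one_le_pow₀ (by linarith)
        _ = _ := mul_one _
    have k3 : (∫ t in (i * (L / J))..S, ‖∏ j : Fin k, z (t + (U + γ) (Sum.inl j)) *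
        (starRingEnd ℂ) (z (t + (U + γ) (Sum.inr j)))‖) ≤ L / y ^ 4 := by
      have hcn : Continuous fun t : ℝ => ‖∏ j : Fin k, z (t + (U + γ) (Sum.inl j)) *
          (starRingEnd ℂ) (z (t + (U + γ) (Sum.inr j)))‖ := by
        have := (Zg_cont (U + γ)).norm
        simpa only [Zg_fz] using this
      rcases lt_or_eq_of_le hiJ with hlt | heq
      · refine le_trans ?_ (g7 i (Finset.mem_range.2 hlt))
        refine intervalIntegral.integral_mono_interval le_rfl hiS ?_ ?_ (hcn.intervalIntegrable _ _)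
        · push_cast; exact hiS2.le
        · exact Eventually.of_forall fun t => norm_nonneg _
      · have e : (i:ℝ) * (L / J) = S := by
          refine le_antisymm hiS ?_
          rw [heq]
          refine hST.trans (le_of_eq ?_)
          field_simp
        rw [e, intervalIntegral.integral_same]
        positivity
    have k4 : ‖DD S (U + γ)‖ ≤ ‖DD (i * (L / J)) (U + γ)‖ +
        ‖DD S (U + γ) - DD (i * (L / J)) (U + γ)‖ := by
      have := norm_add_le (DD (i * (L / J)) (U + γ)) (DD S (U + γ) - DD (i * (L / J)) (U + γ))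
      rwa [add_sub_cancel] at this
    have k5 : 8 * (L / y ^ 4) ≤ L / y ^ 2 := by
      have : L / y ^ 2 = (L / y ^ 4) * y ^ 2 := by field_simp
      rw [this, mul_comm]
      gcongr
      nlinarith
    linarith
  linarith

end

end Pool.Agent.T2H54.SB
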