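import Pool.Agent.T2H54.SB.AsmB

set_option autoImplicit false

/-! Assembly of project SB, third part: the measure of the exceptional set. -/

namespace Pool.Agent.T2H54.SB

open Complex Filter Topology MeasureTheory Set
open Pool.Agent.TH612.CF Pool.Agent.TH612.GS
open Pool.Agent.W182.KO hiding ee SS_summable DD
open scoped ContDiff

noncomputable section

theorem mainL {κ : ℝ} (hκ : 1 / 3 ≤ κ) (hκ1 : κ ≤ 1) (hSH : S_SH κ) (hSS : S_SSU) (hA4 : S_A4U)
    (hZM : S_ZMU) (hNS : S_NSU) (hONE : S_ONE) (hD : S_DIAG) (hINV : S_INV) (k : ℕ) (hk : 1 ≤ k)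
    {c : ℝ} (hc : 0 < c) :
    ∃ η δ : ℝ, 0 < η ∧ 0 < δ ∧ ∃ T₀ : ℝ, ∀ (T H L : ℝ) (U : Fin k ⊕ Fin k → ℝ), T₀ ≤ T →
      T ^ (κ - η) ≤ H → H ≤ T → L ≤ T → T ^ (1 + c) ≤ L * H → (∀ i, 0 ≤ U i ∧ U i + H ≤ T) →
      mP (Fin k ⊕ Fin k) H (BadU k H L (L * T ^ (-δ)) U) ≤
        ENNReal.ofReal (H ^ (2 * k) * T ^ (-δ)) := by
  classical
  set c' : ℝ := min c (1 / 4) with hc'
  have hc'0 : 0 < c' := lt_min hc (by norm_num)
  have hc'4 : c' ≤ 1 / 4 := min_le_right _ _
  have hc'c : c' ≤ c := min_le_left _ _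
  obtain ⟨θ, hθ, hθ1, hpar⟩ := paramsH k hc'0 hc'4
  have hk0 : (0:ℝ) ≤ k := Nat.cast_nonneg k
  set e : ℝ := θ / (8 * (k + 1)) with he
  have he0 : 0 < e := by positivity
  have heθ : e ≤ θ / 8 := by
    rw [he, div_le_div_iff₀ (by positivity) (by norm_num)]
    nlinarith
  have he1 : e ≤ 1 := by linarith
  have h4ke : 4 * k * e ≤ θ / 2 := by
    rw [he, ← mul_div_assoc, div_le_div_iff₀ (by positivity) (by norm_num)]
    nlinarith
  obtain ⟨ψ, hψ⟩ := exists_cut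
  obtain ⟨Cv, Tv, hCv, hTv, hv⟩ := vb (by linarith) hκ1 hSH he0 he1
  obtain ⟨C1, T1, hC1, hT1, h1⟩ := z1L k
  obtain ⟨C3, hC3, h3⟩ := hSS k ψ hψ
  obtain ⟨C4, M0, hC4, hM0, h4⟩ := hA4 k ψ hψ
  obtain ⟨C5, T5, B5, hC5, hT5, h5⟩ := hZM k
  obtain ⟨C7, T7, hC7, hT7, h7⟩ := hONE
  set P0 : ℝ := (Fintype.card (Equiv.Perm (Fin k ⊕ Fin k)) : ℝ) with hP0
  have hP0' : 0 ≤ P0 := Nat.cast_nonneg _
  set Z7 : ℝ := P0 * (BF k (1 / 8) * C7 ^ (k ^ 2)) with hZ7
  have hZ7' : 0 ≤ Z7 := mul_nonneg hP0' (mul_nonneg (BF_nonneg _ _) (by positivity))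
  set Ct : ℝ := C1 + C3 + C4 + C5 + P0 * 688 + Z7 + 8 * k ^ 2 with hCt
  set Bt : ℕ := 4 + B5 + 2 + k ^ 2 with hBt
  obtain ⟨T0, hT0⟩ := hpar Ct Bt M0
  obtain ⟨Tw, hTw⟩ := eventually_atTop.1
    ((tendsto_rpow_atTop (half_pos hθ)).eventually_ge_atTop ((2 * Cv) ^ (2 * k)))
  refine ⟨e, 2 * θ, he0, by positivity, max T0 (max T1 (max Tv (max T5 (max T7 Tw)))),
    fun T H L U hT hHge hHT hLT hLH hU => ?_⟩
  have hTT0 := (le_max_left _ _).trans hT
  have hT' := (le_max_right _ _).trans hT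
  have hTT1 : T1 ≤ T := (le_max_left _ _).trans hT'
  have hT'' := (le_max_right _ _).trans hT'
  have hTTv : Tv ≤ T := (le_max_left _ _).trans hT''
  have hT3 := (le_max_right _ _).trans hT''
  have hTT5 : T5 ≤ T := (le_max_left _ _).trans hT3
  have hT4 := (le_max_right _ _).trans hT3
  have hTT7 : T7 ≤ T := (le_max_left _ _).trans hT4
  have hTTw : Tw ≤ T := (le_max_right _ _).trans hT4
  have hTge3 : 3 ≤ T := hTv.trans hTTv
  have hTp : 0 < T := by linarith
  have hT1' : 1 ≤ T := by linarith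
  -- the sizes
  have hHc : T ^ c' ≤ H := by
    refine le_trans ?_ hHge
    refine Real.rpow_le_rpow_of_exponent_le hT1' ?_
    linarith
  have hHp : 0 < H := lt_of_lt_of_le (Real.rpow_pos_of_pos hTp _) hHc
  have hLc : T ^ c' ≤ L := by
    have g1 : T ^ (1 + c) ≤ L * T := by
      refine hLH.trans ?_
      have hL0 : 0 ≤ L := by
        by_contra hneg
        push Not at hneg
        have : L * H < 0 := mul_neg_of_neg_of_pos hneg hHp
        have h2 : 0 < T ^ (1 + c) := Real.rpow_pos_of_pos hTp _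
        linarith
      exact mul_le_mul_of_nonneg_left hHT hL0
    rw [Real.rpow_add hTp, Real.rpow_one, mul_comm] at g1
    have g2 : T ^ c ≤ L := le_of_mul_le_mul_right g1 hTp
    exact (Real.rpow_le_rpow_of_exponent_le hT1' hc'c).trans g2
  have hL0 : 0 < L := lt_of_lt_of_le (Real.rpow_pos_of_pos hTp _) hLc
  have hLH' : T ^ (1 + c') ≤ L * H :=
    (Real.rpow_le_rpow_of_exponent_le hT1' (by linarith)).trans hLH
  obtain ⟨y, N, J, P⟩ := hT0 T H L hTT0 hHc hLc hLH'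
  have hT16 := P.hT
  have hLg := P.hlog
  have hy16 := P.hy16
  have hy0 : 0 < y := by linarith
  have hy1 : 1 ≤ y := by linarith
  have hN1 : 1 ≤ N := by have := P.hN2; omega
  have hN0 : (0:ℝ) < N := by exact_mod_cast (by omega : 0 < N)
  have hJ0 : (0:ℝ) < J := by have := P.hJ1; exact_mod_cast (by omega : 0 < J)
  have hLJ : 0 < L / J := by positivity
  have hy1' : ∀ n : ℕ, 1 ≤ y ^ n := fun n => one_le_pow₀ hy1
  have hyn : ∀ n : ℕ, 1 ≤ n → 16 ≤ y ^ n := fun n hn =>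
    hy16.trans (le_self_pow₀ hy1 (by omega))
  have hHh : H ^ (1 / 2 : ℝ) * H ^ (1 / 2 : ℝ) = H := by
    rw [← Real.rpow_add hHp]; norm_num
  have hHh16 : 16 ≤ H ^ (1 / 2 : ℝ) := (hyn 40 (by norm_num)).trans P.hyH
  have hH3 : 3 ≤ H := by nlinarith
  have hH1 : 1 ≤ H := by linarith
  have hHhH : H ^ (1 / 2 : ℝ) ≤ H := by nlinarith
  have hNH : (N:ℝ) ≤ H := P.hNH.trans hHhH
  have hNT : (N:ℝ) ≤ T := hNH.trans hHT
  have cst : ∀ (a : ℝ) (b : ℕ), 0 ≤ a → a ≤ Ct → b ≤ Bt → a * Real.log T ^ b ≤ y := by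
    intro a b hc0 hc hb
    refine le_trans ?_ P.hC
    have : Real.log T ^ b ≤ Real.log T ^ Bt := pow_le_pow_right₀ hLg hb
    gcongr
  have hPC : 0 ≤ P0 * 688 := by positivity
  have hk0' : (0:ℝ) ≤ 8 * k ^ 2 := by positivity
  have c1 : C1 * Real.log T ^ 4 ≤ y := cst C1 _ hC1.le (by rw [hCt]; linarith) (by omega)
  have c3 : C3 ≤ y := by simpa using cst C3 0 hC3.le (by rw [hCt]; linarith) (by omega)
  have c4 : C4 ≤ y := by simpa using cst C4 0 hC4.le (by rw [hCt]; linarith) (by omega)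
  have c5 : C5 * Real.log T ^ B5 ≤ y := cst C5 _ hC5.le (by rw [hCt]; linarith) (by omega)
  have c6 : P0 * 688 * Real.log T ^ 2 ≤ y := cst _ _ hPC (by rw [hCt]; linarith) (by omega)
  have c7 : Z7 * Real.log T ^ (k ^ 2) ≤ y := cst _ _ hZ7' (by rw [hCt]; linarith) (by omega)
  have c8 : 8 * (k:ℝ) ^ 2 ≤ y := by simpa using cst _ 0 hk0' (by rw [hCt]; linarith) (by omega)
  have hone := (h7 T 1 hTT7 le_rfl (by
    push_cast
    exact Real.one_le_rpow hT1' (by norm_num))).1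
  have hZ : P0 * ZB k C7 T ≤ y := by
    refine le_trans (le_of_eq ?_) c7
    unfold ZB
    rw [hZ7, mul_pow]; ring
  have hZ0 : 0 ≤ ZB k C7 T := by
    unfold ZB
    exact mul_nonneg (BF_nonneg _ _) (by positivity)
  -- the mean squares
  set W : ℝ := 2 * Cv * T ^ (2 * e) with hW
  have hTe1 : 1 ≤ T ^ (2 * e) := Real.one_le_rpow hT1' (by positivity)
  have hW1 : 1 ≤ W := by rw [hW]; nlinarith
  have hWk : W ^ (2 * k) ≤ y := by
    rw [hW, mul_pow, P.hy]
    have g1 : (T ^ (2 * e)) ^ (2 * k) ≤ T ^ (θ / 2) := by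
      rw [← Real.rpow_natCast, ← Real.rpow_mul hTp.le]
      refine Real.rpow_le_rpow_of_exponent_le hT1' ?_
      push_cast
      linarith
    have g2 := hTw T hTTw
    calc (2 * Cv) ^ (2 * k) * (T ^ (2 * e)) ^ (2 * k) ≤ T ^ (θ / 2) * T ^ (θ / 2) := by gcongr
      _ = T ^ θ := by
          rw [← Real.rpow_add hTp]
          congr 1
          ring
  have hWk1 : W ^ (2 * k - 1) ≤ y :=
    (pow_le_pow_right₀ hW1 (by omega)).trans hWk
  set V : ℝ := W * H with hV
  have hV0 : 0 ≤ V := by positivity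
  have hVle : Cv * T ^ e * (H + T ^ κ) ≤ V := by
    have g1 : T ^ κ ≤ T ^ e * H := by
      calc T ^ κ = T ^ e * T ^ (κ - e) := by
            rw [← Real.rpow_add hTp]
            congr 1
            ring
        _ ≤ T ^ e * H := by gcongr
    have g2 : 1 ≤ T ^ e := Real.one_le_rpow hT1' he0.le
    have g3 : H + T ^ κ ≤ 2 * (T ^ e * H) := by nlinarith
    have g4 : T ^ (2 * e) = T ^ e * T ^ e := by
      rw [← Real.rpow_add hTp]
      congr 1
      ring
    calc Cv * T ^ e * (H + T ^ κ) ≤ Cv * T ^ e * (2 * (T ^ e * H)) := by gcongr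
      _ = V := by rw [hV, hW, g4]; ring
  have hVz : ∀ v, 0 ≤ v → v ≤ 2 * T → ∫ y in (0:ℝ)..H, ‖z (v + y)‖ ^ 2 ≤ V := fun v h0 h2 =>
    ((hv T H v N hTTv hH1 hHT h0 h2 hN1 hNH).1).trans hVle
  have hVP : ∀ v, 0 ≤ v → v ≤ 2 * T → ∫ y in (0:ℝ)..H, ‖PN N (v + y)‖ ^ 2 ≤ V := fun v h0 h2 =>
    ((hv T H v N hTTv hH1 hHT h0 h2 hN1 hNH).2).trans hVle
  -- the target for each piece
  have hH2k : H ^ (2 * k) = H * H ^ (2 * k - 1) := by
    rw [← pow_succ']
    congr 1
    omega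
  have hHk : 0 < H ^ (2 * k) := by positivity
  have hHk1 : 0 < H ^ (2 * k - 1) := by positivity
  set b : ℝ := H ^ (2 * k) / y ^ 3 with hb
  have hb0 : 0 < b := by positivity
  have hVk : V ^ (2 * k) ≤ y * H ^ (2 * k) := by
    rw [hV, mul_pow]
    gcongr
  have hVk1 : V ^ (2 * k - 1) ≤ y * H ^ (2 * k - 1) := by
    rw [hV, mul_pow]
    gcongr
  have hNinv : 1 / (N:ℝ) ≤ 2 / y ^ 320 := by
    rw [div_le_div_iff₀ hN0 (by positivity)]
    have := P.hN
    linarith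
  have hTLH : T ≤ L * H / y ^ 40 := by
    rw [le_div_iff₀ (by positivity)]
    have := P.hyLH
    linarith
  have hHLN : H * L / N + T ≤ 3 * (L * H) / y ^ 40 := by
    have g1 : 2 / y ^ 320 ≤ 2 / y ^ 40 := by
      have : y ^ 40 ≤ y ^ 320 := pow_le_pow_right₀ hy1 (by norm_num)
      gcongr
    have g2 : H * L / N ≤ 2 * (L * H) / y ^ 40 := by
      calc H * L / N = (H * L) * (1 / N) := by ring
        _ ≤ (H * L) * (2 / y ^ 40) := by
            have := hNinv.trans g1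
            gcongr
        _ = _ := by ring
    have g3 : 3 * (L * H) / y ^ 40 = 2 * (L * H) / y ^ 40 + L * H / y ^ 40 := by ring
    rw [g3]
    exact add_le_add g2 hTLH
  have hcU : Continuous fun γ : Fin k ⊕ Fin k → ℝ => U + γ := by fun_prop
  -- U3
  have u3 : mP (Fin k ⊕ Fin k) H {γ | 1 / y ^ 4 < ‖SN N (U + γ) - SP ψ N (U + γ)‖} ≤
      ENNReal.ofReal b := by
    refine (cheb ((((SN_cont N).comp hcU).sub ((SP_cont ψ N).comp hcU)).norm.aemeasurable)
      (by positivity) (h3 H N U P.hN2 P.hN1)).trans (ENNReal.ofReal_le_ofReal ?_)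
    have e := P.hN8
    calc C3 * H ^ (2 * k) * (N:ℝ) ^ (-(1 / 8) : ℝ) / (1 / y ^ 4) ^ 2
        ≤ y * H ^ (2 * k) * (2 / y ^ 40) / (1 / y ^ 4) ^ 2 := by gcongr
      _ = H ^ (2 * k) / y ^ 3 * (2 / y ^ 28) := by field_simp
      _ ≤ H ^ (2 * k) / y ^ 3 * 1 := by
          gcongr
          rw [div_le_one (by positivity)]
          linarith [hyn 28 (by norm_num)]
      _ = b := by rw [mul_one]
  -- U4
  have u4 : mP (Fin k ⊕ Fin k) H {γ | 1 / y ^ 4 < ‖SP ψ N (U + γ) - GM N (U + γ) 0‖} ≤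
      ENNReal.ofReal b := by
    refine (cheb ((((SP_cont ψ N).comp hcU).sub ((GM0_cont N).comp hcU)).norm.aemeasurable)
      (by positivity) (h4 H N U P.hM hH1 P.hN3)).trans (ENNReal.ofReal_le_ofReal ?_)
    have e := P.hN8
    calc C4 * H ^ (2 * k) * (N:ℝ) ^ (-(1 / 8) : ℝ) / (1 / y ^ 4) ^ 2
        ≤ y * H ^ (2 * k) * (2 / y ^ 40) / (1 / y ^ 4) ^ 2 := by gcongr
      _ = H ^ (2 * k) / y ^ 3 * (2 / y ^ 28) := by field_simp
      _ ≤ H ^ (2 * k) / y ^ 3 * 1 := by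
          gcongr
          rw [div_le_one (by positivity)]
          linarith [hyn 28 (by norm_num)]
      _ = b := by rw [mul_one]
  -- U5
  have u5 : mP (Fin k ⊕ Fin k) H (SepU k H U ∩ {γ | 1 / y ^ 4 < ‖GM N (U + γ) 0 - zr (U + γ)‖}) ≤
      ENNReal.ofReal b := by
    have hm : AEMeasurable (fun γ : Fin k ⊕ Fin k → ℝ => ‖GM N (U + γ) 0 - zr (U + γ)‖)
        ((mP (Fin k ⊕ Fin k) H).restrict (SepU k H U)) :=
      ((((GM0_cont N).comp hcU).continuousOn.sub (zrU_cont hH1)).norm).aemeasurable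
        (SepU_meas k H U)
    have hcb := cheb hm (lam := 1 / y ^ 4) (by positivity)
      (h5 T H N U hTT5 hH3 hU hN1 P.hNH)
    have e0 : mP (Fin k ⊕ Fin k) H (SepU k H U ∩ {γ | 1 / y ^ 4 < ‖GM N (U + γ) 0 - zr (U + γ)‖}) ≤
        ((mP (Fin k ⊕ Fin k) H).restrict (SepU k H U))
          {γ | 1 / y ^ 4 < ‖GM N (U + γ) 0 - zr (U + γ)‖} := by
      rw [inter_comm]
      exact Measure.le_restrict_apply _ _
    refine e0.trans (hcb.trans (ENNReal.ofReal_le_ofReal ?_))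
    calc C5 * Real.log T ^ B5 * H ^ (2 * k) / N / (1 / y ^ 4) ^ 2
        = (C5 * Real.log T ^ B5) * H ^ (2 * k) * (1 / N) / (1 / y ^ 4) ^ 2 := by ring
      _ ≤ y * H ^ (2 * k) * (2 / y ^ 320) / (1 / y ^ 4) ^ 2 := by gcongr
      _ = H ^ (2 * k) / y ^ 3 * (2 / y ^ 308) := by field_simp
      _ ≤ H ^ (2 * k) / y ^ 3 * 1 := by
          gcongr
          rw [div_le_one (by positivity)]
          linarith [hyn 308 (by norm_num)]
      _ = b := by rw [mul_one]
  have hgrid : ∀ i ∈ Finset.range (J + 1), 0 ≤ (i:ℝ) * (L / J) ∧ (i:ℝ) * (L / J) ≤ L := by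
    intro i hi
    have hi' : (i:ℝ) ≤ J := by exact_mod_cast Nat.lt_succ_iff.1 (Finset.mem_range.1 hi)
    refine ⟨by positivity, ?_⟩
    calc (i:ℝ) * (L / J) ≤ J * (L / J) := by gcongr
      _ = L := by field_simp
  have hJ3 : ((J + 1 : ℕ) : ℝ) ≤ 3 * y ^ 16 := by
    push_cast
    have := P.hJu
    linarith [hyn 16 (by norm_num)]
  -- U1
  have u1 : ∑ i ∈ Finset.range (J + 1), mP (Fin k ⊕ Fin k) H
      {γ | L / y ^ 4 < ‖A1 N (i * (L / J)) (U + γ)‖} ≤ ENNReal.ofReal b := by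
    refine sum_ofReal_le' (b := C1 * Real.log T ^ 4 * (H * L / N + T) * L * V ^ (2 * k - 1) /
      (L / y ^ 4) ^ 2) (fun i hi => ?_) ?_
    · obtain ⟨g0, g1⟩ := hgrid i hi
      exact cheb (((A1_cont N _).comp hcU).norm.aemeasurable) (by positivity)
        (h1 T H L _ V N U hTT1 hH1 hU hL0 hLT g0 g1 hN1 hNT hV0 hVz hVP)
    · calc ((J + 1 : ℕ) : ℝ) * (C1 * Real.log T ^ 4 * (H * L / N + T) * L * V ^ (2 * k - 1) /
            (L / y ^ 4) ^ 2)
          = ((J + 1 : ℕ) : ℝ) * ((C1 * Real.log T ^ 4) * (H * L / N + T) * L * V ^ (2 * k - 1) /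
              (L / y ^ 4) ^ 2) := by ring
        _ ≤ (3 * y ^ 16) * (y * (3 * (L * H) / y ^ 40) * L * (y * H ^ (2 * k - 1)) /
              (L / y ^ 4) ^ 2) := by gcongr
        _ = H ^ (2 * k) / y ^ 3 * (9 / y ^ 11) := by
            rw [hH2k]; field_simp; norm_num
        _ ≤ H ^ (2 * k) / y ^ 3 * 1 := by
            gcongr
            rw [div_le_one (by positivity)]
            linarith [hyn 11 (by norm_num)]
        _ = b := by rw [mul_one]
  -- U6
  have u6 : ∑ i ∈ Finset.range (J + 1), mP (Fin k ⊕ Fin k) H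
      (⋃ π ∈ (Pk k)ᶜ, {γ | L / y ^ 8 < ‖IG (i * (L / J)) (U + γ) π‖}) ≤ ENNReal.ofReal b := by
    refine sum_ofReal_le' (b := P0 * (688 * (L * T) * Real.log T ^ 2 * H ^ (2 * k - 1) /
      (L / y ^ 8) ^ 2)) (fun i hi => ?_) ?_
    · obtain ⟨g0, g1⟩ := hgrid i hi
      refine (measure_biUnion_finset_le _ _).trans ?_
      calc ∑ π ∈ (Pk k)ᶜ, mP (Fin k ⊕ Fin k) H {γ | L / y ^ 8 < ‖IG (i * (L / J)) (U + γ) π‖}
          ≤ ∑ _π ∈ (Pk k)ᶜ, ENNReal.ofReal (688 * (L * T) * Real.log T ^ 2 * H ^ (2 * k - 1) /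
              (L / y ^ 8) ^ 2) := by
            refine Finset.sum_le_sum fun π hπ => ?_
            have hπ' : ∃ j, (π (Sum.inr j)).isLeft = true := by
              rw [Finset.mem_compl, Pk, Finset.mem_filter, not_and] at hπ
              have := hπ (Finset.mem_univ _)
              push Not at this
              obtain ⟨j, hj⟩ := this
              exact ⟨j, by simpa using hj⟩
            have hsw := swL k U π hT16 hHp.le hU g0 (g1.trans hLT) hπ'
            refine cheb (((IG_cont _ π).comp hcU).norm.aemeasurable) (by positivity)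
              (hsw.trans (ENNReal.ofReal_le_ofReal ?_))
            gcongr
        _ = ENNReal.ofReal (((Pk k)ᶜ.card : ℝ) * (688 * (L * T) * Real.log T ^ 2 *
              H ^ (2 * k - 1) / (L / y ^ 8) ^ 2)) := by
            rw [Finset.sum_const, nsmul_eq_mul, ENNReal.ofReal_mul (by positivity),
              ENNReal.ofReal_natCast]
        _ ≤ _ := by
            refine ENNReal.ofReal_le_ofReal ?_
            gcongr
            rw [hP0]
            exact_mod_cast Finset.card_le_univ _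
    · calc ((J + 1 : ℕ) : ℝ) * (P0 * (688 * (L * T) * Real.log T ^ 2 * H ^ (2 * k - 1) /
            (L / y ^ 8) ^ 2))
          = ((J + 1 : ℕ) : ℝ) * ((P0 * 688 * Real.log T ^ 2) * (L * T) * H ^ (2 * k - 1) /
              (L / y ^ 8) ^ 2) := by
            ring
        _ ≤ (3 * y ^ 16) * (y * (L * (L * H / y ^ 40)) * H ^ (2 * k - 1) / (L / y ^ 8) ^ 2) := by
            gcongr
        _ = H ^ (2 * k) / y ^ 3 * (3 / y ^ 4) := by
            rw [hH2k]; field_simp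
        _ ≤ H ^ (2 * k) / y ^ 3 * 1 := by
            gcongr
            rw [div_le_one (by positivity)]
            linarith [hyn 4 (by norm_num)]
        _ = b := by rw [mul_one]
  -- U7
  have u7 : ∑ i ∈ Finset.range J, mP (Fin k ⊕ Fin k) H {γ | L / y ^ 4 <
      ∫ t in (i * (L / J))..((i + 1 : ℕ) * (L / J)),
        ‖∏ j : Fin k, z (t + (U + γ) (Sum.inl j)) *
          (starRingEnd ℂ) (z (t + (U + γ) (Sum.inr j)))‖} ≤
      ENNReal.ofReal b := by
    refine sum_ofReal_le' (b := (L / J) ^ 2 * V ^ (2 * k) / (L / y ^ 4) ^ 2)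
      (fun i hi => ?_) ?_
    · obtain ⟨g0, _⟩ := hgrid i (Finset.mem_range.2 (by have := Finset.mem_range.1 hi; omega))
      obtain ⟨_, g1⟩ := hgrid (i + 1) (Finset.mem_range.2 (by have := Finset.mem_range.1 hi; omega))
      have hle : (i:ℝ) * (L / J) ≤ ((i + 1 : ℕ) : ℝ) * (L / J) := by
        gcongr
        push_cast; linarith
      have hh := z2L k T H _ _ V U hHp.le hU g0 hle (g1.trans hLT) hV0 hVz
      have e : ((i + 1 : ℕ) : ℝ) * (L / J) - i * (L / J) = L / J := by push_cast; ring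
      rw [e] at hh
      exact cheb (((intnorm_cont _ _).comp hcU).aemeasurable) (by positivity) hh
    · calc (J:ℝ) * ((L / J) ^ 2 * V ^ (2 * k) / (L / y ^ 4) ^ 2)
          = V ^ (2 * k) * y ^ 8 * (1 / J) := by
            field_simp
        _ ≤ (y * H ^ (2 * k)) * y ^ 8 * (1 / y ^ 16) := by
            have := P.hJl
            gcongr
        _ = H ^ (2 * k) / y ^ 3 * (1 / y ^ 4) := by field_simp
        _ ≤ H ^ (2 * k) / y ^ 3 * 1 := by
            gcongr
            rw [div_le_one (by positivity)]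
            exact hy1' 4
        _ = b := by rw [mul_one]
  -- U8
  have u8 : mP (Fin k ⊕ Fin k) H (SepU k H U)ᶜ ≤ ENNReal.ofReal b := by
    refine (hNS k H U hH1).trans (ENNReal.ofReal_le_ofReal ?_)
    have e : H ^ (2 * k - 1 / 2 : ℝ) = H ^ (2 * k) / H ^ (1 / 2 : ℝ) := by
      rw [Real.rpow_sub hHp]
      congr 1
      rw [← Real.rpow_natCast]; push_cast; rfl
    rw [e]
    have hyT2 := P.hyH
    calc 8 * (k:ℝ) ^ 2 * (H ^ (2 * k) / H ^ (1 / 2 : ℝ)) ≤ y * (H ^ (2 * k) / y ^ 40) := by gcongr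
      _ = H ^ (2 * k) / y ^ 3 * (1 / y ^ 36) := by field_simp
      _ ≤ H ^ (2 * k) / y ^ 3 * 1 := by
          gcongr
          rw [div_le_one (by positivity)]
          exact hy1' 36
      _ = b := by rw [mul_one]
  -- conclusion
  have eL : L * T ^ (-(2 * θ)) = L / y ^ 2 := by rw [P.e1]; ring
  have eH : H ^ (2 * k) * T ^ (-(2 * θ)) = H ^ (2 * k) / y ^ 2 := by rw [P.e1]; ring
  rw [eL, eH]
  refine (measure_mono (BadU_sub hINV hD ψ hTge3 hH1 hL0 hU hy16 P.hJ1 P.hJl hN1 P.hN4 hC7 hone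
    hZ hZ0)).trans ?_
  have step : ∀ {A B : Set (Fin k ⊕ Fin k → ℝ)} {x z : ℝ}, 0 ≤ x → 0 ≤ z →
      mP (Fin k ⊕ Fin k) H A ≤ ENNReal.ofReal x → mP (Fin k ⊕ Fin k) H B ≤ ENNReal.ofReal z →
      mP (Fin k ⊕ Fin k) H (A ∪ B) ≤ ENNReal.ofReal (x + z) := by
    intro A B x z hx hz hA hB
    rw [ENNReal.ofReal_add hx hz]
    exact (measure_union_le _ _).trans (add_le_add hA hB)
  have tot := step (by positivity) (by positivity) (step (by positivity) (by positivity)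
    (step (by positivity) (by positivity) (step (by positivity) (by positivity)
    (step (by positivity) (by positivity) (step (by positivity) (by positivity) u8 u3) u4) u5)
    ((measure_biUnion_finset_le _ _).trans u1)) ((measure_biUnion_finset_le _ _).trans u6))
    ((measure_biUnion_finset_le _ _).trans u7)
  refine tot.trans (ENNReal.ofReal_le_ofReal ?_)
  have e7 : b + b + b + b + b + b + b = 7 * b := by ring
  rw [e7, hb]
  calc 7 * (H ^ (2 * k) / y ^ 3) ≤ y * (H ^ (2 * k) / y ^ 3) := by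
        gcongr
        linarith
    _ = H ^ (2 * k) / y ^ 2 := by field_simp

end

end Pool.Agent.T2H54.SB
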