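import Pool.Agent.T2H54.SB.Stm2
import Pool.Agent.TH406.GS.CHI

set_option autoImplicit false

/-! Project SB: the factor of the functional equation as a convolution operator, short range of `t`
(the proof of `Pool.Agent.TH406.GS.main` without its last step). -/

namespace Pool.Agent.T2H54.SB.CHIL

open Complex Filter Topology MeasureTheory Set
open scoped ComplexConjugate
open Pool.Agent.TH406.GS

noncomputable section

variable {X L : ℝ → ℂ}

theorem mainS (h : Osc X L) {T S : ℝ} {R : ℝ → ℂ} (hT : 16 ≤ T) (hS0 : 0 ≤ S) (hS : S ≤ T)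
    (hR : Continuous R) (hR1 : ∀ t, ‖R t‖ ≤ 1) :
    ∫ y in (0:ℝ)..T, ‖∫ t in (0:ℝ)..S, conj (X (t + y)) * R t‖ ^ 2 ≤
      688 * (S * T) * Real.log T ^ 2 := by
  have hT0 : 0 ≤ T := by linarith
  have hl := log_ge_one hT
  set μ : Measure ℝ := volume.restrict (Ioc 0 S) with hμ
  set ν : Measure ℝ := volume.restrict (Ioc 0 T) with hν
  set Φ : ℝ → ℝ → ℂ := fun t y => conj (X (t + y)) * R t with hΦ
  have hX := h.cont
  have hΦc : Continuous (Function.uncurry Φ) := by
    rw [hΦ]
    unfold Function.uncurry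
    fun_prop
  have hΦn : ∀ t y, ‖Φ t y‖ ≤ 1 := by
    intro t y
    rw [hΦ]
    simp only
    rw [norm_mul, Complex.norm_conj, h.norm, one_mul]
    exact hR1 t
  -- the square
  have e0 : ((∫ y in (0:ℝ)..T, ‖∫ t in (0:ℝ)..S, conj (X (t + y)) * R t‖ ^ 2 : ℝ) : ℂ) =
      ∫ y, ∫ p : ℝ × ℝ, Φ p.1 y * conj (Φ p.2 y) ∂(μ.prod μ) ∂ν := by
    rw [intervalIntegral.integral_of_le hT0, ← integral_complex_ofReal]
    refine integral_congr_ae (Eventually.of_forall fun y => ?_)
    simp only
    rw [integral_prod_mul (fun t => Φ t y) (fun s => conj (Φ s y)), integral_conj,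
      intervalIntegral.integral_of_le hS0, Complex.mul_conj, Complex.normSq_eq_norm_sq]
  have hint : Integrable (Function.uncurry fun (y : ℝ) (p : ℝ × ℝ) => Φ p.1 y * conj (Φ p.2 y))
      (ν.prod (μ.prod μ)) := by
    have : IsFiniteMeasure μ := ⟨by rw [hμ]; simp⟩
    have : IsFiniteMeasure ν := ⟨by rw [hν]; simp⟩
    refine Integrable.of_bound (C := 1) ?_ (Eventually.of_forall fun q => ?_)
    · apply Continuous.aestronglyMeasurable
      rw [hΦ]
      unfold Function.uncurry
      fun_prop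
    · simp only [Function.uncurry]
      rw [norm_mul, Complex.norm_conj]
      exact mul_le_one₀ (hΦn _ _) (norm_nonneg _) (hΦn _ _)
  rw [integral_integral_swap hint] at e0
  have e1 : ∀ p : ℝ × ℝ, ∫ y, Φ p.1 y * conj (Φ p.2 y) ∂ν = R p.1 * conj (R p.2) * KK X T p.1 p.2 := by
    intro p
    unfold KK
    rw [intervalIntegral.integral_of_le hT0, ← integral_const_mul]
    refine integral_congr_ae (Eventually.of_forall fun y => ?_)
    rw [hΦ]
    simp only [map_mul, Complex.conj_conj]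
    ring
  simp_rw [e1] at e0
  have hbc : Continuous fun p : ℝ × ℝ => 172 * T * Real.log T / (1 + |p.1 - p.2|) := by
    refine Continuous.div continuous_const (by fun_prop) fun p => ?_
    have := abs_nonneg (p.1 - p.2)
    positivity
  have : IsFiniteMeasure μ := ⟨by rw [hμ]; simp⟩
  have hbi : Integrable (fun p : ℝ × ℝ => 172 * T * Real.log T / (1 + |p.1 - p.2|)) (μ.prod μ) := by
    refine Integrable.of_bound (C := 172 * T * Real.log T) hbc.aestronglyMeasurable
      (Eventually.of_forall fun p => ?_)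
    have h1 := abs_nonneg (p.1 - p.2)
    rw [Real.norm_of_nonneg (by positivity)]
    exact div_le_self (by positivity) (by linarith)
  have h2 : ‖∫ p : ℝ × ℝ, R p.1 * conj (R p.2) * KK X T p.1 p.2 ∂(μ.prod μ)‖ ≤
      ∫ p : ℝ × ℝ, 172 * T * Real.log T / (1 + |p.1 - p.2|) ∂(μ.prod μ) := by
    refine norm_integral_le_of_norm_le hbi ?_
    rw [hμ, Measure.prod_restrict]
    filter_upwards [ae_restrict_mem (measurableSet_Ioc.prod measurableSet_Ioc)] with p hp
    obtain ⟨h3, h4⟩ := hp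
    rw [norm_mul, norm_mul, Complex.norm_conj]
    calc ‖R p.1‖ * ‖R p.2‖ * ‖KK X T p.1 p.2‖ ≤ 1 * 1 * ‖KK X T p.1 p.2‖ := by
          refine mul_le_mul_of_nonneg_right (mul_le_mul (hR1 _) (hR1 _) (norm_nonneg _) zero_le_one) (norm_nonneg _)
      _ = ‖KK X T p.1 p.2‖ := by ring
      _ ≤ _ := KK_le h hT h3.1.le (h3.2.trans hS) h4.1.le (h4.2.trans hS)
  rw [← e0, Complex.norm_real] at h2
  refine (Real.le_norm_self _).trans (h2.trans ?_)
  rw [integral_prod _ hbi]
  have h5 : ∀ t ∈ Ioc 0 S, ∫ s, 172 * T * Real.log T / (1 + |t - s|) ∂μ ≤ 172 * T * Real.log T * (4 * Real.log T) := by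
    intro t ht
    have h6 := inner_int hT hS ht.1.le ht.2
    rw [intervalIntegral.integral_of_le hS0] at h6
    simp_rw [div_eq_mul_inv]
    rw [integral_const_mul]
    exact mul_le_mul_of_nonneg_left h6 (by positivity)
  calc ∫ t, ∫ s, 172 * T * Real.log T / (1 + |t - s|) ∂μ ∂μ ≤ ∫ t, 172 * T * Real.log T * (4 * Real.log T) ∂μ := by
        refine integral_mono_ae hbi.integral_prod_left (integrable_const _) ?_
        rw [hμ]
        filter_upwards [ae_restrict_mem measurableSet_Ioc] with t ht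
        exact h5 t ht
    _ = S * (172 * T * Real.log T * (4 * Real.log T)) := by
        rw [integral_const, smul_eq_mul, hμ]
        simp [Measure.real, hS0]
    _ = _ := by ring


open Pool.Agent.TH612.CF Pool.Agent.TH612.MD
open Pool.Agent.W182.KO (XX XX_conj)

theorem pCHIL {T S : ℝ} {R : ℝ → ℂ} (hT : 16 ≤ T) (hS0 : 0 ≤ S) (hS : S ≤ T)
    (hR : Continuous R) (hR1 : ∀ t, ‖R t‖ ≤ 1) :
    ∫ y in (0:ℝ)..T, ‖∫ t in (0:ℝ)..S, chi (1 / 2 + I * (t + y)) * R t‖ ^ 2 ≤
      688 * (S * T) * Real.log T ^ 2 := by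
  have e : ∀ t y : ℝ, chi (1 / 2 + I * (t + y)) = conj (XX (1 / 2 + I * ((t + y : ℝ) : ℂ))) := by
    intro t y
    rw [← chi_eq]
    push_cast
    rfl
  simp_rw [e]
  exact mainS osc hT hS0 hS hR hR1

end

end Pool.Agent.T2H54.SB.CHIL
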