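import Pool.Agent.T2H54.SB.OPU

set_option autoImplicit false

/-! Project SB: zeta minus a short Dirichlet polynomial, as a convolution operator from a short
range of `t` to a window. -/

namespace Pool.Agent.T2H54.SB

open Complex Filter Topology MeasureTheory Set
open Pool.Agent.TH612.GS
open Pool.Agent.TH889.GS (bb diff_eq norm_bb cont_cpow cont_z cont_PN)

noncomputable section

/-- the dual of `MVW` -/
theorem pMVDW : ∃ C : ℝ, 0 < C ∧ ∀ (L S : ℝ) (X : ℕ) (R : ℝ → ℂ), 0 < L → 0 ≤ S → S ≤ L →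
    1 ≤ X → Continuous R →
    ∑ n ∈ Finset.Icc 1 X, ‖∫ t in (0:ℝ)..S, R t * (n : ℂ) ^ (-(I * t))‖ ^ 2 / (L + n) ≤
      C * (1 + Real.log X) ^ 2 * ∫ t in (0:ℝ)..S, ‖R t‖ ^ 2 := by
  obtain ⟨C0, hC0, h⟩ := pMVW
  refine ⟨C0, hC0, ?_⟩
  intro T S X R hT hS hST hX hR
  have hlogX : 0 ≤ Real.log X := Real.log_nonneg (by exact_mod_cast hX)
  set C : ℝ := C0 * (1 + Real.log X) ^ 2 with hCdef
  have hC : 0 < C := by positivity
  set c : ℕ → ℂ := fun n => ∫ t in (0:ℝ)..S, R t * (n : ℂ) ^ (-(I * t)) with hc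
  set w : ℕ → ℝ := fun n => 1 / (T + n) with hw
  have hTn : ∀ n : ℕ, 0 < T + n := fun n => by positivity
  set Q : ℝ := ∑ n ∈ Finset.Icc 1 X, ‖c n‖ ^ 2 / (T + n) with hQ
  set A : ℝ → ℂ := fun t => ∑ n ∈ Finset.Icc 1 X,
    ((w n : ℂ) * (starRingEnd ℂ) (c n)) * (n : ℂ) ^ (-(I * t)) with hA
  have hAc : Continuous A := by
    refine continuous_finsetSum _ fun n hn => ?_
    exact continuous_const.mul (cont_cpow (Finset.mem_Icc.1 hn).1)
  -- the bilinear identity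
  have h1 : ∫ t in (0:ℝ)..S, R t * A t = (Q : ℂ) := by
    have e : ∀ t, R t * A t = ∑ n ∈ Finset.Icc 1 X,
        ((w n : ℂ) * (starRingEnd ℂ) (c n)) * (R t * (n : ℂ) ^ (-(I * t))) := by
      intro t
      rw [hA]
      simp only
      rw [Finset.mul_sum]
      exact Finset.sum_congr rfl fun n _ => by ring
    simp_rw [e]
    rw [intervalIntegral.integral_finsetSum]
    · rw [hQ]
      push_cast
      refine Finset.sum_congr rfl fun n _ => ?_
      rw [intervalIntegral.integral_const_mul]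
      have e2 : (starRingEnd ℂ) (c n) * c n = ((‖c n‖ ^ 2 : ℝ) : ℂ) := by
        rw [mul_comm, Complex.mul_conj, Complex.normSq_eq_norm_sq]
      change ((w n : ℂ) * (starRingEnd ℂ) (c n)) * c n = _
      rw [mul_assoc, e2]
      simp only [hw]
      push_cast
      ring
    · intro n hn
      refine Continuous.intervalIntegrable ?_ _ _
      exact continuous_const.mul (hR.mul (cont_cpow (Finset.mem_Icc.1 hn).1))
  -- mean value theorem for `A`
  have h2 : ∫ t in (0:ℝ)..S, ‖A t‖ ^ 2 ≤ C * Q := by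
    have g1 : ∫ t in (0:ℝ)..S, ‖A t‖ ^ 2 ≤ ∫ t in (0:ℝ)..(0 + T), ‖A t‖ ^ 2 := by
      refine intervalIntegral.integral_mono_interval le_rfl hS (by linarith) ?_ ?_
      · exact Filter.Eventually.of_forall fun t => by positivity
      · exact (hAc.norm.pow 2).intervalIntegrable _ _
    refine g1.trans ((h 0 T X (fun n => (w n : ℂ) * (starRingEnd ℂ) (c n)) hT.le hX).trans ?_)
    refine mul_le_mul_of_nonneg_left (le_of_eq ?_) hC.le
    rw [hQ]
    refine Finset.sum_congr rfl fun n _ => ?_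
    have g2 : ‖((w n : ℂ) * (starRingEnd ℂ) (c n))‖ = ‖c n‖ / (T + n) := by
      rw [norm_mul, RCLike.norm_conj, Complex.norm_real, Real.norm_of_nonneg]
      · simp only [hw]; ring
      · simp only [hw]; exact one_div_nonneg.2 (hTn n).le
    rw [g2]
    have := (hTn n).ne'
    field_simp
  have h3 : Q ≤ ∫ t in (0:ℝ)..S, (C * ‖R t‖ ^ 2 + ‖A t‖ ^ 2 / C) / 2 := by
    have g1 : Q ≤ ‖∫ t in (0:ℝ)..S, R t * A t‖ := by
      rw [h1, Complex.norm_real]; exact le_abs_self _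
    refine g1.trans ((intervalIntegral.norm_integral_le_integral_norm hS).trans ?_)
    refine intervalIntegral.integral_mono_on hS ?_ ?_ ?_
    · exact ((hR.mul hAc).norm).intervalIntegrable _ _
    · refine Continuous.intervalIntegrable ?_ _ _
      exact (((continuous_const.mul (hR.norm.pow 2)).add ((hAc.norm.pow 2).div_const _))).div_const _
    · intro t _
      rw [norm_mul]
      have g2 : 0 ≤ (C * ‖R t‖ - ‖A t‖) ^ 2 / C := by positivity
      have g3 : (C * ‖R t‖ - ‖A t‖) ^ 2 / C = C * ‖R t‖ ^ 2 + ‖A t‖ ^ 2 / C - 2 * (‖R t‖ * ‖A t‖) := by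
        field_simp
        ring
      linarith
  have h4 : ∫ t in (0:ℝ)..S, (C * ‖R t‖ ^ 2 + ‖A t‖ ^ 2 / C) / 2 =
      (C * (∫ t in (0:ℝ)..S, ‖R t‖ ^ 2) + (∫ t in (0:ℝ)..S, ‖A t‖ ^ 2) / C) / 2 := by
    rw [intervalIntegral.integral_div, intervalIntegral.integral_add,
      intervalIntegral.integral_const_mul, intervalIntegral.integral_div]
    · exact (continuous_const.mul (hR.norm.pow 2)).intervalIntegrable _ _
    · exact ((hAc.norm.pow 2).div_const _).intervalIntegrable _ _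
  have h5 : (∫ t in (0:ℝ)..S, ‖A t‖ ^ 2) / C ≤ Q := by
    rw [div_le_iff₀ hC]; linarith
  rw [h4] at h3
  change Q ≤ _
  linarith

lemma partBL {C1 C2 : ℝ} (hC1 : 0 < C1) (hC2 : 0 < C2)
    (hMV : ∀ (w H : ℝ) (X : ℕ) (a : ℕ → ℂ), 0 ≤ H → 1 ≤ X →
      ∫ u in w..(w + H), ‖∑ n ∈ Finset.Icc 1 X, a n * (n : ℂ) ^ (-(I * (u : ℂ)))‖ ^ 2 ≤
        C1 * (1 + Real.log X) ^ 2 * ∑ n ∈ Finset.Icc 1 X, (H + n) * ‖a n‖ ^ 2)
    {L H u S : ℝ} {N X : ℕ} {R : ℝ → ℂ}
    (hMVD : ∑ n ∈ Finset.Icc 1 X, ‖∫ t in (0:ℝ)..S, R t * (n : ℂ) ^ (-(I * t))‖ ^ 2 / (L + n) ≤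
        C2 * (1 + Real.log X) ^ 2 * ∫ t in (0:ℝ)..S, ‖R t‖ ^ 2)
    (hL : 0 < L) (hH : 0 ≤ H) (hN : 1 ≤ N) (hNX : N ≤ X) (hR : Continuous R) :
    ∫ y in u..(u + H), ‖∫ t in (0:ℝ)..S, (PN X (t + y) - PN N (t + y)) * R t‖ ^ 2 ≤
      C1 * (1 + Real.log X) ^ 2 * ((H * L / N + H + L + X) *
        (C2 * (1 + Real.log X) ^ 2 * ∫ t in (0:ℝ)..S, ‖R t‖ ^ 2)) := by
  have hN0 : (0 : ℝ) < N := by exact_mod_cast hN
  simp only [inner_eq hR hNX]
  have h2 := hMV u H X (fun n => bb N n * ∫ t in (0:ℝ)..S, R t * (n : ℂ) ^ (-(I * t))) hH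
    (hN.trans hNX)
  refine h2.trans ?_
  refine mul_le_mul_of_nonneg_left ?_ (by positivity)
  refine le_trans ?_ (mul_le_mul_of_nonneg_left hMVD (by positivity : 0 ≤ (H * L / N + H + L + X)))
  rw [Finset.mul_sum]
  refine Finset.sum_le_sum fun n hn => ?_
  have hn1 : (1 : ℝ) ≤ n := by exact_mod_cast (Finset.mem_Icc.1 hn).1
  have hnX : (n : ℝ) ≤ X := by exact_mod_cast (Finset.mem_Icc.1 hn).2
  set c : ℂ := ∫ t in (0:ℝ)..S, R t * (n : ℂ) ^ (-(I * t)) with hc
  rw [norm_mul, mul_pow]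
  have hTn : 0 < L + n := by linarith
  by_cases h : N < n
  · rw [norm_bb h]
    have hNn : (N : ℝ) ≤ n := by exact_mod_cast h.le
    have hkey : (H + n) * (L + n) / n ≤ H * L / N + H + L + X := by
      have a1 : H * L / n ≤ H * L / N := by gcongr
      have a2 : (H + n) * (L + n) / n = H * L / n + H + L + n := by
        field_simp
        ring
      rw [a2]
      linarith
    have h5 : (H + n) * (1 / n * ‖c‖ ^ 2) = (H + n) * (L + n) / n * (‖c‖ ^ 2 / (L + n)) := by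
      field_simp
    rw [h5]
    exact mul_le_mul_of_nonneg_right hkey (by positivity)
  · unfold bb
    rw [if_neg h]
    simp only [norm_zero]
    have : (H + ↑n) * (0 ^ 2 * ‖c‖ ^ 2) = 0 := by ring
    rw [this]
    positivity

/-- OPL -/
theorem pOPL : ∃ C T₀ : ℝ, 0 < C ∧ 3 ≤ T₀ ∧ ∀ (T H L u S : ℝ) (N : ℕ) (R : ℝ → ℂ), T₀ ≤ T →
    1 ≤ H → 0 ≤ u → u + H ≤ T → 0 < L → L ≤ T → 0 ≤ S → S ≤ L → 1 ≤ N → (N : ℝ) ≤ T →
    Continuous R →
    ∫ y in (0:ℝ)..H, ‖∫ t in (0:ℝ)..S, (z (t + (u + y)) - PN N (t + (u + y))) * R t‖ ^ 2 ≤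
      C * Real.log T ^ 4 * (H * L / N + T) * ∫ t in (0:ℝ)..S, ‖R t‖ ^ 2 := by
  obtain ⟨C1, hC1, h1⟩ := pMVW
  obtain ⟨C2, hC2, h2⟩ := pMVDW
  obtain ⟨C3, T3, hC3, hT3, h3⟩ := Pool.Agent.TH236.GF.t_OQ Pool.Agent.TH321.GF.t_AQ
  refine ⟨2 * C3 + 3072 * C1 * C2, max T3 4, by positivity, ?_, ?_⟩
  · exact le_max_of_le_right (by norm_num)
  intro T H L u S N R hT hH hu huH hL hLT hS hSL hN hNT hR
  have hTT3 : T3 ≤ T := (le_max_left _ _).trans hT
  have hT4 : 4 ≤ T := (le_max_right _ _).trans hT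
  have hT1 : 1 ≤ T := by linarith
  have hT0 : 0 < T := by linarith
  have hH0 : 0 ≤ H := by linarith
  have hST : S ≤ T := hSL.trans hLT
  have hN0 : (0 : ℝ) < N := by exact_mod_cast hN
  obtain ⟨X, hX⟩ : ∃ X : ℕ, X = ⌈2 * T⌉₊ := ⟨_, rfl⟩
  have hX1 : 2 * T ≤ X := by rw [hX]; exact Nat.le_ceil _
  have hX2 : (X : ℝ) ≤ 4 * T := by
    have := Nat.ceil_lt_add_one (a := 2 * T) (by positivity)
    rw [← hX] at this
    linarith
  have hNX : N ≤ X := by
    have : (N : ℝ) ≤ X := by linarith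
    exact_mod_cast this
  have hX0 : (0:ℝ) < X := by linarith
  have hX1' : 1 ≤ X := hN.trans hNX
  have hlog : 1 ≤ Real.log T := by
    rw [Real.le_log_iff_exp_le hT0]
    have := Real.exp_one_lt_d9
    linarith
  have hlogX : 1 + Real.log X ≤ 4 * Real.log T := by
    have a1 : Real.log X ≤ Real.log (4 * T) := Real.log_le_log hX0 hX2
    rw [Real.log_mul (by norm_num) (by positivity)] at a1
    have a2 : Real.log 4 = 2 * Real.log 2 := by
      rw [show (4:ℝ) = 2 ^ 2 by norm_num, Real.log_pow]; norm_num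
    have a3 := Real.log_two_lt_d9
    linarith
  have hlogX0 : 0 ≤ 1 + Real.log X := by
    have : 0 ≤ Real.log X := Real.log_nonneg (by linarith)
    linarith
  have he : Continuous fun v => z v - PN X v := cont_z.sub (cont_PN X)
  have hd : Continuous fun v => PN X v - PN N v := (cont_PN X).sub (cont_PN N)
  have p1 := h3 T S X R hTT3 hS hST hX1 hX2 hR
  have p2 := partBL (u := u) hC1 hC2 h1 (h2 L S X R hL hS hSL hX1' hR) hL hH0 hN hNX hR
  set W := ∫ t in (0:ℝ)..S, ‖R t‖ ^ 2 with hW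
  have hW0 : 0 ≤ W := intervalIntegral.integral_nonneg hS fun _ _ => by positivity
  have p1' : ∫ y in u..(u + H), ‖∫ t in (0:ℝ)..S, (z (t + y) - PN X (t + y)) * R t‖ ^ 2 ≤
      C3 * (T * Real.log T ^ 2) * W := by
    refine le_trans ?_ p1
    exact intervalIntegral.integral_mono_interval hu (by linarith) huH
      (Eventually.of_forall fun _ => by positivity)
      (((conv_cont he hR S).norm.pow 2).intervalIntegrable _ _)
  have hsplit : ∀ y : ℝ, ‖∫ t in (0:ℝ)..S, (z (t + y) - PN N (t + y)) * R t‖ ^ 2 ≤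
      2 * ‖∫ t in (0:ℝ)..S, (z (t + y) - PN X (t + y)) * R t‖ ^ 2 +
      2 * ‖∫ t in (0:ℝ)..S, (PN X (t + y) - PN N (t + y)) * R t‖ ^ 2 := by
    intro y
    have ht : Continuous fun t : ℝ => t + y := continuous_id.add continuous_const
    have a1 : ∫ t in (0:ℝ)..S, (z (t + y) - PN N (t + y)) * R t =
        (∫ t in (0:ℝ)..S, (z (t + y) - PN X (t + y)) * R t) +
        ∫ t in (0:ℝ)..S, (PN X (t + y) - PN N (t + y)) * R t := by
      rw [← intervalIntegral.integral_add]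
      · exact intervalIntegral.integral_congr fun t _ => by ring
      · exact ((he.comp ht).mul hR).intervalIntegrable _ _
      · exact ((hd.comp ht).mul hR).intervalIntegrable _ _
    rw [a1]
    have a2 := norm_add_le (∫ t in (0:ℝ)..S, (z (t + y) - PN X (t + y)) * R t)
      (∫ t in (0:ℝ)..S, (PN X (t + y) - PN N (t + y)) * R t)
    refine (pow_le_pow_left₀ (norm_nonneg _) a2 2).trans ?_
    nlinarith [sq_nonneg (‖∫ t in (0:ℝ)..S, (z (t + y) - PN X (t + y)) * R t‖ -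
      ‖∫ t in (0:ℝ)..S, (PN X (t + y) - PN N (t + y)) * R t‖)]
  have e0 : ∫ y in (0:ℝ)..H, ‖∫ t in (0:ℝ)..S, (z (t + (u + y)) - PN N (t + (u + y))) * R t‖ ^ 2 =
      ∫ y in u..(u + H), ‖∫ t in (0:ℝ)..S, (z (t + y) - PN N (t + y)) * R t‖ ^ 2 := by
    rw [intervalIntegral.integral_comp_add_left (fun y => ‖∫ t in (0:ℝ)..S,
      (z (t + y) - PN N (t + y)) * R t‖ ^ 2) u, add_zero]
  rw [e0]
  have q1 : IntervalIntegrable (fun y : ℝ => 2 * ‖∫ t in (0:ℝ)..S,
      (z (t + y) - PN X (t + y)) * R t‖ ^ 2) volume u (u + H) :=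
    (((conv_cont he hR S).norm.pow 2).const_mul 2).intervalIntegrable _ _
  have q2 : IntervalIntegrable (fun y : ℝ => 2 * ‖∫ t in (0:ℝ)..S,
      (PN X (t + y) - PN N (t + y)) * R t‖ ^ 2) volume u (u + H) :=
    (((conv_cont hd hR S).norm.pow 2).const_mul 2).intervalIntegrable _ _
  have q3 : IntervalIntegrable (fun y : ℝ => ‖∫ t in (0:ℝ)..S,
      (z (t + y) - PN N (t + y)) * R t‖ ^ 2) volume u (u + H) :=
    ((conv_cont (cont_z.sub (cont_PN N)) hR S).norm.pow 2).intervalIntegrable _ _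
  have q4 := intervalIntegral.integral_mono_on (by linarith) q3 (q1.add q2) fun y _ => hsplit y
  rw [intervalIntegral.integral_add q1 q2, intervalIntegral.integral_const_mul,
    intervalIntegral.integral_const_mul] at q4
  have hHLN : 0 ≤ H * L / N := by positivity
  have q5 : C3 * (T * Real.log T ^ 2) * W ≤ C3 * Real.log T ^ 4 * (H * L / N + T) * W := by
    have b1 : Real.log T ^ 2 ≤ Real.log T ^ 4 := pow_le_pow_right₀ hlog (by norm_num)
    have b2 : T ≤ H * L / N + T := by linarith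
    refine mul_le_mul_of_nonneg_right ?_ hW0
    calc C3 * (T * Real.log T ^ 2) = C3 * Real.log T ^ 2 * T := by ring
      _ ≤ C3 * Real.log T ^ 4 * (H * L / N + T) := by gcongr
  have q6 : C1 * (1 + Real.log X) ^ 2 * ((H * L / N + H + L + X) *
      (C2 * (1 + Real.log X) ^ 2 * W)) ≤
      1536 * C1 * C2 * Real.log T ^ 4 * (H * L / N + T) * W := by
    have b4 : H * L / N + H + L + X ≤ 6 * (H * L / N + T) := by nlinarith
    calc C1 * (1 + Real.log X) ^ 2 * ((H * L / N + H + L + X) * (C2 * (1 + Real.log X) ^ 2 * W))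
        ≤ C1 * (4 * Real.log T) ^ 2 * ((6 * (H * L / N + T)) * (C2 * (4 * Real.log T) ^ 2 * W)) := by
          gcongr
      _ = _ := by ring
  have q7 : (2 * C3 + 3072 * C1 * C2) * Real.log T ^ 4 * (H * L / N + T) * W =
      2 * (C3 * Real.log T ^ 4 * (H * L / N + T) * W) +
      2 * (1536 * C1 * C2 * Real.log T ^ 4 * (H * L / N + T) * W) := by ring
  rw [q7]
  linarith

end

end Pool.Agent.T2H54.SB
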