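import Pool.Agent.T2H54.SB.MVW
import Pool.Agent.TH236.GF.OQ
import Pool.Agent.TH321.GF.AQ
import Pool.Agent.TH928.GS.MV
import Pool.Agent.TH503.GS.MVD

set_option autoImplicit false

/-! Project SB: zeta minus a short Dirichlet polynomial, as a convolution operator on a window. -/

namespace Pool.Agent.T2H54.SB

open Complex Filter Topology MeasureTheory Set
open Pool.Agent.TH612.GS
open Pool.Agent.TH889.GS (bb diff_eq norm_bb cont_cpow cont_z cont_PN)

noncomputable section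

lemma inner_eq {R : ℝ → ℂ} (hR : Continuous R) {N X : ℕ} (hNX : N ≤ X) (S y : ℝ) :
    ∫ t in (0:ℝ)..S, (PN X (t + y) - PN N (t + y)) * R t =
      ∑ n ∈ Finset.Icc 1 X, (bb N n * ∫ t in (0:ℝ)..S, R t * (n : ℂ) ^ (-(I * t))) *
        (n : ℂ) ^ (-(I * y)) := by
  have h1 : ∀ t : ℝ, (PN X (t + y) - PN N (t + y)) * R t =
      ∑ n ∈ Finset.Icc 1 X, (bb N n * (n : ℂ) ^ (-(I * y))) * (R t * (n : ℂ) ^ (-(I * t))) := by
    intro t
    rw [diff_eq hNX, Finset.sum_mul]
    exact Finset.sum_congr rfl fun n _ => by ring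
  simp only [h1]
  rw [intervalIntegral.integral_finsetSum]
  · refine Finset.sum_congr rfl fun n _ => ?_
    rw [intervalIntegral.integral_const_mul]
    ring
  · intro n hn
    have hn1 := (Finset.mem_Icc.1 hn).1
    exact ((hR.mul (cont_cpow hn1)).const_mul _).intervalIntegrable _ _

lemma conv_cont {g R : ℝ → ℂ} (hg : Continuous g) (hR : Continuous R) (S : ℝ) :
    Continuous fun y : ℝ => ∫ t in (0:ℝ)..S, g (t + y) * R t := by
  have hF : Continuous (Function.uncurry fun (y t : ℝ) => g (t + y) * R t) := by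
    have h1 : Continuous fun p : ℝ × ℝ => p.2 + p.1 := continuous_snd.add continuous_fst
    exact (hg.comp h1).mul (hR.comp continuous_snd)
  exact intervalIntegral.continuous_parametric_intervalIntegral_of_continuous' hF 0 S

lemma partB {C1 C2 : ℝ} (hC1 : 0 < C1)
    (hMV : ∀ (w H : ℝ) (X : ℕ) (a : ℕ → ℂ), 0 ≤ H → 1 ≤ X →
      ∫ u in w..(w + H), ‖∑ n ∈ Finset.Icc 1 X, a n * (n : ℂ) ^ (-(I * (u : ℂ)))‖ ^ 2 ≤
        C1 * (1 + Real.log X) ^ 2 * ∑ n ∈ Finset.Icc 1 X, (H + n) * ‖a n‖ ^ 2)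
    {T H u S : ℝ} {N X : ℕ} {R : ℝ → ℂ}
    (hMVD : ∑ n ∈ Finset.Icc 1 X, ‖∫ t in (0:ℝ)..S, R t * (n : ℂ) ^ (-(I * t))‖ ^ 2 / (T + n) ≤
        C2 * ∫ t in (0:ℝ)..S, ‖R t‖ ^ 2)
    (hT : 3 ≤ T) (hH : 0 ≤ H) (hN : 1 ≤ N) (hNX : N ≤ X)
    (hX4 : (X : ℝ) ≤ 4 * T) (hR : Continuous R) :
    ∫ y in u..(u + H), ‖∫ t in (0:ℝ)..S, (PN X (t + y) - PN N (t + y)) * R t‖ ^ 2 ≤
      C1 * (1 + Real.log X) ^ 2 * ((1 + H / N) * (5 * T) * (C2 * ∫ t in (0:ℝ)..S, ‖R t‖ ^ 2)) := by
  have hT0 : 0 < T := by linarith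
  have hN0 : (0 : ℝ) < N := by exact_mod_cast hN
  simp only [inner_eq hR hNX]
  have h2 := hMV u H X (fun n => bb N n * ∫ t in (0:ℝ)..S, R t * (n : ℂ) ^ (-(I * t))) hH
    (hN.trans hNX)
  refine h2.trans ?_
  refine mul_le_mul_of_nonneg_left ?_ (by positivity)
  refine le_trans ?_ (mul_le_mul_of_nonneg_left hMVD (by positivity : 0 ≤ (1 + H / N) * (5 * T)))
  rw [Finset.mul_sum]
  refine Finset.sum_le_sum fun n hn => ?_
  have hn1 : (1 : ℝ) ≤ n := by exact_mod_cast (Finset.mem_Icc.1 hn).1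
  have hnX : (n : ℝ) ≤ X := by exact_mod_cast (Finset.mem_Icc.1 hn).2
  set c : ℂ := ∫ t in (0:ℝ)..S, R t * (n : ℂ) ^ (-(I * t)) with hc
  rw [norm_mul, mul_pow]
  have hTn : 0 < T + n := by linarith
  by_cases h : N < n
  · rw [norm_bb h]
    have hNn : (N : ℝ) ≤ n := by exact_mod_cast h.le
    have hkey : (H + n) * (T + n) / n ≤ (1 + H / N) * (5 * T) := by
      have a1 : (H + n) / n ≤ 1 + H / N := by
        rw [add_div, div_self (by linarith), add_comm]
        gcongr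
      have a2 : T + n ≤ 5 * T := by linarith
      calc (H + n) * (T + n) / n = (H + n) / n * (T + n) := by ring
        _ ≤ (1 + H / N) * (5 * T) := by gcongr
    have h5 : (H + n) * (1 / n * ‖c‖ ^ 2) = (H + n) * (T + n) / n * (‖c‖ ^ 2 / (T + n)) := by
      field_simp
    rw [h5]
    exact mul_le_mul_of_nonneg_right hkey (by positivity)
  · unfold bb
    rw [if_neg h]
    simp only [norm_zero]
    have : (H + ↑n) * (0 ^ 2 * ‖c‖ ^ 2) = 0 := by ring
    rw [this]
    positivity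

theorem pOPU : S_OPU := by
  obtain ⟨C1, hC1, h1⟩ := pMVW
  obtain ⟨C2, hC2, h2⟩ := Pool.Agent.TH503.GS.t_MVD Pool.Agent.TH928.GS.t_MV
  obtain ⟨C3, T3, hC3, hT3, h3⟩ := Pool.Agent.TH236.GF.t_OQ Pool.Agent.TH321.GF.t_AQ
  refine ⟨2 * C3 + 160 * C1 * C2, max T3 4, by positivity, ?_, ?_⟩
  · exact le_max_of_le_right (by norm_num)
  intro T H u S N R hT hH hu huH hS hST hN hNT hR
  have hTT3 : T3 ≤ T := (le_max_left _ _).trans hT
  have hT4 : 4 ≤ T := (le_max_right _ _).trans hT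
  have hT1 : 1 ≤ T := by linarith
  have hT0 : 0 < T := by linarith
  have hH0 : 0 ≤ H := by linarith
  have hN0 : (0 : ℝ) < N := by exact_mod_cast hN
  obtain ⟨X, hX⟩ : ∃ X : ℕ, X = ⌈2 * T⌉₊ := ⟨_, rfl⟩
  have hX1 : 2 * T ≤ X := by rw [hX]; exact Nat.le_ceil _
  have hX2 : (X : ℝ) ≤ 4 * T := by
    have := Nat.ceil_lt_add_one (a := 2 * T) (by positivity)
    rw [← hX] at this
    linarith
  have hXT : (X : ℝ) ≤ T ^ 2 := by nlinarith
  have hNX : N ≤ X := by
    have : (N : ℝ) ≤ X := by linarith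
    exact_mod_cast this
  have hX0 : (0:ℝ) < X := by linarith
  have hlog : 1 ≤ Real.log T := by
    rw [Real.le_log_iff_exp_le hT0]
    have := Real.exp_one_lt_d9
    linarith
  have hlogX : 1 + Real.log X ≤ 4 * Real.log T := by
    have a1 : Real.log X ≤ Real.log (4 * T) := Real.log_le_log hX0 hX2
    rw [Real.log_mul (by norm_num) (by positivity)] at a1
    have a2 : Real.log 4 = 2 * Real.log 2 := by
      rw [show (4:ℝ) = 2 ^ 2 by norm_num, Real.log_pow]; norm_num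
    have a3 := Real.log_two_lt_d9
    linarith
  have hlogX0 : 0 ≤ 1 + Real.log X := by
    have : 0 ≤ Real.log X := Real.log_nonneg (by linarith)
    linarith
  have he : Continuous fun v => z v - PN X v := cont_z.sub (cont_PN X)
  have hd : Continuous fun v => PN X v - PN N v := (cont_PN X).sub (cont_PN N)
  have p1 := h3 T S X R hTT3 hS hST hX1 hX2 hR
  have p2 := partB (u := u) hC1 h1 (h2 T S X R hT1 hS hST hXT hR) (by linarith) hH0 hN hNX hX2 hR
  set W := ∫ t in (0:ℝ)..S, ‖R t‖ ^ 2 with hW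
  have hW0 : 0 ≤ W := intervalIntegral.integral_nonneg hS fun _ _ => by positivity
  have p1' : ∫ y in u..(u + H), ‖∫ t in (0:ℝ)..S, (z (t + y) - PN X (t + y)) * R t‖ ^ 2 ≤
      C3 * (T * Real.log T ^ 2) * W := by
    refine le_trans ?_ p1
    exact intervalIntegral.integral_mono_interval hu (by linarith) huH
      (Eventually.of_forall fun _ => by positivity)
      (((conv_cont he hR S).norm.pow 2).intervalIntegrable _ _)
  have hsplit : ∀ y : ℝ, ‖∫ t in (0:ℝ)..S, (z (t + y) - PN N (t + y)) * R t‖ ^ 2 ≤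
      2 * ‖∫ t in (0:ℝ)..S, (z (t + y) - PN X (t + y)) * R t‖ ^ 2 +
      2 * ‖∫ t in (0:ℝ)..S, (PN X (t + y) - PN N (t + y)) * R t‖ ^ 2 := by
    intro y
    have ht : Continuous fun t : ℝ => t + y := continuous_id.add continuous_const
    have a1 : ∫ t in (0:ℝ)..S, (z (t + y) - PN N (t + y)) * R t =
        (∫ t in (0:ℝ)..S, (z (t + y) - PN X (t + y)) * R t) +
        ∫ t in (0:ℝ)..S, (PN X (t + y) - PN N (t + y)) * R t := by
      rw [← intervalIntegral.integral_add]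
      · exact intervalIntegral.integral_congr fun t _ => by ring
      · exact ((he.comp ht).mul hR).intervalIntegrable _ _
      · exact ((hd.comp ht).mul hR).intervalIntegrable _ _
    rw [a1]
    have a2 := norm_add_le (∫ t in (0:ℝ)..S, (z (t + y) - PN X (t + y)) * R t)
      (∫ t in (0:ℝ)..S, (PN X (t + y) - PN N (t + y)) * R t)
    refine (pow_le_pow_left₀ (norm_nonneg _) a2 2).trans ?_
    nlinarith [sq_nonneg (‖∫ t in (0:ℝ)..S, (z (t + y) - PN X (t + y)) * R t‖ -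
      ‖∫ t in (0:ℝ)..S, (PN X (t + y) - PN N (t + y)) * R t‖)]
  have e0 : ∫ y in (0:ℝ)..H, ‖∫ t in (0:ℝ)..S, (z (t + (u + y)) - PN N (t + (u + y))) * R t‖ ^ 2 =
      ∫ y in u..(u + H), ‖∫ t in (0:ℝ)..S, (z (t + y) - PN N (t + y)) * R t‖ ^ 2 := by
    rw [intervalIntegral.integral_comp_add_left (fun y => ‖∫ t in (0:ℝ)..S,
      (z (t + y) - PN N (t + y)) * R t‖ ^ 2) u, add_zero]
  rw [e0]
  have q1 : IntervalIntegrable (fun y : ℝ => 2 * ‖∫ t in (0:ℝ)..S,
      (z (t + y) - PN X (t + y)) * R t‖ ^ 2) volume u (u + H) :=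
    (((conv_cont he hR S).norm.pow 2).const_mul 2).intervalIntegrable _ _
  have q2 : IntervalIntegrable (fun y : ℝ => 2 * ‖∫ t in (0:ℝ)..S,
      (PN X (t + y) - PN N (t + y)) * R t‖ ^ 2) volume u (u + H) :=
    (((conv_cont hd hR S).norm.pow 2).const_mul 2).intervalIntegrable _ _
  have q3 : IntervalIntegrable (fun y : ℝ => ‖∫ t in (0:ℝ)..S,
      (z (t + y) - PN N (t + y)) * R t‖ ^ 2) volume u (u + H) :=
    ((conv_cont (cont_z.sub (cont_PN N)) hR S).norm.pow 2).intervalIntegrable _ _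
  have q4 := intervalIntegral.integral_mono_on (by linarith) q3 (q1.add q2) fun y _ => hsplit y
  rw [intervalIntegral.integral_add q1 q2, intervalIntegral.integral_const_mul,
    intervalIntegral.integral_const_mul] at q4
  have hHN : 1 ≤ 1 + H / N := by
    have : 0 ≤ H / N := by positivity
    linarith
  have q5 : C3 * (T * Real.log T ^ 2) * W ≤ C3 * Real.log T ^ 4 * (T * (1 + H / N)) * W := by
    have b1 : Real.log T ^ 2 ≤ Real.log T ^ 4 := pow_le_pow_right₀ hlog (by norm_num)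
    have b2 : T ≤ T * (1 + H / N) := by nlinarith
    refine mul_le_mul_of_nonneg_right ?_ hW0
    calc C3 * (T * Real.log T ^ 2) = C3 * Real.log T ^ 2 * T := by ring
      _ ≤ C3 * Real.log T ^ 4 * (T * (1 + H / N)) := by gcongr
  have q6 : C1 * (1 + Real.log X) ^ 2 * ((1 + H / N) * (5 * T) * (C2 * W)) ≤
      80 * C1 * C2 * Real.log T ^ 4 * (T * (1 + H / N)) * W := by
    have b1 : Real.log T ^ 2 ≤ Real.log T ^ 4 := pow_le_pow_right₀ hlog (by norm_num)
    have b3 : (1 + Real.log X) ^ 2 ≤ 16 * Real.log T ^ 4 := by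
      calc (1 + Real.log X) ^ 2 ≤ (4 * Real.log T) ^ 2 := by gcongr
        _ = 16 * Real.log T ^ 2 := by ring
        _ ≤ _ := by linarith
    calc C1 * (1 + Real.log X) ^ 2 * ((1 + H / N) * (5 * T) * (C2 * W))
        ≤ C1 * (16 * Real.log T ^ 4) * ((1 + H / N) * (5 * T) * (C2 * W)) := by gcongr
      _ = _ := by ring
  have q7 : (2 * C3 + 160 * C1 * C2) * Real.log T ^ 4 * (T * (1 + H / N)) * W =
      2 * (C3 * Real.log T ^ 4 * (T * (1 + H / N)) * W) +
      2 * (80 * C1 * C2 * Real.log T ^ 4 * (T * (1 + H / N)) * W) := by ring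
  rw [q7]
  linarith

end

end Pool.Agent.T2H54.SB
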