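import Pool.Agent.TH612.GS.Stm3

set_option autoImplicit false

/-!
Project SB (helper54), MP_fa2474_nt: for almost all shift vectors in the cube `[0,H]^{2k}`,
`T^{κ-η} ≤ H ≤ T`, the shifted moments of zeta of order `2k` follow the recipe with a power saving
(the starting file `GenericShifts` is the case `H = T`). `κ` is any exponent for which the mean
square of zeta over short intervals is known: package V2 (`κ = 1/2`), package V3 (`κ = 1/3`).
-/

namespace Pool.Agent.T2H54.SB

open Complex Filter Topology MeasureTheory Set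
open Pool.Agent.TH612.GS

noncomputable section

/-- mean square of zeta over short intervals, exponent `κ` -/
def S_SH (κ : ℝ) : Prop := ∀ ε : ℝ, 0 < ε → ∃ C T₀ : ℝ, 0 < C ∧ 2 ≤ T₀ ∧ ∀ T H t : ℝ, T₀ ≤ T →
  1 ≤ H → H ≤ T → 0 ≤ t → t ≤ T →
  ∫ y in (0:ℝ)..H, ‖z (t + y)‖ ^ 2 ≤ C * T ^ ε * (H + T ^ κ)

/-- V2. Proof: by the approximate functional equation `Pool.Agent.Y969.GP.S_AFE` (proved:
`Pool.Agent.Y891.GP.*`) `‖z u‖² = ff u` is `PX X u + O(u^(-1/2+ε))` for `u^(1+ε) ≤ X`, and by `S_CR`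
`PX X u = ∑ p ∈ FR X, cr X p u * exp(i u lam p)` with `|cr|, |u cr'| ≤ C (1 + log X) ht^(-1/2)`.
Integrate by parts over `[t, t+H]`: `∑ p, ht(p)^(-1/2) min(H, 1/|lam p|)`, and
`S_SP` (`∑ p ∈ FR Y, mk H (lam p) ≤ C (H+Y)(1+log Y)`) over dyadic heights: `≤ C (H + X^(1/2)) log² X`. -/
def S_V2 : Prop := S_SH (1 / 2)

/-- V3. The exponent `1/3` (classical, Balasubramanian, Heath-Brown, Atkinson; here with `T^ε`).
It is enough to treat `H = T^(1/3)` (cover `[0,H]` by intervals of this length, or extend it), and a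
smooth majorant of the interval: `∑_k ∫ w ...`. In
`∫ w((u-t)/H) PX X u du` (`w` a Gaussian or smooth bump) the terms with `|lam p| ≥ T^ε/H` are negligible (integrate by parts twice,
or Gaussian decay), the term `p = (1,1)` gives `H T^ε`. The others have `p = (m, n)`, `m ≠ n`,
`|n - m| ≤ m T^ε / H`, `m ≤ X^(1/2)`. For fixed `d = n - m` (all pairs, before grouping into reduced
fractions, `PX` is a sum over `PS X`) the sum over `m ~ M` of `(mn)^(-1/2) V(..) exp(i u log(1+d/m))` is by partial summation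
and the second derivative test (`f(m) = u log(1 + d/m)`, `|f''| ≍ u d / M^3`) at most
`M^(-1) (M (Td/M^3)^(1/2) + (Td/M^3)^(-1/2)) T^ε`; sum over `d ≤ M T^ε / H`, `M ≤ T^(1/2+ε)` dyadic, times `H`:
`≤ T^ε (H + T^(1/2) H^(-1/2))`, which is `T^(1/3+ε)` for `H = T^(1/3)`.
(Any other proof is fine.) -/
def S_V3 : Prop := S_SH (1 / 3)

end

end Pool.Agent.T2H54.SB
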