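import Pool.Agent.T2H54.SB.Stm

set_option autoImplicit false

/-!
Project SB (helper54), MP_fa2474_nt, statements for boxes `∏ [U i, U i + H]` anywhere in
`[0,T]^{2k}` (side `H ≥ T^{κ-η}`). All are versions with translation `γ ↦ U + γ` of statements of
`Pool.Agent.TH612.GS` (which have `U = 0`, `H = T`), whose proofs are in the starting files.
-/

namespace Pool.Agent.T2H54.SB

open Complex Filter Topology MeasureTheory Set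
open Pool.Agent.TH612.GS

noncomputable section

/-- MVW: mean value theorem on a window (from the dyadic one `Pool.Agent.TH751.GF.msq`) -/
def S_MVW : Prop := ∃ C : ℝ, 0 < C ∧ ∀ (w H : ℝ) (X : ℕ) (a : ℕ → ℂ), 0 ≤ H → 1 ≤ X →
  ∫ u in w..(w + H), ‖∑ n ∈ Finset.Icc 1 X, a n * (n : ℂ) ^ (-(I * (u : ℂ)))‖ ^ 2 ≤
    C * (1 + Real.log X) ^ 2 * ∑ n ∈ Finset.Icc 1 X, (H + n) * ‖a n‖ ^ 2

/-- OPU: zeta minus a short Dirichlet polynomial, as a convolution operator on a short window -/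
def S_OPU : Prop := ∃ C T₀ : ℝ, 0 < C ∧ 3 ≤ T₀ ∧ ∀ (T H u S : ℝ) (N : ℕ) (R : ℝ → ℂ), T₀ ≤ T →
  1 ≤ H → 0 ≤ u → u + H ≤ T → 0 ≤ S → S ≤ T → 1 ≤ N → (N : ℝ) ≤ T → Continuous R →
  ∫ y in (0:ℝ)..H, ‖∫ t in (0:ℝ)..S, (z (t + (u + y)) - PN N (t + (u + y))) * R t‖ ^ 2 ≤
    C * Real.log T ^ 4 * (T * (1 + H / N)) * ∫ t in (0:ℝ)..S, ‖R t‖ ^ 2

/-- SSU: `S_SS` (proved in `Pool.Agent.TH367.GS.SS`) on a translated box. The proof is the same: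
`ch ν (U + γ) = ch ν U * ch ν γ` for `ν ∈ tup k N` and `‖ch ν U‖ = 1`, so `S_FL2`
(`Pool.Agent.TH448.GS.t_FL2`) with the coefficients `c ν * ch ν U`. -/
def S_SSU : Prop := ∀ (k : ℕ) (ψ : ℝ → ℝ), Cut ψ → ∃ C : ℝ, 0 < C ∧ ∀ (H : ℝ) (N : ℕ)
  (U : Fin k ⊕ Fin k → ℝ), 2 ≤ N → 2 * (N : ℝ) ^ (4 * k + 2) ≤ H →
  ∫⁻ γ, ENNReal.ofReal (‖SN N (U + γ) - SP ψ N (U + γ)‖ ^ 2) ∂(mP (Fin k ⊕ Fin k) H) ≤
    ENNReal.ofReal (C * H ^ (2 * k) * (N : ℝ) ^ (-(1 / 8) : ℝ))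

/-- A4U: `S_A4` (proved in `Pool.Agent.TH347.GS.A4` from `S_CONT`, pointwise in `γ`, and `S_GL2`,
`Pool.Agent.TH753.GS.GL2`) on a translated box; same proofs, with `S_FL2` for the translated
characters as in SSU (`fl2_ee` of GL2 is the only place where `S_FL2` is used). -/
def S_A4U : Prop := ∀ (k : ℕ) (ψ : ℝ → ℝ), Cut ψ → ∃ (C : ℝ) (M₀ : ℕ), 0 < C ∧ 2 ≤ M₀ ∧
  ∀ (H : ℝ) (M : ℕ) (U : Fin k ⊕ Fin k → ℝ), M₀ ≤ M → 1 ≤ H → 2 * (M : ℝ) ^ (3 * k ^ 2) ≤ H →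
  ∫⁻ γ, ENNReal.ofReal (‖SP ψ M (U + γ) - GM M (U + γ) 0‖ ^ 2) ∂(mP (Fin k ⊕ Fin k) H) ≤
    ENNReal.ofReal (C * H ^ (2 * k) * (M : ℝ) ^ (-(1 / 8) : ℝ))

/-- the separated shift vectors of a box, in coordinates relative to the corner `U` -/
def SepU (k : ℕ) (H : ℝ) (U : Fin k ⊕ Fin k → ℝ) : Set (Fin k ⊕ Fin k → ℝ) :=
  {γ | (∀ i, 0 ≤ γ i ∧ γ i ≤ H) ∧
    ∀ p q, p ≠ q → H ^ (1 / 2 : ℝ) ≤ |(U p + γ p) - (U q + γ q)|}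

/-- NSU: `S_NS` (proved in `Pool.Agent.TH767.GS.NS`) on a translated box, same proof -/
def S_NSU : Prop := ∀ (k : ℕ) (H : ℝ) (U : Fin k ⊕ Fin k → ℝ), 1 ≤ H →
  mP (Fin k ⊕ Fin k) H (SepU k H U)ᶜ ≤ ENNReal.ofReal (8 * k ^ 2 * H ^ (2 * k - 1 / 2 : ℝ))

/-- ZMU: `S_ZM` (proved in `Pool.Agent.TH228.GS.ZM` from `S_ONE`, `Pool.Agent.TH811.GS.One`) on a
translated box. The same proof with two changes. (1) The integral over one coordinate (`fub`) is now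
over a window: for `p ≠ q` the integral over `γ p ∈ [0,H]` of
`1[H^(1/2) ≤ |v| ≤ T] ‖ζ(1+iv) - zN M (1+iv)‖²`, `v = U p + γ p - (U q + γ q)`, is at most the supremum
over `w` of the integral over the window `[w, w + H]`. (2) The integral over a window: by
`TH811.GS.approx` (`X = ⌊T²⌋`) and `zN_sub` the integrand is at most `2 (4/H^(1/2))² + 2 ‖P v‖²`,
`P v = ∑ n ≤ X, co M n n^(-iv)`, and `S_MVW` with `sum_co` gives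
`32 + C (1 + log X)² (H/M + 1 + log X) ≤ C' (log T)³ H / M`. -/
def S_ZMU : Prop := ∀ k : ℕ, ∃ (C T₀ : ℝ) (B : ℕ), 0 < C ∧ 3 ≤ T₀ ∧ ∀ (T H : ℝ) (M : ℕ)
  (U : Fin k ⊕ Fin k → ℝ), T₀ ≤ T → 3 ≤ H → (∀ i, 0 ≤ U i ∧ U i + H ≤ T) →
  1 ≤ M → (M : ℝ) ≤ H ^ (1 / 2 : ℝ) →
  ∫⁻ γ in SepU k H U, ENNReal.ofReal (‖GM M (U + γ) 0 - zr (U + γ)‖ ^ 2) ∂(mP (Fin k ⊕ Fin k) H) ≤
    ENNReal.ofReal (C * Real.log T ^ B * H ^ (2 * k) / M)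

end

end Pool.Agent.T2H54.SB
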