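import Pool.Agent.T2H54.SB.OPL
import Pool.Agent.T2H54.SB.Rep
import Pool.Agent.T2H54.SB.Chi
import Pool.Agent.TH612.GS.Asm3
import Pool.Agent.TH805.GS.SW

set_option autoImplicit false

/-! Project SB: the replacement of the factors and the swap terms on a box. -/

namespace Pool.Agent.T2H54.SB

open Complex Filter Topology MeasureTheory Set
open Pool.Agent.TH612.GS
open Pool.Agent.TH612.CF

noncomputable section

lemma z_shift_cont {f : ℝ → ℂ} (hf : Continuous f) (u : ℝ) : Continuous fun v : ℝ => f (u + v) :=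
  hf.comp (by fun_prop)

/-- mean squares on windows -/
lemma vb {κ : ℝ} (hκ0 : 0 ≤ κ) (hκ : κ ≤ 1) (hSH : S_SH κ) {ε : ℝ} (hε : 0 < ε) (hε1 : ε ≤ 1) :
    ∃ C T₀ : ℝ, 1 ≤ C ∧ 3 ≤ T₀ ∧ ∀ (T H v : ℝ) (N : ℕ), T₀ ≤ T → 1 ≤ H → H ≤ T → 0 ≤ v →
      v ≤ 2 * T → 1 ≤ N → (N:ℝ) ≤ H →
      (∫ y in (0:ℝ)..H, ‖z (v + y)‖ ^ 2 ≤ C * T ^ ε * (H + T ^ κ)) ∧
      (∫ y in (0:ℝ)..H, ‖PN N (v + y)‖ ^ 2 ≤ C * T ^ ε * (H + T ^ κ)) := by
  obtain ⟨C, T0, hC, hT0, h⟩ := hSH ε hε
  obtain ⟨C1, hC1, h1⟩ := pMVW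
  obtain ⟨T1, hT1⟩ := eventually_atTop.1 (log_ev (16 * C1) 3 hε)
  refine ⟨4 * C + 1, max T0 (max T1 3), by linarith, ?_, ?_⟩
  · exact le_max_of_le_right (le_max_right _ _)
  intro T H v N hT hH hHT hv hvT hN hNH
  have hTT0 : T0 ≤ T := (le_max_left _ _).trans hT
  have hT' := (le_max_right _ _).trans hT
  have hTT1 : T1 ≤ T := (le_max_left _ _).trans hT'
  have hT3 : 3 ≤ T := (le_max_right _ _).trans hT'
  have hTp : 0 < T := by linarith
  have hTe : 0 < T ^ ε := Real.rpow_pos_of_pos hTp _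
  have hTk : 0 < T ^ κ := Real.rpow_pos_of_pos hTp _
  have hN0 : (0:ℝ) < N := by exact_mod_cast hN
  have hN1 : (1:ℝ) ≤ N := by exact_mod_cast hN
  have h2le : ∀ {a : ℝ}, 0 ≤ a → a ≤ 1 → (2 * T) ^ a ≤ 2 * T ^ a := by
    intro a ha0 ha1
    rw [Real.mul_rpow (by norm_num) hTp.le]
    have : (2:ℝ) ^ a ≤ 2 := by
      calc (2:ℝ) ^ a ≤ 2 ^ (1:ℝ) := Real.rpow_le_rpow_of_exponent_le (by norm_num) ha1
        _ = 2 := Real.rpow_one 2
    have hTa : 0 ≤ T ^ a := (Real.rpow_pos_of_pos hTp _).le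
    exact mul_le_mul_of_nonneg_right this hTa
  constructor
  · have g := h (2 * T) H v (by linarith) hH (by linarith) hv hvT
    refine g.trans ?_
    have g1 := h2le hε.le hε1
    have g2 := h2le hκ0 hκ
    calc C * (2 * T) ^ ε * (H + (2 * T) ^ κ) ≤ C * (2 * T ^ ε) * (H + 2 * T ^ κ) := by gcongr
      _ ≤ C * (2 * T ^ ε) * (2 * (H + T ^ κ)) := by gcongr; linarith
      _ = 4 * C * T ^ ε * (H + T ^ κ) := by ring
      _ ≤ (4 * C + 1) * T ^ ε * (H + T ^ κ) := by gcongr; linarith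
  · have e : ∀ u : ℝ, PN N u = ∑ n ∈ Finset.Icc 1 N, (n : ℂ) ^ (-(1 / 2 : ℂ)) *
        (n : ℂ) ^ (-(I * (u : ℂ))) := by
      intro u
      unfold PN zN
      refine Finset.sum_congr rfl fun n hn => ?_
      have hn0 : (n : ℂ) ≠ 0 := by
        have := (Finset.mem_Icc.1 hn).1
        exact_mod_cast (by omega : n ≠ 0)
      rw [← Complex.cpow_add _ _ hn0]
      congr 1
      ring
    have e2 : ∫ y in (0:ℝ)..H, ‖PN N (v + y)‖ ^ 2 = ∫ y in v..(v + H), ‖PN N y‖ ^ 2 := by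
      rw [intervalIntegral.integral_comp_add_left (fun y => ‖PN N y‖ ^ 2) v, add_zero]
    rw [e2]
    simp_rw [e]
    refine (h1 v H N (fun n => (n : ℂ) ^ (-(1 / 2 : ℂ))) (by linarith) hN).trans ?_
    have g3 : ∀ n ∈ Finset.Icc 1 N, (H + n) * ‖(n : ℂ) ^ (-(1 / 2 : ℂ))‖ ^ 2 =
        H * (n : ℝ)⁻¹ + 1 := by
      intro n hn
      have hn0 : 0 < n := (Finset.mem_Icc.1 hn).1
      have hn0' : (0 : ℝ) < n := by exact_mod_cast hn0
      rw [Complex.norm_natCast_cpow_of_pos hn0, ← Real.rpow_natCast, ← Real.rpow_mul hn0'.le]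
      have e3 : (-(1 / 2 : ℂ)).re * ((2 : ℕ) : ℝ) = -1 := by
        norm_num
      rw [e3, Real.rpow_neg_one]
      field_simp
    rw [Finset.sum_congr rfl g3, Finset.sum_add_distrib, ← Finset.mul_sum]
    have g4 : ∑ n ∈ Finset.Icc 1 N, ((n : ℝ))⁻¹ ≤ 1 + Real.log N := by
      have := harmonic_le_one_add_log N
      rw [harmonic_eq_sum_Icc] at this
      push_cast at this
      exact this
    have hlog : 1 ≤ Real.log T := by
      rw [Real.le_log_iff_exp_le hTp]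
      have := Real.exp_one_lt_d9
      linarith
    have g5 : Real.log N ≤ Real.log T := Real.log_le_log hN0 (hNH.trans hHT)
    have g50 : 0 ≤ Real.log N := Real.log_nonneg hN1
    have g7 : ∑ n ∈ Finset.Icc 1 N, (1 : ℝ) = N := by simp
    rw [g7]
    have g8 := hT1 T hTT1
    have hH0 : 0 ≤ H := by linarith
    calc C1 * (1 + Real.log N) ^ 2 * (H * ∑ n ∈ Finset.Icc 1 N, ((n : ℝ))⁻¹ + N)
        ≤ C1 * (2 * Real.log T) ^ 2 * (H * (2 * Real.log T) + H * (2 * Real.log T)) := by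
          gcongr
          · linarith
          · linarith
          · nlinarith
      _ = (16 * C1 * Real.log T ^ 3) * H := by ring
      _ ≤ T ^ ε * (H + T ^ κ) := by gcongr; linarith
      _ ≤ (4 * C + 1) * T ^ ε * (H + T ^ κ) := by
          have : 0 ≤ C * (T ^ ε * (H + T ^ κ)) := by positivity
          nlinarith

/-- Z1 on a box -/
theorem z1L (k : ℕ) : ∃ C T₀ : ℝ, 0 < C ∧ 3 ≤ T₀ ∧ ∀ (T H L S V : ℝ) (N : ℕ)
    (U : Fin k ⊕ Fin k → ℝ), T₀ ≤ T → 1 ≤ H → (∀ i, 0 ≤ U i ∧ U i + H ≤ T) → 0 < L → L ≤ T →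
    0 ≤ S → S ≤ L → 1 ≤ N → (N:ℝ) ≤ T → 0 ≤ V →
    (∀ v, 0 ≤ v → v ≤ 2 * T → ∫ y in (0:ℝ)..H, ‖z (v + y)‖ ^ 2 ≤ V) →
    (∀ v, 0 ≤ v → v ≤ 2 * T → ∫ y in (0:ℝ)..H, ‖PN N (v + y)‖ ^ 2 ≤ V) →
    ∫⁻ γ, ENNReal.ofReal (‖A1 N S (U + γ)‖ ^ 2) ∂(mP (Fin k ⊕ Fin k) H) ≤
      ENNReal.ofReal (C * Real.log T ^ 4 * (H * L / N + T) * L * V ^ (2 * k - 1)) := by
  obtain ⟨C1, T1, hC1, hT1, h1⟩ := pOPL
  rcases Nat.eq_zero_or_pos k with hk | hk
  · subst hk
    refine ⟨1, 3, by norm_num, le_rfl, fun T H L S V N U hT _ _ _ _ _ _ _ _ _ _ _ => ?_⟩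
    simp [A1]
  refine ⟨4 ^ (2 * k) * C1, T1, by positivity, hT1, fun T H L S V N U hT hH hU hL hLT hS0 hSL
    hN hNT hV0 hVz hVP => ?_⟩
  have hT3 : 3 ≤ T := hT1.trans hT
  have hT0 : 0 < T := by linarith
  have hH0 : 0 ≤ H := by linarith
  have hN0 : (0:ℝ) < N := by exact_mod_cast hN
  have hlog : 0 ≤ Real.log T := Real.log_nonneg (by linarith)
  set K : ℝ := C1 * Real.log T ^ 4 * (H * L / N + T) with hK
  have hK0 : 0 ≤ K := by positivity
  have e0 : ∀ u t y : ℝ, u + (t + y) = t + (u + y) := fun u t y => by ring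
  have key := repH (Fin k ⊕ Fin k) (fun i v => fz k z i (U i + v)) (fun i v => fz k (PN N) i (U i + v))
    H S K V hS0 hH0 hK0 hV0 (fun i => z_shift_cont (fz_cont z_cont i) _)
    (fun i => z_shift_cont (fz_cont (PN_cont N) i) _) ?_ ?_ ?_
  · have e1 : ∀ γ : Fin k ⊕ Fin k → ℝ,
        (∫ t in (0:ℝ)..S, (∏ i, fz k z i (U i + (t + γ i)) - ∏ i, fz k (PN N) i (U i + (t + γ i)))) =
        A1 N S (U + γ) := by
      intro γ
      have e2 : ∀ (f : ℝ → ℂ) (t : ℝ), ∏ i, fz k f i (U i + (t + γ i)) =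
          ∏ j : Fin k, f (t + (U + γ) (Sum.inl j)) *
            (starRingEnd ℂ) (f (t + (U + γ) (Sum.inr j))) := by
        intro f t
        rw [← fz_prod f t (U + γ)]
        refine Finset.prod_congr rfl fun i _ => ?_
        rw [e0, Pi.add_apply]
      unfold A1
      rw [intervalIntegral.integral_sub]
      · simp only [e2]
      · refine Continuous.intervalIntegrable ?_ _ _
        exact continuous_finsetProd _ fun i _ => (fz_cont z_cont i).comp (by fun_prop)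
      · refine Continuous.intervalIntegrable ?_ _ _
        exact continuous_finsetProd _ fun i _ => (fz_cont (PN_cont N) i).comp (by fun_prop)
    simp only [e1] at key
    refine key.trans (ENNReal.ofReal_le_ofReal ?_)
    have hc : Fintype.card (Fin k ⊕ Fin k) = 2 * k := by
      rw [Fintype.card_sum, Fintype.card_fin]; ring
    rw [hc, hK]
    calc (4:ℝ) ^ (2 * k) * (C1 * Real.log T ^ 4 * (H * L / N + T)) * V ^ (2 * k - 1) * S
        ≤ 4 ^ (2 * k) * (C1 * Real.log T ^ 4 * (H * L / N + T)) * V ^ (2 * k - 1) * L := by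
          gcongr
      _ = _ := by ring
  · intro i R hR
    obtain ⟨hU0, hUT⟩ := hU i
    simp only [e0]
    cases i with
    | inl j =>
      have := h1 T H L (U (Sum.inl j)) S N R hT hH hU0 hUT hL hLT hS0 hSL hN hNT hR
      simpa [fz] using this
    | inr j =>
      have := h1 T H L (U (Sum.inr j)) S N (fun t => (starRingEnd ℂ) (R t)) hT hH hU0 hUT hL hLT
        hS0 hSL hN hNT (Complex.continuous_conj.comp hR)
      simp only [Complex.norm_conj] at this
      refine le_trans (le_of_eq ?_) this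
      refine intervalIntegral.integral_congr fun y _ => ?_
      have e3 : (∫ t in (0:ℝ)..S, (fz k z (Sum.inr j) (t + (U (Sum.inr j) + y)) -
          fz k (PN N) (Sum.inr j) (t + (U (Sum.inr j) + y))) * R t) =
          (starRingEnd ℂ) (∫ t in (0:ℝ)..S, (z (t + (U (Sum.inr j) + y)) -
            PN N (t + (U (Sum.inr j) + y))) * (starRingEnd ℂ) (R t)) := by
        rw [← int_conj]
        refine intervalIntegral.integral_congr fun t _ => ?_
        simp only [fz, Sum.elim_inr, map_mul, map_sub, Complex.conj_conj]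
      change ‖_‖ ^ 2 = ‖_‖ ^ 2
      rw [e3, Complex.norm_conj]
  · intro i t ht
    obtain ⟨hU0, hUT⟩ := hU i
    simp only [fz_norm, ← add_assoc]
    exact hVz _ (by linarith [ht.1]) (by linarith [ht.2])
  · intro i t ht
    obtain ⟨hU0, hUT⟩ := hU i
    simp only [fz_norm, ← add_assoc]
    exact hVP _ (by linarith [ht.1]) (by linarith [ht.2])

/-- Z2 on a box -/
theorem z2L (k : ℕ) (T H A B V : ℝ) (U : Fin k ⊕ Fin k → ℝ) (hH : 0 ≤ H)
    (hU : ∀ i, 0 ≤ U i ∧ U i + H ≤ T) (hA : 0 ≤ A) (hAB : A ≤ B) (hBT : B ≤ T) (hV0 : 0 ≤ V)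
    (hVz : ∀ v, 0 ≤ v → v ≤ 2 * T → ∫ y in (0:ℝ)..H, ‖z (v + y)‖ ^ 2 ≤ V) :
    ∫⁻ γ, ENNReal.ofReal ((∫ t in A..B, ‖∏ j : Fin k, z (t + (U + γ) (Sum.inl j)) *
      (starRingEnd ℂ) (z (t + (U + γ) (Sum.inr j)))‖) ^ 2) ∂(mP (Fin k ⊕ Fin k) H) ≤
    ENNReal.ofReal ((B - A) ^ 2 * V ^ (2 * k)) := by
  have e0 : ∀ u t y : ℝ, u + (t + y) = t + (u + y) := fun u t y => by ring
  have key := rep2H (Fin k ⊕ Fin k) (fun i v => fz k z i (U i + v)) H A B V hH hAB hV0
    (fun i => z_shift_cont (fz_cont z_cont i) _) (fun i t ht => ?_)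
  · have e2 : ∀ (γ : Fin k ⊕ Fin k → ℝ) (t : ℝ), ∏ i, fz k z i (U i + (t + γ i)) =
        ∏ j : Fin k, z (t + (U + γ) (Sum.inl j)) *
          (starRingEnd ℂ) (z (t + (U + γ) (Sum.inr j))) := by
      intro γ t
      rw [← fz_prod z t (U + γ)]
      refine Finset.prod_congr rfl fun i _ => ?_
      rw [e0, Pi.add_apply]
    simp only [e2] at key
    have hc : Fintype.card (Fin k ⊕ Fin k) = 2 * k := by
      rw [Fintype.card_sum, Fintype.card_fin]; ring
    rwa [hc] at key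
  · obtain ⟨hU0, hUT⟩ := hU i
    simp only [fz_norm, ← add_assoc]
    exact hVz _ (by linarith [ht.1]) (by linarith [ht.2])

open Pool.Agent.TH805.GS (RR RR_update GG_split norm_RR cont_RR cont_chi cont_int)

/-- SW on a box -/
theorem swL (k : ℕ) {T H S : ℝ} (U : Fin k ⊕ Fin k → ℝ) (π : Equiv.Perm (Fin k ⊕ Fin k))
    (hT : 16 ≤ T) (hH : 0 ≤ H) (hU : ∀ i, 0 ≤ U i ∧ U i + H ≤ T) (hS : 0 ≤ S) (hST : S ≤ T)
    (hπ : ∃ j, (π (Sum.inr j)).isLeft = true) :
    ∫⁻ γ, ENNReal.ofReal (‖IG S (U + γ) π‖ ^ 2)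
      ∂(mP (Fin k ⊕ Fin k) H) ≤ ENNReal.ofReal (688 * (S * T) * Real.log T ^ 2 * H ^ (2 * k - 1)) := by
  obtain ⟨j₀, hj₀⟩ := hπ
  have hT0 : 0 < T := by linarith
  set p : Fin k ⊕ Fin k := π (Sum.inr j₀) with hp
  obtain ⟨hU0, hUT⟩ := hU p
  set F : (Fin k ⊕ Fin k → ℝ) → ENNReal :=
    fun γ => ENNReal.ofReal (‖IG S (U + γ) π‖ ^ 2) with hF
  have hFm : Measurable F := by
    have h0 : Continuous fun γ : Fin k ⊕ Fin k → ℝ => IG S (U + γ) π :=
      (IG_cont S π).comp (by fun_prop)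
    have : Continuous F := ENNReal.continuous_ofReal.comp ((h0.norm).pow 2)
    exact this.measurable
  have hup : ∀ (γ : Fin k ⊕ Fin k → ℝ) (y : ℝ),
      U + Function.update γ p y = Function.update (U + γ) p (U p + y) := by
    intro γ y
    funext i
    by_cases h : i = p
    · subst h
      rw [Pi.add_apply, Function.update_self, Function.update_self]
    · rw [Pi.add_apply, Function.update_of_ne h, Function.update_of_ne h, Pi.add_apply]
  have hin : ∀ γ : Fin k ⊕ Fin k → ℝ,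
      ∫⁻ y, F (Function.update γ p y) ∂(volume.restrict (Icc 0 H)) ≤
        ENNReal.ofReal (688 * (S * T) * Real.log T ^ 2) := by
    intro γ
    have h1 := CHIL.pCHIL (R := fun t => RR j₀ t (U + γ) π) hT hS hST (cont_RR j₀ (U + γ) π)
      (fun t => norm_RR j₀ t (U + γ) π)
    have hc : Continuous fun y : ℝ =>
        ‖∫ t in (0:ℝ)..S, chi (1 / 2 + I * (t + y)) * RR j₀ t (U + γ) π‖ ^ 2 := by
      refine Continuous.pow (Continuous.norm ?_) 2
      refine intervalIntegral.continuous_parametric_intervalIntegral_of_continuous'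
        (f := fun (y t : ℝ) => chi (1 / 2 + I * ((t : ℂ) + (y : ℂ))) * RR j₀ t (U + γ) π) ?_ 0 S
      have h2 : Continuous fun q : ℝ × ℝ => chi (1 / 2 + I * ((q.2 : ℂ) + (q.1 : ℂ))) := by
        have h := cont_chi.comp (g := fun u : ℝ => chi (1 / 2 + I * (u : ℂ)))
          (f := fun q : ℝ × ℝ => q.2 + q.1) (by fun_prop)
        refine h.congr fun t => ?_
        simp only [Function.comp]
        congr 1
        push_cast
        ring
      exact h2.mul ((cont_RR j₀ (U + γ) π).comp continuous_snd)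
    have h3 : ∀ y : ℝ, F (Function.update γ p y) =
        ENNReal.ofReal (‖∫ t in (0:ℝ)..S, chi (1 / 2 + I * (t + ((U p + y : ℝ) : ℂ))) *
          RR j₀ t (U + γ) π‖ ^ 2) := by
      intro y
      change ENNReal.ofReal (‖IG S (U + Function.update γ p y) π‖ ^ 2) = _
      congr 3
      unfold IG
      refine intervalIntegral.integral_congr fun t _ => ?_
      beta_reduce
      rw [hup, GG_split j₀ t (Function.update (U + γ) p (U p + y)) π hj₀, RR_update, ← hp,
        Function.update_self]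
    simp only [h3]
    have hc' : Continuous fun y : ℝ => ‖∫ t in (0:ℝ)..S, chi (1 / 2 + I * (t + ((U p + y : ℝ) : ℂ))) *
          RR j₀ t (U + γ) π‖ ^ 2 := hc.comp (by fun_prop : Continuous fun y : ℝ => U p + y)
    rw [← ofReal_integral_eq_lintegral_ofReal]
    · refine ENNReal.ofReal_le_ofReal ?_
      rw [integral_Icc_eq_integral_Ioc, ← intervalIntegral.integral_of_le hH]
      rw [intervalIntegral.integral_comp_add_left (fun y : ℝ => ‖∫ t in (0:ℝ)..S,
        chi (1 / 2 + I * (t + (y : ℂ))) * RR j₀ t (U + γ) π‖ ^ 2) (U p), add_zero]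
      refine le_trans ?_ h1
      exact intervalIntegral.integral_mono_interval hU0 (by linarith) hUT
        (Eventually.of_forall fun _ => by positivity) (hc.intervalIntegrable _ _)
    · exact hc'.continuousOn.integrableOn_compact isCompact_Icc
    · exact Eventually.of_forall fun y => by positivity
  change ∫⁻ γ, F γ ∂(Measure.pi fun _ => volume.restrict (Icc 0 H)) ≤ _
  rw [lintegral_eq_lmarginal_univ (fun _ => (0 : ℝ)), lmarginal_erase' F hFm (Finset.mem_univ p)]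
  refine (lmarginal_mono (g := fun _ => ENNReal.ofReal (688 * (S * T) * Real.log T ^ 2))
    (fun γ => hin γ) _).trans ?_
  unfold lmarginal
  rw [lintegral_const, Measure.pi_univ]
  have hm : (∏ i : {x // x ∈ Finset.univ.erase p}, (volume.restrict (Icc 0 H) : Measure ℝ) univ)
      = ENNReal.ofReal H ^ (2 * k - 1) := by
    rw [Measure.restrict_apply_univ, Real.volume_Icc, sub_zero, Finset.prod_const]
    congr 1
    rw [Finset.card_univ, Fintype.card_coe, Finset.card_erase_of_mem (Finset.mem_univ _),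
      Finset.card_univ, Fintype.card_sum, Fintype.card_fin]
    omega
  rw [hm, ← ENNReal.ofReal_pow hH, ← ENNReal.ofReal_mul (by positivity)]

end

end Pool.Agent.T2H54.SB
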